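import Pool.Agent.TH300.Met

/-! Algebra of unordered pairs of complex numbers. -/

set_option autoImplicit false

open MeasureTheory Metric Set Filter Topology
open scoped ContDiff ENNReal ComplexConjugate

namespace Pool.Agent.TH300

/-- `z²/|z|` -/
noncomputable def N (z : ℂ) : ℂ := z ^ 2 / (‖z‖ : ℂ)

theorem N_zero : N 0 = 0 := by simp [N]

theorem N_neg (z : ℂ) : N (-z) = N z := by simp [N]

theorem norm_N (z : ℂ) : ‖N z‖ = ‖z‖ := by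
  unfold N
  rw [norm_div, norm_pow, Complex.norm_real, norm_norm]
  by_cases h : ‖z‖ = 0
  · simp [h]
  · field_simp

theorem N_eq_zero {z : ℂ} : N z = 0 ↔ z = 0 := by
  rw [← norm_eq_zero, norm_N, norm_eq_zero]

/-- the key inequality for pairs -/
theorem key_pair (a b : ℂ) :
    1 / 8 * ‖N a - N b‖ ^ 2 + 3 / 8 * (‖a‖ - ‖b‖) ^ 2 ≤ 1 / 2 * ‖a - b‖ ^ 2 := by
  by_cases ha : a = 0
  · subst ha
    rw [N_zero, zero_sub, norm_neg, norm_N, norm_zero, zero_sub, neg_sq, zero_sub, norm_neg]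
    linarith
  by_cases hb : b = 0
  · subst hb
    rw [N_zero, sub_zero, norm_N, norm_zero, sub_zero, sub_zero]
    linarith
  have ha' : 0 < ‖a‖ := norm_pos_iff.2 ha
  have hb' : 0 < ‖b‖ := norm_pos_iff.2 hb
  set i : ℝ := (a * conj b).re with hi
  have h1 : ‖a - b‖ ^ 2 = ‖a‖ ^ 2 + ‖b‖ ^ 2 - 2 * i := by
    rw [← Complex.normSq_eq_norm_sq, ← Complex.normSq_eq_norm_sq, ← Complex.normSq_eq_norm_sq,
      Complex.normSq_sub]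
  have h2 : ‖N a - N b‖ ^ 2 = ‖a‖ ^ 2 + ‖b‖ ^ 2 - 2 * (N a * conj (N b)).re := by
    rw [← Complex.normSq_eq_norm_sq, Complex.normSq_sub, Complex.normSq_eq_norm_sq,
      Complex.normSq_eq_norm_sq, norm_N, norm_N]
  have h3 : (N a * conj (N b)).re = 2 * i ^ 2 / (‖a‖ * ‖b‖) - ‖a‖ * ‖b‖ := by
    have e1 : N a * conj (N b) = (a * conj b) ^ 2 / ((‖a‖ * ‖b‖ : ℝ) : ℂ) := by
      unfold N
      rw [map_div₀, map_pow, Complex.conj_ofReal]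
      push_cast
      rw [mul_pow]
      field_simp
    rw [e1, Complex.div_ofReal_re]
    have e2 : ((a * conj b) ^ 2).re = 2 * i ^ 2 - (‖a‖ * ‖b‖) ^ 2 := by
      have e3 : ‖a * conj b‖ ^ 2 = (‖a‖ * ‖b‖) ^ 2 := by
        rw [norm_mul, RCLike.norm_conj]
      rw [← e3, ← Complex.normSq_eq_norm_sq, Complex.normSq_apply, pow_two (a * conj b),
        Complex.mul_re (a * conj b) (a * conj b), hi]
      ring
    rw [e2]
    field_simp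
  rw [h1, h2, h3]
  have hab : 0 < ‖a‖ * ‖b‖ := mul_pos ha' hb'
  have h4 : 0 ≤ (i - ‖a‖ * ‖b‖) ^ 2 / (‖a‖ * ‖b‖) := by positivity
  have h5 : (i - ‖a‖ * ‖b‖) ^ 2 / (‖a‖ * ‖b‖) = i ^ 2 / (‖a‖ * ‖b‖) - 2 * i + ‖a‖ * ‖b‖ := by
    field_simp
    ring
  have h6 : 2 * i ^ 2 / (‖a‖ * ‖b‖) = 2 * (i ^ 2 / (‖a‖ * ‖b‖)) := by ring
  rw [h6]
  nlinarith

/-- sum -/
noncomputable def sm (S : Fin 2 → ℂ) : ℂ := S 0 + S 1
/-- the symmetrised difference -/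
noncomputable def et (S : Fin 2 → ℂ) : ℂ := N (S 0 - S 1)

theorem key_G (S T : Fin 2 → ℂ) :
    1 / 2 * ‖sm S - sm T‖ ^ 2 + 1 / 8 * ‖et S - et T‖ ^ 2 + 3 / 8 * (‖et S‖ - ‖et T‖) ^ 2 ≤
      G S T ^ 2 := by
  obtain ⟨σ, h⟩ := G_exists S T
  have h1 : G S T ^ 2 = ‖S 0 - T (σ 0)‖ ^ 2 + ‖S 1 - T (σ 1)‖ ^ 2 := by
    rw [h, nr, Real.sq_sqrt (by positivity)]
    simp [Fin.sum_univ_two]
  have h2 : ∀ p q : ℂ, ‖p‖ ^ 2 + ‖q‖ ^ 2 = 1 / 2 * ‖p + q‖ ^ 2 + 1 / 2 * ‖p - q‖ ^ 2 := by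
    intro p q
    rw [← Complex.normSq_eq_norm_sq, ← Complex.normSq_eq_norm_sq, ← Complex.normSq_eq_norm_sq,
      ← Complex.normSq_eq_norm_sq, Complex.normSq_add, Complex.normSq_sub]
    ring
  rw [h1, h2]
  have h3 := key_pair (S 0 - S 1) (T (σ 0) - T (σ 1))
  have h4 : T (σ 0) + T (σ 1) = sm T := by
    have : ∑ i, T (σ i) = ∑ i, T i := Equiv.sum_comp σ T
    simpa [Fin.sum_univ_two, sm] using this
  have h5 : N (T (σ 0) - T (σ 1)) = et T := by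
    have h6 : ∀ σ : Equiv.Perm (Fin 2), (σ 0 = 0 ∧ σ 1 = 1) ∨ (σ 0 = 1 ∧ σ 1 = 0) := by
      decide
    rcases h6 σ with ⟨a, b⟩ | ⟨a, b⟩
    · rw [a, b]; rfl
    · rw [a, b, ← N_neg, neg_sub]; rfl
  have h7 : ‖T (σ 0) - T (σ 1)‖ = ‖et T‖ := by rw [← h5, norm_N]
  have h8 : ‖S 0 - S 1‖ = ‖et S‖ := (norm_N _).symm
  rw [h5, h7, h8] at h3
  have h9 : S 0 - T (σ 0) + (S 1 - T (σ 1)) = sm S - sm T := by
    rw [← h4]; unfold sm; ring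
  have h10 : S 0 - T (σ 0) - (S 1 - T (σ 1)) = S 0 - S 1 - (T (σ 0) - T (σ 1)) := by ring
  rw [h9, h10]
  have h11 : N (S 0 - S 1) = et S := rfl
  rw [h11] at h3
  linarith

theorem sm_lip (S T : Fin 2 → ℂ) : ‖sm S - sm T‖ ≤ 2 * G S T := by
  have h := key_G S T
  have h2 : ‖sm S - sm T‖ ^ 2 ≤ (2 * G S T) ^ 2 := by
    nlinarith [sq_nonneg ‖et S - et T‖, sq_nonneg (‖et S‖ - ‖et T‖), sq_nonneg (G S T)]
  exact le_of_sq_le_sq h2 (by have := G_nonneg S T; positivity)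

theorem et_lip (S T : Fin 2 → ℂ) : ‖et S - et T‖ ≤ 3 * G S T := by
  have h := key_G S T
  have h2 : ‖et S - et T‖ ^ 2 ≤ (3 * G S T) ^ 2 := by
    nlinarith [sq_nonneg ‖sm S - sm T‖, sq_nonneg (‖et S‖ - ‖et T‖), sq_nonneg (G S T)]
  exact le_of_sq_le_sq h2 (by have := G_nonneg S T; positivity)

/-- determinant of two plane vectors -/
noncomputable def dt (a b : ℂ) : ℝ := a.re * b.im - a.im * b.re

theorem normsq_eq (a : ℂ) : ‖a‖ ^ 2 = a.re ^ 2 + a.im ^ 2 := by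
  rw [← Complex.normSq_eq_norm_sq, Complex.normSq_apply]; ring

theorem dt_le (a b : ℂ) : dt a b ≤ 1 / 2 * ‖a‖ ^ 2 + 1 / 2 * ‖b‖ ^ 2 := by
  unfold dt
  rw [normsq_eq, normsq_eq]
  nlinarith [sq_nonneg (a.re - b.im), sq_nonneg (a.im + b.re)]

theorem dt_add_sub (a b a' b' : ℂ) :
    dt (a + b) (a' + b') + dt (a - b) (a' - b') = 2 * dt a a' + 2 * dt b b' := by
  unfold dt
  simp only [Complex.add_re, Complex.add_im, Complex.sub_re, Complex.sub_im]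
  ring

theorem dt_zero_right (a : ℂ) : dt a 0 = 0 := by simp [dt]
theorem dt_zero_left (a : ℂ) : dt 0 a = 0 := by simp [dt]

theorem dt_mul (c a b : ℂ) : dt (c * a) (c * b) = ‖c‖ ^ 2 * dt a b := by
  unfold dt
  rw [normsq_eq]
  simp only [Complex.mul_re, Complex.mul_im]
  ring

theorem dt_I (a : ℂ) : dt a (Complex.I * a) = ‖a‖ ^ 2 := by
  unfold dt
  rw [normsq_eq]
  simp only [Complex.mul_re, Complex.mul_im, Complex.I_re, Complex.I_im]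
  ring

theorem det_eta {η : ℂ} (hη : η ≠ 0) (a b : ℂ) :
    1 / 2 * dt a b ≤ (1 / 8 * ‖a‖ ^ 2 + 3 / 8 * ((conj η * a).re / ‖η‖) ^ 2) +
      (1 / 8 * ‖b‖ ^ 2 + 3 / 8 * ((conj η * b).re / ‖η‖) ^ 2) := by
  have h0 : 0 < ‖η‖ := norm_pos_iff.2 hη
  have h1 : ∀ c : ℂ, ‖c‖ ^ 2 = ((conj η * c).re / ‖η‖) ^ 2 + ((conj η * c).im / ‖η‖) ^ 2 := by
    intro c
    have : ‖conj η * c‖ ^ 2 = ‖η‖ ^ 2 * ‖c‖ ^ 2 := by
      rw [norm_mul, RCLike.norm_conj]; ring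
    rw [normsq_eq (conj η * c)] at this
    rw [div_pow, div_pow, ← add_div, this]
    field_simp
  have h2 : dt a b = ((conj η * a).re / ‖η‖) * ((conj η * b).im / ‖η‖) -
      ((conj η * a).im / ‖η‖) * ((conj η * b).re / ‖η‖) := by
    have := dt_mul (conj η) a b
    rw [RCLike.norm_conj] at this
    have h3 : dt a b = dt (conj η * a) (conj η * b) / ‖η‖ ^ 2 := by
      rw [this]; field_simp
    rw [h3]
    unfold dt
    field_simp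
  rw [h1 a, h1 b, h2]
  set x := (conj η * a).re / ‖η‖
  set y := (conj η * a).im / ‖η‖
  set x' := (conj η * b).re / ‖η‖
  set y' := (conj η * b).im / ‖η‖
  nlinarith [sq_nonneg (x - y' / 2), sq_nonneg (x' + y / 2)]

/-- the derivative of `N` -/
noncomputable def dN (a w : ℂ) : ℂ := 2 * a * w / ‖a‖ - a ^ 2 * ((conj a * w).re / ‖a‖ ^ 3 : ℝ)

theorem dt_dN {a : ℂ} (ha : a ≠ 0) (w w' : ℂ) : dt (dN a w) (dN a w') = 2 * dt w w' := by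
  have h0 : 0 < ‖a‖ := norm_pos_iff.2 ha
  have h0' : (‖a‖ : ℂ) ≠ 0 := by exact_mod_cast h0.ne'
  have key : ∀ o : ℂ, dN a (a * o) = (a ^ 2 / ‖a‖) * (o.re + 2 * o.im * Complex.I) := by
    intro o
    unfold dN
    have e1 : (conj a * (a * o)).re = ‖a‖ ^ 2 * o.re := by
      rw [← mul_assoc, mul_comm (conj a) a, Complex.mul_conj, Complex.re_ofReal_mul,
        Complex.normSq_eq_norm_sq]
    rw [e1]
    have e2 : ‖a‖ ^ 2 * o.re / ‖a‖ ^ 3 = o.re / ‖a‖ := by field_simp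
    rw [e2]
    have e3 : (2 * o - o.re : ℂ) = o.re + 2 * o.im * Complex.I := by
      apply Complex.ext <;> simp
      ring
    rw [← e3]
    push_cast
    field_simp
  have e1 : w = a * (w / a) := by field_simp
  have e2 : w' = a * (w' / a) := by field_simp
  rw [e1, e2, key, key, dt_mul, dt_mul]
  have h3 : ‖a ^ 2 / (‖a‖ : ℂ)‖ = ‖a‖ := norm_N a
  rw [h3]
  unfold dt
  simp
  ring

theorem hasDeriv_N {a : ℂ} (ha : a ≠ 0) : ∃ L : ℂ →L[ℝ] ℂ, HasFDerivAt N L a ∧ ∀ w, L w = dN a w := by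
  have h0 : 0 < ‖a‖ := norm_pos_iff.2 ha
  have h0' : (‖a‖ : ℂ) ≠ 0 := by exact_mod_cast h0.ne'
  have h1 : HasFDerivAt (fun z : ℂ => ‖z‖ ^ 2) (2 • (innerSL ℝ a)) a :=
    (hasStrictFDerivAt_norm_sq a).hasFDerivAt
  have h2 := h1.sqrt (by positivity)
  have e1 : (fun z : ℂ => Real.sqrt (‖z‖ ^ 2)) = fun z => ‖z‖ := by
    ext z; exact Real.sqrt_sq (norm_nonneg _)
  rw [e1, Real.sqrt_sq (norm_nonneg _)] at h2
  have h2' := (hasDerivAt_inv h0.ne').comp_hasFDerivAt a h2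
  have h3 := Complex.ofRealCLM.hasFDerivAt.comp a h2'
  have h4 : HasFDerivAt (fun z : ℂ => z ^ 2) ((2 * a) • (ContinuousLinearMap.id ℝ ℂ)) a := by
    have := (hasDerivAt_pow 2 a).hasFDerivAt.restrictScalars ℝ
    refine this.congr_fderiv ?_
    ext
    simp
    ring
  have h5 := h4.mul h3
  have e2 : ((fun z : ℂ => z ^ 2) * (Complex.ofRealCLM ∘ (fun y : ℝ => y⁻¹) ∘ fun z : ℂ => ‖z‖)) =
      N := by
    ext z
    simp [N, div_eq_mul_inv]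
  rw [e2] at h5
  refine ⟨_, h5, fun w => ?_⟩
  simp [dN]
  field_simp
  ring

theorem hasDeriv_norm {a : ℂ} (ha : a ≠ 0) :
    ∃ L : ℂ →L[ℝ] ℝ, HasFDerivAt (fun z : ℂ => ‖z‖) L a ∧ ∀ w, L w = (conj a * w).re / ‖a‖ := by
  have h0 : 0 < ‖a‖ := norm_pos_iff.2 ha
  have h1 : HasFDerivAt (fun z : ℂ => ‖z‖ ^ 2) (2 • (innerSL ℝ a)) a :=
    (hasStrictFDerivAt_norm_sq a).hasFDerivAt
  have h2 := h1.sqrt (by positivity)
  have e1 : (fun z : ℂ => Real.sqrt (‖z‖ ^ 2)) = fun z => ‖z‖ := by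
    ext z; exact Real.sqrt_sq (norm_nonneg _)
  rw [e1, Real.sqrt_sq (norm_nonneg _)] at h2
  refine ⟨_, h2, fun w => ?_⟩
  simp
  field_simp

theorem seq_lim {E : Type} [NormedAddCommGroup E] [NormedSpace ℝ E] {f : ℂ → E} {L : ℂ →L[ℝ] E}
    {a w : ℂ} (h : HasFDerivAt f L a) {t : ℕ → ℝ} (ht : ∀ k, 0 < t k) (ht0 : Tendsto t atTop (𝓝 0))
    {x : ℕ → ℂ} (hx : Tendsto (fun k => (t k)⁻¹ • (x k - a)) atTop (𝓝 w)) :
    Tendsto (fun k => (t k)⁻¹ • (f (x k) - f a)) atTop (𝓝 (L w)) := by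
  have h1 : Tendsto (fun k => x k - a) atTop (𝓝 0) := by
    have := ht0.smul hx
    rw [zero_smul] at this
    refine this.congr fun k => ?_
    rw [smul_smul, mul_inv_cancel₀ (ht k).ne', one_smul]
  have h2 := (h.hasFDerivWithinAt (s := univ)).lim (c := fun k => (t k)⁻¹)
    (d := fun k => x k - a) (v := w) h1 (Eventually.of_forall fun _ => mem_univ _) hx
  simpa using h2

/-- one direction, above the interface -/
theorem point_ineq {t : ℕ → ℝ} (ht : ∀ k, 0 < t k) (ht0 : Tendsto t atTop (𝓝 0))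
    {Sk : ℕ → Fin 2 → ℂ} {S : Fin 2 → ℂ} {s' η' : ℂ} {r : ℕ → ℝ} {Φ : ℝ}
    (hs : Tendsto (fun k => (t k)⁻¹ • (sm (Sk k) - sm S)) atTop (𝓝 s'))
    (hη : Tendsto (fun k => (t k)⁻¹ • (et (Sk k) - et S)) atTop (𝓝 η'))
    (hr : Tendsto r atTop (𝓝 Φ)) (hG : ∀ᶠ k in atTop, G (Sk k) S ≤ t k * r k) :
    (et S = 0 → 1 / 2 * ‖s'‖ ^ 2 + 1 / 8 * ‖η'‖ ^ 2 ≤ Φ ^ 2) ∧
    (et S ≠ 0 → 1 / 2 * ‖s'‖ ^ 2 +
      (1 / 8 * ‖η'‖ ^ 2 + 3 / 8 * ((conj (et S) * η').re / ‖et S‖) ^ 2) ≤ Φ ^ 2) := by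
  have hn : ∀ k (z : ℂ), ‖(t k)⁻¹ • z‖ ^ 2 = ((t k)⁻¹) ^ 2 * ‖z‖ ^ 2 := by
    intro k z
    rw [norm_smul, mul_pow, Real.norm_of_nonneg (inv_pos.2 (ht k)).le]
  have hGk : ∀ᶠ k in atTop, ((t k)⁻¹) ^ 2 * G (Sk k) S ^ 2 ≤ r k ^ 2 := by
    filter_upwards [hG] with k hk
    have h1 : G (Sk k) S ^ 2 ≤ (t k * r k) ^ 2 := by
      have := G_nonneg (Sk k) S
      exact pow_le_pow_left₀ this hk 2
    calc ((t k)⁻¹) ^ 2 * G (Sk k) S ^ 2 ≤ ((t k)⁻¹) ^ 2 * (t k * r k) ^ 2 := by gcongr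
      _ = r k ^ 2 := by
        have := (ht k).ne'
        field_simp
  refine ⟨fun _ => ?_, fun h0 => ?_⟩
  · refine le_of_tendsto_of_tendsto ((((hs.norm.pow 2).const_mul (1 / 2)).add
      ((hη.norm.pow 2).const_mul (1 / 8)))) (hr.pow 2) ?_
    filter_upwards [hGk] with k hGk
    rw [hn, hn]
    refine le_trans ?_ hGk
    have h1 := key_G (Sk k) S
    have h2 : 0 ≤ ((t k)⁻¹) ^ 2 := by positivity
    have h3 := mul_le_mul_of_nonneg_left h1 h2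
    have h4 : 0 ≤ ((t k)⁻¹) ^ 2 * (3 / 8 * (‖et (Sk k)‖ - ‖et S‖) ^ 2) := by positivity
    linarith
  · obtain ⟨L, hL, hLw⟩ := hasDeriv_norm h0
    have h5 := seq_lim hL ht ht0 hη
    rw [hLw] at h5
    refine le_of_tendsto_of_tendsto (((hs.norm.pow 2).const_mul (1 / 2)).add
      (((hη.norm.pow 2).const_mul (1 / 8)).add ((h5.pow 2).const_mul (3 / 8)))) (hr.pow 2) ?_
    filter_upwards [hGk] with k hGk
    rw [hn, hn]
    refine le_trans ?_ hGk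
    have h1 := key_G (Sk k) S
    have h2 : 0 ≤ ((t k)⁻¹) ^ 2 := by positivity
    have h3 := mul_le_mul_of_nonneg_left h1 h2
    rw [smul_eq_mul, mul_pow]
    linarith

/-- both directions, above the interface -/
theorem point_plus {S : Fin 2 → ℂ} {s₁ s₂ η₁ η₂ : ℂ} {Φ₁ Φ₂ : ℝ}
    (h1 : (et S = 0 → 1 / 2 * ‖s₁‖ ^ 2 + 1 / 8 * ‖η₁‖ ^ 2 ≤ Φ₁ ^ 2) ∧
    (et S ≠ 0 → 1 / 2 * ‖s₁‖ ^ 2 +
      (1 / 8 * ‖η₁‖ ^ 2 + 3 / 8 * ((conj (et S) * η₁).re / ‖et S‖) ^ 2) ≤ Φ₁ ^ 2))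
    (h2 : (et S = 0 → 1 / 2 * ‖s₂‖ ^ 2 + 1 / 8 * ‖η₂‖ ^ 2 ≤ Φ₂ ^ 2) ∧
    (et S ≠ 0 → 1 / 2 * ‖s₂‖ ^ 2 +
      (1 / 8 * ‖η₂‖ ^ 2 + 3 / 8 * ((conj (et S) * η₂).re / ‖et S‖) ^ 2) ≤ Φ₂ ^ 2))
    (h0 : et S = 0 → η₁ = 0 ∧ η₂ = 0) :
    dt s₁ s₂ + 1 / 2 * dt η₁ η₂ ≤ Φ₁ ^ 2 + Φ₂ ^ 2 := by
  have h3 := dt_le s₁ s₂
  by_cases h : et S = 0
  · obtain ⟨a, b⟩ := h0 h
    have h4 := h1.1 h
    have h5 := h2.1 h
    rw [a] at h4 ⊢
    rw [b] at h5 ⊢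
    rw [dt_zero_right]
    rw [norm_zero] at h4 h5
    linarith
  · have h4 := h1.2 h
    have h5 := h2.2 h
    have h6 := det_eta h η₁ η₂
    linarith

end Pool.Agent.TH300
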