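import Pool.Agent.TH300.Defs

/-! Difference formula for weakly differentiable functions. -/

set_option autoImplicit false

open MeasureTheory Metric Set Filter Topology
open scoped ContDiff ENNReal

namespace Pool.Agent.TH300

theorem dq_formula_global {V : Set ℂ} (hV : IsOpen V) {e : ℂ} {w d : ℂ → ℝ}
    (hwm : Measurable w) (hdm : Measurable d) (hw : Integrable w) (hd : Integrable d)
    {t : ℝ} (ht : 0 ≤ t)
    (h : ∀ ψ : ℂ → ℝ, Test V ψ → ∀ s ∈ Icc 0 t,
      ∫ z, w z * fderiv ℝ ψ (z - s • e) e = - ∫ z, d z * ψ (z - s • e)) :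
    ∀ᵐ z, z ∈ V → w (z + t • e) - w z = ∫ s in (0:ℝ)..t, d (z + s • e) := by
  set ν : Measure ℝ := volume.restrict (Ioc (0:ℝ) t) with hν
  have hme : Measurable fun p : ℂ × ℝ => p.1 + p.2 • e := by fun_prop
  have H1 : Integrable (fun p : ℂ × ℝ => d (p.1 + p.2 • e)) (volume.prod ν) := by
    have hms : AEStronglyMeasurable (fun p : ℂ × ℝ => d (p.1 + p.2 • e)) (volume.prod ν) :=
      (hdm.comp hme).aestronglyMeasurable
    rw [integrable_prod_iff' hms]
    refine ⟨Eventually.of_forall fun s => hd.comp_add_right (s • e), ?_⟩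
    have : (fun s : ℝ => ∫ z : ℂ, ‖d (z + s • e)‖) = fun _ => ∫ z : ℂ, ‖d z‖ := by
      ext s
      exact integral_add_right_eq_self (fun z => ‖d z‖) (s • e)
    show Integrable (fun s : ℝ => ∫ z : ℂ, ‖d (z + s • e)‖) ν
    rw [this]
    exact integrable_const _
  have H1' : Integrable (fun z : ℂ => ∫ s in (0:ℝ)..t, d (z + s • e)) := by
    have := H1.integral_prod_left
    simpa [intervalIntegral.integral_of_le ht] using this
  have hwt : Integrable (fun z => w (z + t • e)) := hw.comp_add_right (t • e)
  have hf : Integrable (fun z => w (z + t • e) - w z - ∫ s in (0:ℝ)..t, d (z + s • e)) :=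
    (hwt.sub hw).sub H1'
  have key := hV.ae_eq_zero_of_integral_contDiff_smul_eq_zero (μ := volume)
    (f := fun z => w (z + t • e) - w z - ∫ s in (0:ℝ)..t, d (z + s • e))
    (hf.locallyIntegrable.locallyIntegrableOn V) (by
      intro ψ hψ hψc hψV
      have hψcont : Continuous ψ := hψ.continuous
      obtain ⟨B, hB⟩ := hψc.exists_bound_of_continuous hψcont
      have hDc : Continuous fun z => fderiv ℝ ψ z e :=
        (hψ.continuous_fderiv (by simp)).clm_apply continuous_const
      have hDs : HasCompactSupport fun z => fderiv ℝ ψ z e :=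
        hψc.fderiv_apply (𝕜 := ℝ) e
      obtain ⟨B', hB'⟩ := hDs.exists_bound_of_continuous hDc
      have i1 : Integrable fun z => ψ z * w (z + t • e) :=
        hwt.bdd_mul (c := B) hψcont.aestronglyMeasurable (Eventually.of_forall hB)
      have i2 : Integrable fun z => ψ z * w z :=
        hw.bdd_mul (c := B) hψcont.aestronglyMeasurable (Eventually.of_forall hB)
      have i3 : Integrable fun z => ψ z * ∫ s in (0:ℝ)..t, d (z + s • e) :=
        H1'.bdd_mul (c := B) hψcont.aestronglyMeasurable (Eventually.of_forall hB)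
      have H2 : Integrable (fun p : ℂ × ℝ => ψ p.1 * d (p.1 + p.2 • e)) (volume.prod ν) :=
        H1.bdd_mul (c := B) (hψcont.comp continuous_fst).aestronglyMeasurable
          (Eventually.of_forall fun p => hB _)
      have H3 : Integrable (fun p : ℂ × ℝ => w p.1 * fderiv ℝ ψ (p.1 - p.2 • e) e)
          (volume.prod ν) := by
        have h0 : Integrable (fun p : ℂ × ℝ => w p.1) (volume.prod ν) := hw.comp_fst ν
        have hc : Continuous fun p : ℂ × ℝ => fderiv ℝ ψ (p.1 - p.2 • e) e :=
          hDc.comp (by fun_prop : Continuous fun p : ℂ × ℝ => p.1 - p.2 • e)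
        exact h0.mul_bdd (c := B') hc.aestronglyMeasurable (Eventually.of_forall fun p => hB' _)
      have e0 : ∀ z, ψ z • (w (z + t • e) - w z - ∫ s in (0:ℝ)..t, d (z + s • e)) =
          (ψ z * w (z + t • e) - ψ z * w z) - ψ z * ∫ s in (0:ℝ)..t, d (z + s • e) := by
        intro z; rw [smul_eq_mul]; ring
      simp only [e0]
      have i12 : Integrable fun z => ψ z * w (z + t • e) - ψ z * w z := i1.sub i2
      rw [integral_sub i12 i3, integral_sub i1 i2]
      have e1 : ∫ z, ψ z * w (z + t • e) = ∫ z, ψ (z - t • e) * w z := by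
        rw [← integral_add_right_eq_self (fun z => ψ (z - t • e) * w z) (t • e)]
        simp
      have e3 : ∫ z, ψ z * ∫ s in (0:ℝ)..t, d (z + s • e) =
          - ∫ z, w z * (ψ z - ψ (z - t • e)) := by
        calc ∫ z, ψ z * ∫ s in (0:ℝ)..t, d (z + s • e)
            = ∫ z : ℂ, (∫ s : ℝ, ψ z * d (z + s • e) ∂ν) := by
              refine integral_congr_ae (Eventually.of_forall fun z => ?_)
              simp only
              rw [intervalIntegral.integral_of_le ht, ← integral_const_mul]
          _ = ∫ s : ℝ, (∫ z : ℂ, ψ z * d (z + s • e)) ∂ν := integral_integral_swap H2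
          _ = ∫ s : ℝ, (- ∫ z : ℂ, w z * fderiv ℝ ψ (z - s • e) e) ∂ν := by
              refine integral_congr_ae ?_
              filter_upwards [ae_restrict_mem measurableSet_Ioc] with s hs
              rw [h ψ ⟨hψ, hψc, hψV⟩ s ⟨hs.1.le, hs.2⟩, neg_neg,
                ← integral_add_right_eq_self (fun z => d z * ψ (z - s • e)) (s • e)]
              refine integral_congr_ae (Eventually.of_forall fun z => ?_)
              simp only [add_sub_cancel_right]
              ring
          _ = - ∫ s : ℝ, (∫ z : ℂ, w z * fderiv ℝ ψ (z - s • e) e) ∂ν := integral_neg _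
          _ = - ∫ z : ℂ, (∫ s : ℝ, w z * fderiv ℝ ψ (z - s • e) e ∂ν) := by
              rw [← integral_integral_swap (f := fun z s => w z * fderiv ℝ ψ (z - s • e) e) H3]
          _ = _ := by
              congr 1
              refine integral_congr_ae (Eventually.of_forall fun z => ?_)
              simp only
              rw [integral_const_mul]
              congr 1
              rw [hν, ← intervalIntegral.integral_of_le ht]
              have hder : ∀ s ∈ uIcc 0 t, HasDerivAt (fun s : ℝ => - ψ (z - s • e))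
                  (fderiv ℝ ψ (z - s • e) e) s := by
                intro s _
                have h1 : HasDerivAt (fun s : ℝ => z - s • e) (-e) s := by
                  have := ((hasDerivAt_id s).smul_const e).const_sub z
                  simpa using this
                have h2 := ((hψ.differentiable (by simp) (z - s • e)).hasFDerivAt).comp_hasDerivAt
                  s h1
                have h3 := h2.neg
                rw [map_neg, neg_neg] at h3
                exact h3
              have hi : IntervalIntegrable (fun s : ℝ => fderiv ℝ ψ (z - s • e) e) volume 0 t :=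
                (hDc.comp (by fun_prop : Continuous fun s : ℝ => z - s • e)).intervalIntegrable _ _
              rw [intervalIntegral.integral_eq_sub_of_hasDerivAt hder hi]
              simp
              ring
      rw [e1, e3, sub_neg_eq_add]
      have i4 : Integrable fun z => ψ (z - t • e) * w z :=
        hw.bdd_mul (c := B) (hψcont.comp (by fun_prop)).aestronglyMeasurable
          (Eventually.of_forall fun z => hB _)
      have i5 : Integrable fun z => w z * (ψ z - ψ (z - t • e)) := by
        refine (i2.sub i4).congr (Eventually.of_forall fun z => ?_)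
        simp only [Pi.sub_apply]; ring
      have i42 : Integrable fun z => ψ (z - t • e) * w z - ψ z * w z := i4.sub i2
      rw [← integral_sub i4 i2, ← integral_add i42 i5]
      rw [← integral_zero ℂ ℝ]
      refine integral_congr_ae (Eventually.of_forall fun z => ?_)
      simp only
      ring)
  filter_upwards [key] with z hz hzV
  linarith [hz hzV]

/-! ### basic facts on weak derivatives -/

theorem Test.fderiv_zero {U : Set ℂ} {ψ : ℂ → ℝ} (h : Test U ψ) {z : ℂ} (hz : z ∉ U) :
    fderiv ℝ ψ z = 0 := by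
  have h1 : z ∉ tsupport (fderiv ℝ ψ) := fun h2 => hz (h.2.2 (tsupport_fderiv_subset ℝ h2))
  exact image_eq_zero_of_notMem_tsupport h1

theorem Test.zero {U : Set ℂ} {ψ : ℂ → ℝ} (h : Test U ψ) {z : ℂ} (hz : z ∉ U) : ψ z = 0 :=
  image_eq_zero_of_notMem_tsupport fun h2 => hz (h.2.2 h2)

theorem setInt_deriv {U : Set ℂ} {ψ : ℂ → ℝ} (h : Test U ψ) (w : ℂ → ℝ) (e : ℂ) :
    ∫ z in U, w z * fderiv ℝ ψ z e = ∫ z, w z * fderiv ℝ ψ z e := by
  apply setIntegral_eq_integral_of_forall_compl_eq_zero
  intro z hz
  rw [h.fderiv_zero hz]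
  simp

theorem setInt_test {U : Set ℂ} {ψ : ℂ → ℝ} (h : Test U ψ) (d : ℂ → ℝ) :
    ∫ z in U, d z * ψ z = ∫ z, d z * ψ z := by
  apply setIntegral_eq_integral_of_forall_compl_eq_zero
  intro z hz
  rw [h.zero hz, mul_zero]

theorem isWeakDeriv_iff {U : Set ℂ} {e : ℂ} {w d : ℂ → ℝ} :
    IsWeakDeriv U e w d ↔
      ∀ ψ : ℂ → ℝ, Test U ψ → ∫ z, w z * fderiv ℝ ψ z e = - ∫ z, d z * ψ z := by
  unfold IsWeakDeriv
  refine forall_congr' fun ψ => forall_congr' fun h => ?_
  rw [setInt_deriv h, setInt_test h]

/-- translated test functions -/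
theorem Test.translate {V U : Set ℂ} {ψ : ℂ → ℝ} (h : Test V ψ) (c : ℂ)
    (hc : ∀ z ∈ V, z + c ∈ U) : Test U (fun z => ψ (z - c)) := by
  obtain ⟨h1, h2, h3⟩ := h
  have hs : tsupport (fun z => ψ (z - c)) ⊆ (fun z => z + c) '' tsupport ψ := by
    have hcl : IsClosed ((fun z => z + c) '' tsupport ψ) :=
      (h2.image (by fun_prop)).isClosed
    apply closure_minimal _ hcl
    intro z hz
    exact ⟨z - c, subset_tsupport _ hz, by simp⟩
  refine ⟨h1.comp (contDiff_id.sub contDiff_const), ?_, ?_⟩
  · exact IsCompact.of_isClosed_subset (h2.image (by fun_prop)) (isClosed_tsupport _) hs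
  · intro z hz
    obtain ⟨y, hy, rfl⟩ := hs hz
    exact hc y (h3 hy)

theorem dq_bound {U V K : Set ℂ} (hV : IsOpen V) (hK : IsCompact K) (hKU : K ⊆ U)
    {e : ℂ} {w d : ℂ → ℝ} (hw : LocallyIntegrableOn w U) (hd : LocallyIntegrableOn d U)
    (hWD : IsWeakDeriv U e w d) {t : ℝ} (ht : 0 ≤ t)
    (hVK : ∀ z ∈ V, ∀ s ∈ Icc 0 t, z + s • e ∈ K)
    {Φ : ℂ → ℝ≥0∞} (hΦ : Measurable Φ) (hdΦ : ∀ᵐ z, z ∈ U → ‖d z‖ₑ ≤ Φ z) :
    ∀ᵐ z, z ∈ V → ‖w (z + t • e) - w z‖ₑ ≤ ∫⁻ s in Ioc 0 t, Φ (z + s • e) := by
  have hKm : MeasurableSet K := hK.measurableSet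
  have w1 : Integrable (K.indicator w) := (hw.integrableOn_compact_subset hKU hK).integrable_indicator hKm
  have d1 : Integrable (K.indicator d) := (hd.integrableOn_compact_subset hKU hK).integrable_indicator hKm
  set wm := w1.1.mk _ with hwm
  set dm := d1.1.mk _ with hdm
  have ew : K.indicator w =ᵐ[volume] wm := w1.1.ae_eq_mk
  have ed : K.indicator d =ᵐ[volume] dm := d1.1.ae_eq_mk
  have hform := dq_formula_global (V := V) hV (e := e) (w := wm) (d := dm)
    w1.1.stronglyMeasurable_mk.measurable d1.1.stronglyMeasurable_mk.measurable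
    (w1.congr ew) (d1.congr ed) ht (by
      intro ψ hψ s hs
      have hψs : Test U (fun z => ψ (z - s • e)) :=
        hψ.translate (s • e) (fun z hz => hKU (hVK z hz s hs))
      have hnz : ∀ z, z ∉ K → z - s • e ∉ V := by
        intro z hz hzV
        apply hz
        have := hVK _ hzV s hs
        simpa using this
      have h1 := isWeakDeriv_iff.1 hWD _ hψs
      have e1 : ∫ z, w z * fderiv ℝ (fun z => ψ (z - s • e)) z e =
          ∫ z, wm z * fderiv ℝ ψ (z - s • e) e := by
        refine integral_congr_ae ?_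
        filter_upwards [ew] with z hz
        rw [fderiv_comp_sub, ← hz]
        by_cases hzK : z ∈ K
        · rw [indicator_of_mem hzK]
        · rw [hψ.fderiv_zero (hnz z hzK)]; simp
      have e2 : ∫ z, d z * ψ (z - s • e) = ∫ z, dm z * ψ (z - s • e) := by
        refine integral_congr_ae ?_
        filter_upwards [ed] with z hz
        rw [← hz]
        by_cases hzK : z ∈ K
        · rw [indicator_of_mem hzK]
        · rw [hψ.zero (hnz z hzK)]; simp
      rw [← e1, ← e2]
      exact h1)
  -- the two null sets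
  have hw' : ∀ᵐ z, K.indicator w (z + t • e) = wm (z + t • e) :=
    (measurePreserving_add_right volume (t • e)).quasiMeasurePreserving.ae ew
  have hdm' : Measurable dm := d1.1.stronglyMeasurable_mk.measurable
  have hb : ∀ᵐ z, z ∈ K → ‖dm z‖ₑ ≤ Φ z := by
    filter_upwards [ed, hdΦ] with z h1 h2 hz
    rw [← h1, indicator_of_mem hz]
    exact h2 (hKU hz)
  have hb2 : ∀ᵐ z, ∀ᵐ s ∂(volume.restrict (Ioc 0 t)), z + s • e ∈ K → ‖dm (z + s • e)‖ₑ ≤
      Φ (z + s • e) := by
    have hms : MeasurableSet {p : ℂ × ℝ | p.1 + p.2 • e ∈ K →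
        ‖dm (p.1 + p.2 • e)‖ₑ ≤ Φ (p.1 + p.2 • e)} := by
      have hme : Measurable fun p : ℂ × ℝ => p.1 + p.2 • e := by fun_prop
      have : {p : ℂ × ℝ | p.1 + p.2 • e ∈ K → ‖dm (p.1 + p.2 • e)‖ₑ ≤ Φ (p.1 + p.2 • e)} =
          (fun p : ℂ × ℝ => p.1 + p.2 • e) ⁻¹' (Kᶜ ∪ {z | ‖dm z‖ₑ ≤ Φ z}) := by
        ext p
        simp only [mem_setOf_eq, mem_preimage, mem_union, mem_compl_iff]
        tauto
      rw [this]
      exact hme (hKm.compl.union (measurableSet_le hdm'.enorm hΦ))
    rw [Measure.ae_ae_comm hms]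
    refine Eventually.of_forall fun s => ?_
    exact (measurePreserving_add_right volume (s • e)).quasiMeasurePreserving.ae hb
  filter_upwards [hform, ew, hw', hb2] with z h1 h2 h3 h4 hz
  have k0 : z ∈ K := by simpa using hVK z hz 0 ⟨le_rfl, ht⟩
  have k1 : z + t • e ∈ K := hVK z hz t ⟨ht, le_rfl⟩
  rw [indicator_of_mem k0] at h2
  rw [indicator_of_mem k1] at h3
  rw [h2, h3, h1 hz, intervalIntegral.integral_of_le ht]
  refine (enorm_integral_le_lintegral_enorm _).trans ?_
  refine lintegral_mono_ae ?_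
  filter_upwards [h4, ae_restrict_mem measurableSet_Ioc] with s h5 hs
  exact h5 (hVK z hz s ⟨hs.1.le, hs.2⟩)

end Pool.Agent.TH300
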