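import Pool.Agent.TH300.An1

/-! Existence of weak derivatives from an `L²` bound. -/

set_option autoImplicit false

open MeasureTheory Metric Set Filter Topology
open scoped ContDiff ENNReal RealInnerProductSpace

namespace Pool.Agent.TH300

theorem Test.add {U : Set ℂ} {ψ χ : ℂ → ℝ} (h : Test U ψ) (h' : Test U χ) :
    Test U (ψ + χ) := by
  refine ⟨h.1.add h'.1, h.2.1.add h'.2.1, ?_⟩
  exact (tsupport_add ψ χ).trans (union_subset h.2.2 h'.2.2)

theorem Test.smul {U : Set ℂ} {ψ : ℂ → ℝ} (h : Test U ψ) (c : ℝ) : Test U (c • ψ) := by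
  refine ⟨contDiff_const.smul h.1, h.2.1.smul_left (f := fun _ => c), ?_⟩
  refine (closure_mono ?_).trans h.2.2
  intro z hz
  rw [Function.mem_support] at hz ⊢
  intro h0
  apply hz
  simp [h0]

theorem Test.null {U : Set ℂ} : Test U (0 : ℂ → ℝ) := by
  refine ⟨contDiff_const, HasCompactSupport.zero, ?_⟩
  simp

theorem Test.memLp {U : Set ℂ} {ψ : ℂ → ℝ} (h : Test U ψ) : MemLp ψ 2 volume :=
  h.1.continuous.memLp_of_hasCompactSupport h.2.1

theorem Test.dcont {U : Set ℂ} {ψ : ℂ → ℝ} (h : Test U ψ) (e : ℂ) :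
    Continuous fun z => fderiv ℝ ψ z e :=
  (h.1.continuous_fderiv (by simp)).clm_apply continuous_const

theorem Test.int_mul {U : Set ℂ} {ψ : ℂ → ℝ} (h : Test U ψ) {w : ℂ → ℝ}
    (hw : LocallyIntegrableOn w U) (g : ℂ → ℝ) (hg : Continuous g)
    (hs : ∀ z, z ∉ tsupport ψ → g z = 0) : Integrable fun z => w z * g z := by
  have h1 : IntegrableOn w (tsupport ψ) := hw.integrableOn_compact_subset h.2.2 h.2.1
  have h2 : IntegrableOn (fun z => w z * g z) (tsupport ψ) :=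
    h1.mul_continuousOn hg.continuousOn h.2.1
  refine (integrableOn_iff_integrable_of_support_subset ?_).1 h2
  intro z hz
  by_contra hz'
  exact hz (by simp [hs z hz'])

theorem Test.int_test {U : Set ℂ} {ψ : ℂ → ℝ} (h : Test U ψ) {w : ℂ → ℝ}
    (hw : LocallyIntegrableOn w U) : Integrable fun z => w z * ψ z :=
  h.int_mul hw ψ h.1.continuous fun _ hz => image_eq_zero_of_notMem_tsupport hz

theorem Test.int_deriv {U : Set ℂ} {ψ : ℂ → ℝ} (h : Test U ψ) {w : ℂ → ℝ}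
    (hw : LocallyIntegrableOn w U) (e : ℂ) : Integrable fun z => w z * fderiv ℝ ψ z e :=
  h.int_mul hw _ (h.dcont e) fun z hz => by
    have : fderiv ℝ ψ z = 0 :=
      image_eq_zero_of_notMem_tsupport fun h2 => hz (tsupport_fderiv_subset ℝ h2)
    rw [this]; rfl

/-- the space of test functions -/
def TM (U : Set ℂ) : Submodule ℝ (ℂ → ℝ) where
  carrier := {ψ | Test U ψ}
  add_mem' h h' := Test.add h h'
  zero_mem' := Test.null
  smul_mem' c _ h := Test.smul h c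

noncomputable def iota (U : Set ℂ) : TM U →ₗ[ℝ] Lp ℝ 2 (volume : Measure ℂ) where
  toFun ψ := (Test.memLp ψ.2).toLp ψ.1
  map_add' _ _ := rfl
  map_smul' _ _ := rfl

theorem iota_inj (U : Set ℂ) : Function.Injective (iota U) := by
  intro ψ χ h
  have h1 : ψ.1 =ᵐ[volume] χ.1 :=
    (MemLp.toLp_eq_toLp_iff (Test.memLp ψ.2) (Test.memLp χ.2)).1 h
  have h2 : ψ.1 = χ.1 :=
    (Continuous.ae_eq_iff_eq volume (Test.continuous' ψ.2) (Test.continuous' χ.2)).1 h1
  exact Subtype.ext h2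
where
  Test.continuous' {U : Set ℂ} {ψ : ℂ → ℝ} (h : Test U ψ) : Continuous ψ := h.1.continuous

theorem exists_weak {U : Set ℂ} {e : ℂ} {w : ℂ → ℝ} (hw : LocallyIntegrableOn w U)
    {C : ℝ} (h : ∀ ψ, Test U ψ → |∫ z, w z * fderiv ℝ ψ z e| ≤ C * Real.sqrt (∫ z, ψ z ^ 2)) :
    ∃ d, MemLp d 2 volume ∧ IsWeakDeriv U e w d := by
  let ℓ : TM U →ₗ[ℝ] ℝ :=
    { toFun := fun ψ => ∫ z, w z * fderiv ℝ ψ.1 z e
      map_add' := by
        intro ψ χ
        rw [← integral_add (Test.int_deriv ψ.2 hw e) (Test.int_deriv χ.2 hw e)]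
        refine integral_congr_ae (Eventually.of_forall fun z => ?_)
        have e1 : fderiv ℝ ((ψ + χ : TM U) : ℂ → ℝ) z = fderiv ℝ ψ.1 z + fderiv ℝ χ.1 z :=
          fderiv_add (ψ.2.1.differentiable (by simp) z) (χ.2.1.differentiable (by simp) z)
        simp only [e1]
        rw [add_apply]
        ring
      map_smul' := by
        intro c ψ
        rw [RingHom.id_apply, smul_eq_mul, ← integral_const_mul]
        refine integral_congr_ae (Eventually.of_forall fun z => ?_)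
        have e1 : fderiv ℝ ((c • ψ : TM U) : ℂ → ℝ) z = c • fderiv ℝ ψ.1 z :=
          fderiv_const_smul (ψ.2.1.differentiable (by simp) z) c
        simp only [e1]
        rw [smul_apply, smul_eq_mul]
        ring }
  let E := LinearEquiv.ofInjective (iota U) (iota_inj U)
  let f₀ : LinearMap.range (iota U) →ₗ[ℝ] ℝ := ℓ ∘ₗ E.symm.toLinearMap
  have hnorm : ∀ ψ : TM U, ‖iota U ψ‖ = Real.sqrt (∫ z, ψ.1 z ^ 2) := by
    intro ψ
    have h1 : ‖iota U ψ‖ ^ 2 = ∫ z, ψ.1 z ^ 2 := by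
      rw [← real_inner_self_eq_norm_sq, L2.inner_def]
      refine integral_congr_ae ?_
      have h2 : (iota U ψ : ℂ → ℝ) =ᵐ[volume] ψ.1 := MemLp.coeFn_toLp (Test.memLp ψ.2)
      filter_upwards [h2] with z hz
      rw [hz, real_inner_self_eq_norm_sq, Real.norm_eq_abs, sq_abs]
    rw [← h1, Real.sqrt_sq (norm_nonneg _)]
  have hb : ∀ x : LinearMap.range (iota U), ‖f₀ x‖ ≤ C * ‖x‖ := by
    intro x
    obtain ⟨ψ, rfl⟩ : ∃ ψ, E ψ = x := ⟨E.symm x, by simp⟩
    have h1 : f₀ (E ψ) = ℓ ψ := by simp [f₀]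
    have h2 : ‖(E ψ : LinearMap.range (iota U))‖ = ‖iota U ψ‖ := rfl
    rw [h1, h2, hnorm ψ, Real.norm_eq_abs]
    exact h ψ.1 ψ.2
  let f := f₀.mkContinuous C hb
  obtain ⟨g, hg, -⟩ := exists_extension_norm_eq (LinearMap.range (iota U)) f
  set D : Lp ℝ 2 (volume : Measure ℂ) := (InnerProductSpace.toDual ℝ _).symm g with hD
  refine ⟨fun z => - D z, (Lp.memLp D).neg, ?_⟩
  rw [isWeakDeriv_iff]
  intro ψ hψ
  have h1 : g (iota U ⟨ψ, hψ⟩) = ∫ z, w z * fderiv ℝ ψ z e := by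
    have h2 := hg (E ⟨ψ, hψ⟩)
    have h3 : f (E ⟨ψ, hψ⟩) = ℓ ⟨ψ, hψ⟩ := by simp [f, f₀]
    rw [h3] at h2
    exact h2
  have h4 : g (iota U ⟨ψ, hψ⟩) = ∫ z, D z * ψ z := by
    rw [← InnerProductSpace.toDual_symm_apply, L2.inner_def]
    refine integral_congr_ae ?_
    have h2 : (iota U ⟨ψ, hψ⟩ : ℂ → ℝ) =ᵐ[volume] ψ := MemLp.coeFn_toLp (Test.memLp hψ)
    filter_upwards [h2] with z hz
    rw [hz]
    simp [hD, mul_comm]
  rw [← h1, h4, ← integral_neg]
  refine integral_congr_ae (Eventually.of_forall fun z => ?_)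
  simp

end Pool.Agent.TH300
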