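import Pool.Agent.TH300.Defs

/-! Metric properties of Almgren's distance. -/

set_option autoImplicit false

open MeasureTheory Metric Set Filter Topology
open scoped ContDiff ENNReal

namespace Pool.Agent.TH300

variable {Q : ℕ}

/-- Euclidean norm of a tuple -/
noncomputable def nr (S : Fin Q → ℂ) : ℝ := Real.sqrt (∑ i, ‖S i‖ ^ 2)

theorem nr_eq (S : Fin Q → ℂ) : nr S = ‖(WithLp.toLp 2 S : EuclideanSpace ℂ (Fin Q))‖ := by
  rw [EuclideanSpace.norm_eq]; rfl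

theorem nr_add (S T : Fin Q → ℂ) : nr (S + T) ≤ nr S + nr T := by
  rw [nr_eq, nr_eq, nr_eq, WithLp.toLp_add]
  exact norm_add_le _ _

theorem nr_nonneg (S : Fin Q → ℂ) : 0 ≤ nr S := Real.sqrt_nonneg _

theorem nr_neg (S : Fin Q → ℂ) : nr (-S) = nr S := by
  unfold nr; simp

theorem nr_comp (S : Fin Q → ℂ) (σ : Equiv.Perm (Fin Q)) : nr (S ∘ σ) = nr S := by
  unfold nr
  congr 1
  exact Equiv.sum_comp σ (fun i => ‖S i‖ ^ 2)

theorem G_eq (S T : Fin Q → ℂ) : G S T = ⨅ σ : Equiv.Perm (Fin Q), nr (S - T ∘ σ) := rfl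

theorem G_le (S T : Fin Q → ℂ) (σ : Equiv.Perm (Fin Q)) : G S T ≤ nr (S - T ∘ σ) := by
  rw [G_eq]
  exact ciInf_le (Set.finite_range _).bddBelow σ

theorem G_exists (S T : Fin Q → ℂ) : ∃ σ : Equiv.Perm (Fin Q), G S T = nr (S - T ∘ σ) := by
  obtain ⟨σ, hσ⟩ := exists_eq_ciInf_of_finite (f := fun σ : Equiv.Perm (Fin Q) => nr (S - T ∘ σ))
  exact ⟨σ, by rw [G_eq, ← hσ]⟩

theorem G_nonneg (S T : Fin Q → ℂ) : 0 ≤ G S T := by
  obtain ⟨σ, h⟩ := G_exists S T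
  rw [h]; exact nr_nonneg _

theorem G_le_nr (S T : Fin Q → ℂ) : G S T ≤ nr (S - T) := G_le S T 1

theorem G_self (S : Fin Q → ℂ) : G S S = 0 := by
  apply le_antisymm _ (G_nonneg _ _)
  have := G_le_nr S S
  simpa [nr] using this

theorem G_comm_le (S T : Fin Q → ℂ) : G T S ≤ G S T := by
  obtain ⟨σ, h⟩ := G_exists S T
  rw [h]
  refine (G_le T S σ⁻¹).trans (le_of_eq ?_)
  rw [← nr_neg, ← nr_comp _ σ]
  congr 1
  ext i
  simp

theorem G_comm (S T : Fin Q → ℂ) : G S T = G T S :=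
  le_antisymm (G_comm_le T S) (G_comm_le S T)

theorem G_triangle (S T R : Fin Q → ℂ) : G S R ≤ G S T + G T R := by
  obtain ⟨σ, h⟩ := G_exists S T
  obtain ⟨ρ, h'⟩ := G_exists T R
  rw [h, h']
  refine (G_le S R (ρ * σ)).trans ?_
  have e : S - R ∘ (ρ * σ) = (S - T ∘ σ) + (T - R ∘ ρ) ∘ σ := by
    ext i
    simp
  rw [e]
  refine (nr_add _ _).trans ?_
  rw [nr_comp]

theorem G_abs_sub_le (S S' T : Fin Q → ℂ) : |G S T - G S' T| ≤ G S S' := by
  rw [abs_le]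
  have h1 := G_triangle S S' T
  have h2 := G_triangle S' S T
  rw [G_comm S' S] at h2
  constructor <;> linarith

theorem nr_tendsto (S : Fin Q → ℂ) : Tendsto (fun T => nr (S - T)) (𝓝 S) (𝓝 0) := by
  have hc : Continuous fun T : Fin Q → ℂ => nr (S - T) := by
    unfold nr; fun_prop
  have := hc.tendsto S
  simpa [nr] using this

/-- approximation by a dense sequence -/
theorem exists_dense_near (S : Fin Q → ℂ) {ε : ℝ} (hε : 0 < ε) :
    ∃ n, G S (TopologicalSpace.denseSeq (Fin Q → ℂ) n) < ε := by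
  have h1 : ∀ᶠ T in 𝓝 S, nr (S - T) < ε := (nr_tendsto S).eventually (gt_mem_nhds hε)
  obtain ⟨n, hn⟩ := (TopologicalSpace.denseRange_denseSeq (Fin Q → ℂ)).exists_mem_open
    isOpen_interior (⟨S, mem_interior_iff_mem_nhds.2 h1⟩ : (interior {T | nr (S - T) < ε}).Nonempty)
  refine ⟨n, (G_le_nr _ _).trans_lt ?_⟩
  have := interior_subset hn
  exact this

end Pool.Agent.TH300
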