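import Pool.Agent.TH300.An2
import Pool.Agent.TH300.Met

/-! Difference quotients of multivalued Sobolev functions. -/

set_option autoImplicit false

open MeasureTheory Metric Set Filter Topology
open scoped ContDiff ENNReal RealInnerProductSpace

namespace Pool.Agent.TH300

variable {Q : ℕ}

/-- the functions `G(f, T)` are weakly differentiable in the direction `e` with bound `Φ` -/
structure SobDir (U : Set ℂ) (e : ℂ) (f : ℂ → Fin Q → ℂ) (Φ : ℂ → ℝ≥0∞) : Prop where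
  meas : Measurable Φ
  wd : ∀ T, LocallyIntegrableOn (fun z => G (f z) T) U ∧ ∃ d, LocallyIntegrableOn d U ∧
    IsWeakDeriv U e (fun z => G (f z) T) d ∧ ∀ᵐ z, z ∈ U → ‖d z‖ₑ ≤ Φ z

/-- the bound on differences -/
def HB (U : Set ℂ) (e : ℂ) (f : ℂ → Fin Q → ℂ) (Φ : ℂ → ℝ≥0∞) : Prop :=
  ∀ (V K : Set ℂ), IsOpen V → IsCompact K → K ⊆ U → ∀ t : ℝ, 0 ≤ t →
    (∀ z ∈ V, ∀ s ∈ Icc 0 t, z + s • e ∈ K) →
    ∀ᵐ z, z ∈ V → ENNReal.ofReal (G (f (z + t • e)) (f z)) ≤ ∫⁻ s in Ioc 0 t, Φ (z + s • e)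

theorem SobDir.hb {U : Set ℂ} {e : ℂ} {f : ℂ → Fin Q → ℂ} {Φ : ℂ → ℝ≥0∞}
    (h : SobDir U e f Φ) : HB U e f Φ := by
  intro V K hV hK hKU t ht hVK
  have h1 : ∀ᵐ z, ∀ n : ℕ, z ∈ V →
      ‖G (f (z + t • e)) (TopologicalSpace.denseSeq (Fin Q → ℂ) n) -
        G (f z) (TopologicalSpace.denseSeq (Fin Q → ℂ) n)‖ₑ ≤ ∫⁻ s in Ioc 0 t, Φ (z + s • e) := by
    rw [ae_all_iff]
    intro n
    obtain ⟨hw, d, hd, hWD, hb⟩ := h.wd (TopologicalSpace.denseSeq (Fin Q → ℂ) n)
    exact dq_bound hV hK hKU hw hd hWD ht hVK h.meas hb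
  filter_upwards [h1] with z hz hzV
  set R := ∫⁻ s in Ioc 0 t, Φ (z + s • e) with hR
  by_cases hRt : R = ⊤
  · rw [hRt]; exact le_top
  have key : G (f (z + t • e)) (f z) ≤ R.toReal := by
    apply le_of_forall_pos_le_add
    intro ε hε
    obtain ⟨n, hn⟩ := exists_dense_near (f z) (half_pos hε)
    have h2 := hz n hzV
    rw [← ofReal_norm_eq_enorm, ENNReal.ofReal_le_iff_le_toReal hRt, Real.norm_eq_abs] at h2
    have h3 := (abs_le.1 h2).2
    have h4 := G_triangle (f (z + t • e)) (TopologicalSpace.denseSeq (Fin Q → ℂ) n) (f z)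
    rw [G_comm (TopologicalSpace.denseSeq (Fin Q → ℂ) n) (f z)] at h4
    linarith
  rw [ENNReal.ofReal_le_iff_le_toReal hRt]
  exact key

theorem lip_inf {L : (Fin Q → ℂ) → ℝ} {c : ℝ} (hc : 0 ≤ c)
    (hL : ∀ S T, |L S - L T| ≤ c * G S T) (S : Fin Q → ℂ) :
    L S = ⨅ n : ℕ, (L (TopologicalSpace.denseSeq (Fin Q → ℂ) n) +
      c * G S (TopologicalSpace.denseSeq (Fin Q → ℂ) n)) := by
  have hlow : ∀ n : ℕ, L S ≤ L (TopologicalSpace.denseSeq (Fin Q → ℂ) n) +
      c * G S (TopologicalSpace.denseSeq (Fin Q → ℂ) n) := by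
    intro n
    have := (abs_le.1 (hL S (TopologicalSpace.denseSeq (Fin Q → ℂ) n))).2
    linarith
  apply le_antisymm
  · exact le_ciInf hlow
  · apply le_of_forall_pos_le_add
    intro ε hε
    obtain ⟨n, hn⟩ := exists_dense_near S (show 0 < ε / (2 * (c + 1)) by positivity)
    have hbdd : BddBelow (range fun n : ℕ => (L (TopologicalSpace.denseSeq (Fin Q → ℂ) n) +
      c * G S (TopologicalSpace.denseSeq (Fin Q → ℂ) n))) := ⟨L S, by rintro _ ⟨n, rfl⟩; exact hlow n⟩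
    refine (ciInf_le hbdd n).trans ?_
    have h1 := (abs_le.1 (hL S (TopologicalSpace.denseSeq (Fin Q → ℂ) n))).1
    have h2 : c * G S (TopologicalSpace.denseSeq (Fin Q → ℂ) n) ≤ ε / 2 := by
      calc c * G S (TopologicalSpace.denseSeq (Fin Q → ℂ) n) ≤ (c + 1) * (ε / (2 * (c + 1))) := by
            apply mul_le_mul (by linarith) hn.le (G_nonneg _ _) (by linarith)
        _ = ε / 2 := by field_simp
    linarith

theorem lip_aemeas {μ : Measure ℂ} {f : ℂ → Fin Q → ℂ} {L : (Fin Q → ℂ) → ℝ} {c : ℝ} (hc : 0 ≤ c)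
    (hL : ∀ S T, |L S - L T| ≤ c * G S T)
    (hf : ∀ T, AEMeasurable (fun z => G (f z) T) μ) : AEMeasurable (fun z => L (f z)) μ := by
  have : (fun z => L (f z)) = fun z => ⨅ n : ℕ, (L (TopologicalSpace.denseSeq (Fin Q → ℂ) n) +
      c * G (f z) (TopologicalSpace.denseSeq (Fin Q → ℂ) n)) := by
    ext z; exact lip_inf hc hL (f z)
  rw [this]
  exact AEMeasurable.iInf fun n => ((hf _).const_mul c).const_add _

/-- `L ∘ f` is locally integrable -/
theorem lip_locInt {U : Set ℂ} {f : ℂ → Fin Q → ℂ} {L : (Fin Q → ℂ) → ℝ} {c : ℝ} (hc : 0 ≤ c)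
    (hL : ∀ S T, |L S - L T| ≤ c * G S T) (hU : IsOpen U)
    (hf : ∀ T, LocallyIntegrableOn (fun z => G (f z) T) U) :
    LocallyIntegrableOn (fun z => L (f z)) U := by
  rw [locallyIntegrableOn_iff hU.isLocallyClosed]
  intro K hK hKc
  have h0 : IntegrableOn (fun z => G (f z) 0) K := (hf 0).integrableOn_compact_subset hK hKc
  have hm : AEMeasurable (fun z => L (f z)) (volume.restrict K) :=
    lip_aemeas hc hL fun T => ((hf T).integrableOn_compact_subset hK hKc).aemeasurable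
  have h1 : Integrable (fun z => |L 0| + c * G (f z) 0) (volume.restrict K) := by
    refine Integrable.add ?_ (h0.const_mul c)
    exact (continuous_const.continuousOn.integrableOn_compact hKc)
  refine Integrable.mono' h1 hm.aestronglyMeasurable (Eventually.of_forall fun z => ?_)
  rw [Real.norm_eq_abs]
  have := hL (f z) 0
  calc |L (f z)| = |L 0 + (L (f z) - L 0)| := by congr 1; ring
    _ ≤ |L 0| + |L (f z) - L 0| := abs_add_le _ _
    _ ≤ _ := by linarith

end Pool.Agent.TH300
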