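import Pool.Agent.TH300.An3

/-! Lipschitz functions of multivalued Sobolev functions are Sobolev functions. -/

set_option autoImplicit false

open MeasureTheory Metric Set Filter Topology
open scoped ContDiff ENNReal RealInnerProductSpace

namespace Pool.Agent.TH300

variable {Q : ℕ}

/-- compact neighbourhoods -/
theorem exists_room {U K₀ : Set ℂ} (hU : IsOpen U) (hK : IsCompact K₀) (hKU : K₀ ⊆ U) (e : ℂ) :
    ∃ (t₀ : ℝ) (V K : Set ℂ), 0 < t₀ ∧ IsOpen V ∧ IsCompact K ∧ K ⊆ U ∧ K₀ ⊆ V ∧ V ⊆ K ∧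
      ∀ t, 0 ≤ t → t ≤ t₀ → ∀ z ∈ V, ∀ s ∈ Icc 0 t, z + s • e ∈ K := by
  obtain ⟨δ, hδ, hδU⟩ := hK.exists_cthickening_subset_open hU hKU
  refine ⟨δ / 2 / (‖e‖ + 1), thickening (δ / 2) K₀, cthickening δ K₀, by positivity,
    isOpen_thickening, hK.cthickening, hδU, self_subset_thickening (by positivity) _,
    (thickening_subset_cthickening _ _).trans (cthickening_mono (by linarith) _), ?_⟩
  intro t _ ht1 z hz s hs
  rw [mem_thickening_iff] at hz
  obtain ⟨y, hy, hyz⟩ := hz
  have h1 : ‖s • e‖ ≤ δ / 2 := by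
    rw [norm_smul, Real.norm_of_nonneg hs.1]
    calc s * ‖e‖ ≤ (δ / 2 / (‖e‖ + 1)) * (‖e‖ + 1) := by
          apply mul_le_mul (hs.2.trans ht1) (by linarith) (norm_nonneg _) (by positivity)
      _ = δ / 2 := by field_simp
  refine mem_cthickening_of_dist_le (z + s • e) y δ K₀ hy ?_
  have h2 : dist (z + s • e) z ≤ δ / 2 := by rw [dist_eq_norm]; simpa using h1
  calc dist (z + s • e) y ≤ dist (z + s • e) z + dist z y := dist_triangle _ _ _
    _ ≤ δ := by linarith

/-- the duality estimate -/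
theorem dual_est {V K : Set ℂ} (hK : IsCompact K) {e : ℂ} {t : ℝ}
    (hVK : ∀ z ∈ V, ∀ s ∈ Icc 0 t, z + s • e ∈ K) {Φ : ℂ → ℝ≥0∞} (hΦ : Measurable Φ)
    {ψ : ℂ → ℝ} (hψ : Continuous ψ) (hψV : ∀ z, z ∉ V → ψ z = 0) :
    ∫⁻ z, ‖ψ z‖ₑ * (∫⁻ s in Ioc 0 t, Φ (z + s • e)) ≤
      ENNReal.ofReal t * ((∫⁻ z, ‖ψ z‖ₑ ^ (2:ℝ)) ^ (1 / 2 : ℝ) *
        (∫⁻ z in K, Φ z ^ (2:ℝ)) ^ (1 / 2 : ℝ)) := by
  have hme : Measurable fun p : ℂ × ℝ => p.1 + p.2 • e := by fun_prop
  have hm : Measurable fun p : ℂ × ℝ => ‖ψ p.1‖ₑ * Φ (p.1 + p.2 • e) :=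
    (hψ.measurable.comp measurable_fst).enorm.mul (hΦ.comp hme)
  calc ∫⁻ z, ‖ψ z‖ₑ * (∫⁻ s in Ioc 0 t, Φ (z + s • e))
      = ∫⁻ z, ∫⁻ s in Ioc 0 t, ‖ψ z‖ₑ * Φ (z + s • e) := by
        refine lintegral_congr fun z => ?_
        rw [lintegral_const_mul]
        exact hΦ.comp (by fun_prop)
    _ = ∫⁻ s in Ioc 0 t, (∫⁻ z, ‖ψ z‖ₑ * Φ (z + s • e)) := lintegral_lintegral_swap hm.aemeasurable
    _ ≤ ∫⁻ _ in Ioc 0 t, ((∫⁻ z, ‖ψ z‖ₑ ^ (2:ℝ)) ^ (1 / 2 : ℝ) *
        (∫⁻ z in K, Φ z ^ (2:ℝ)) ^ (1 / 2 : ℝ)) := by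
        refine setLIntegral_mono' measurableSet_Ioc fun s hs => ?_
        have h1 : ∫⁻ z, ‖ψ z‖ₑ * Φ (z + s • e) ≤ ∫⁻ z, ‖ψ z‖ₑ * (K.indicator Φ) (z + s • e) := by
          refine lintegral_mono fun z => ?_
          by_cases hz : z ∈ V
          · rw [indicator_of_mem (hVK z hz s ⟨hs.1.le, hs.2⟩)]
          · simp [hψV z hz]
        refine h1.trans ?_
        have h2 := ENNReal.lintegral_mul_le_Lp_mul_Lq (volume : Measure ℂ)
          Real.HolderConjugate.two_two (f := fun z => ‖ψ z‖ₑ)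
          (g := fun z => (K.indicator Φ) (z + s • e)) hψ.measurable.enorm.aemeasurable
          ((hΦ.indicator hK.measurableSet).comp (by fun_prop)).aemeasurable
        refine h2.trans (mul_le_mul' le_rfl (ENNReal.rpow_le_rpow ?_ (by norm_num)))
        rw [lintegral_add_right_eq_self (fun z => (K.indicator Φ z) ^ (2:ℝ)) (s • e)]
        rw [← lintegral_indicator hK.measurableSet]
        refine lintegral_mono fun z => ?_
        by_cases hz : z ∈ K
        · rw [indicator_of_mem hz, indicator_of_mem hz]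
        · rw [indicator_of_notMem hz, indicator_of_notMem hz]; simp
    _ = _ := by
        rw [setLIntegral_const, Real.volume_Ioc, sub_zero, mul_comm]

theorem lip_weak {U : Set ℂ} (hU : IsOpen U) {e : ℂ} {f : ℂ → Fin Q → ℂ} {Φ : ℂ → ℝ≥0∞}
    (hΦ : Measurable Φ) (hΦ2 : ∫⁻ z in U, Φ z ^ (2:ℝ) < ⊤) (h : HB U e f Φ)
    {L : (Fin Q → ℂ) → ℝ} {c : ℝ} (hc : 0 ≤ c) (hL : ∀ S T, |L S - L T| ≤ c * G S T)
    (hw : LocallyIntegrableOn (fun z => L (f z)) U) :
    ∃ d, MemLp d 2 volume ∧ IsWeakDeriv U e (fun z => L (f z)) d := by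
  set B : ℝ≥0∞ := (∫⁻ z in U, Φ z ^ (2:ℝ)) ^ (1 / 2 : ℝ) with hB
  have hBt : B ≠ ⊤ := (ENNReal.rpow_lt_top_of_nonneg (by norm_num) hΦ2.ne).ne
  apply exists_weak hw (C := c * B.toReal)
  intro ψ hψ
  set w : ℂ → ℝ := fun z => L (f z) with hwdef
  obtain ⟨t₀, V, K, ht₀, hV, hK, hKU, hKV, hVK', hroom⟩ := exists_room hU hψ.2.1 hψ.2.2 e
  have hψc : Continuous ψ := hψ.1.continuous
  have hψV : ∀ z, z ∉ V → ψ z = 0 := fun z hz =>
    image_eq_zero_of_notMem_tsupport fun h2 => hz (hKV h2)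
  have hwK : IntegrableOn w K := hw.integrableOn_compact_subset hKU hK
  -- the Lp norm of ψ
  have hψ2 : (∫⁻ z, ‖ψ z‖ₑ ^ (2:ℝ)) ^ (1 / 2 : ℝ) = ENNReal.ofReal (Real.sqrt (∫ z, ψ z ^ 2)) := by
    have h1 : ∫⁻ z, ‖ψ z‖ₑ ^ (2:ℝ) = ENNReal.ofReal (∫ z, ψ z ^ 2) := by
      rw [ofReal_integral_eq_lintegral_ofReal]
      · refine lintegral_congr fun z => ?_
        rw [Real.enorm_eq_ofReal_abs, ENNReal.ofReal_rpow_of_nonneg (abs_nonneg _) (by norm_num)]
        congr 1
        rw [← sq_abs, Real.rpow_two]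
      · exact (hψ.memLp).integrable_sq
      · exact Eventually.of_forall fun z => sq_nonneg _
    rw [h1, ENNReal.ofReal_rpow_of_nonneg (integral_nonneg fun z => sq_nonneg _) (by norm_num),
      Real.sqrt_eq_rpow]
  -- estimate at step t
  have hstep : ∀ t, 0 < t → t ≤ t₀ →
      |∫ z, w z * ((ψ z - ψ (z - t • e)) / t)| ≤ c * B.toReal * Real.sqrt (∫ z, ψ z ^ 2) := by
    intro t ht htt
    have hVK := hroom t ht.le htt
    have hG := h V K hV hK hKU t ht.le hVK
    have hwt : IntegrableOn (fun z => w (z + t • e)) V := by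
      have h1 : Integrable (fun z => (K.indicator w) (z + t • e)) :=
        (hwK.integrable_indicator hK.measurableSet).comp_add_right (t • e)
      refine h1.integrableOn.congr_fun (fun z hz => ?_) hV.measurableSet
      exact indicator_of_mem (hVK z hz t ⟨ht.le, le_rfl⟩) _
    have hwV : IntegrableOn w V := hwK.mono_set hVK'
    obtain ⟨Bψ, hBψ⟩ := hψ.2.1.exists_bound_of_continuous hψc
    have i1 : Integrable fun z => w (z + t • e) * ψ z := by
      rw [← integrableOn_iff_integrable_of_support_subset (s := V)]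
      · exact hwt.mul_bdd (c := Bψ) hψc.aestronglyMeasurable (Eventually.of_forall hBψ)
      · intro z hz
        by_contra hz'
        exact hz (by simp [hψV z hz'])
    have i2 : Integrable fun z => w z * ψ z := hψ.int_test hw
    have e1 : ∫ z, w z * ψ (z - t • e) = ∫ z, w (z + t • e) * ψ z := by
      rw [← integral_add_right_eq_self (fun z => w z * ψ (z - t • e)) (t • e)]
      simp
    have i3 : Integrable fun z => w z * ψ (z - t • e) := by
      have := i1.comp_sub_right (t • e)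
      simpa using this
    have e2 : ∫ z, w z * ((ψ z - ψ (z - t • e)) / t) =
        - ((∫ z, (w (z + t • e) - w z) * ψ z) / t) := by
      have e3 : ∫ z, (w (z + t • e) - w z) * ψ z = (∫ z, w (z + t • e) * ψ z) - ∫ z, w z * ψ z := by
        rw [← integral_sub i1 i2]
        refine integral_congr_ae (Eventually.of_forall fun z => ?_)
        simp only; ring
      rw [e3, ← e1]
      have e4 : ∫ z, w z * ((ψ z - ψ (z - t • e)) / t) =
          ((∫ z, w z * ψ z) - ∫ z, w z * ψ (z - t • e)) / t := by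
        rw [← integral_sub i2 i3, ← integral_div]
        refine integral_congr_ae (Eventually.of_forall fun z => ?_)
        simp only; ring
      rw [e4]; ring
    rw [e2, abs_neg, abs_div, abs_of_pos ht, div_le_iff₀ ht]
    have e5 : ENNReal.ofReal |∫ z, (w (z + t • e) - w z) * ψ z| ≤
        ENNReal.ofReal (c * B.toReal * Real.sqrt (∫ z, ψ z ^ 2) * t) := by
      have f1 : ENNReal.ofReal |∫ z, (w (z + t • e) - w z) * ψ z| ≤
          ∫⁻ z, ‖(w (z + t • e) - w z) * ψ z‖ₑ := by
        rw [← Real.norm_eq_abs, ofReal_norm]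
        exact enorm_integral_le_lintegral_enorm _
      refine f1.trans ?_
      have f2 : ∫⁻ z, ‖(w (z + t • e) - w z) * ψ z‖ₑ ≤
          ∫⁻ z, ENNReal.ofReal c * (‖ψ z‖ₑ * (∫⁻ s in Ioc 0 t, Φ (z + s • e))) := by
        refine lintegral_mono_ae ?_
        filter_upwards [hG] with z hz
        by_cases hzV : z ∈ V
        · rw [enorm_mul, mul_comm ‖ψ z‖ₑ, ← mul_assoc]
          gcongr
          calc ‖w (z + t • e) - w z‖ₑ = ENNReal.ofReal |w (z + t • e) - w z| :=
                Real.enorm_eq_ofReal_abs _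
            _ ≤ ENNReal.ofReal (c * G (f (z + t • e)) (f z)) :=
                ENNReal.ofReal_le_ofReal (hL _ _)
            _ = ENNReal.ofReal c * ENNReal.ofReal (G (f (z + t • e)) (f z)) :=
                ENNReal.ofReal_mul hc
            _ ≤ _ := by gcongr; exact hz hzV
        · rw [hψV z hzV]; simp
      refine f2.trans ?_
      rw [lintegral_const_mul' _ _ ENNReal.ofReal_ne_top]
      have f3 := dual_est hK hVK hΦ hψc hψV (Φ := Φ)
      have f4 : (∫⁻ z in K, Φ z ^ (2:ℝ)) ^ (1 / 2 : ℝ) ≤ B :=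
        ENNReal.rpow_le_rpow (lintegral_mono_set hKU) (by norm_num)
      calc ENNReal.ofReal c * ∫⁻ z, ‖ψ z‖ₑ * (∫⁻ s in Ioc 0 t, Φ (z + s • e))
          ≤ ENNReal.ofReal c * (ENNReal.ofReal t * ((∫⁻ z, ‖ψ z‖ₑ ^ (2:ℝ)) ^ (1 / 2 : ℝ) * B)) := by
            gcongr
            exact f3.trans (by gcongr)
        _ = _ := by
            rw [hψ2, ← ENNReal.ofReal_toReal hBt, ← ENNReal.ofReal_mul (Real.sqrt_nonneg _),
              ← ENNReal.ofReal_mul ht.le, ← ENNReal.ofReal_mul hc,
              ENNReal.toReal_ofReal ENNReal.toReal_nonneg]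
            congr 1; ring
    exact (ENNReal.ofReal_le_ofReal_iff (by positivity)).1 e5
  -- limit
  have hlim : Tendsto (fun t : ℝ => ∫ z, w z * ((ψ z - ψ (z - t • e)) / t)) (𝓝[>] 0)
      (𝓝 (∫ z, w z * fderiv ℝ ψ z e)) := by
    obtain ⟨M, hM⟩ := (hψ.2.1.fderiv (𝕜 := ℝ)).exists_bound_of_continuous
      (hψ.1.continuous_fderiv (by simp))
    have hM0 : 0 ≤ M := (norm_nonneg _).trans (hM 0)
    have hlip : ∀ x y, |ψ x - ψ y| ≤ M * ‖x - y‖ := by
      intro x y
      have := Convex.norm_image_sub_le_of_norm_fderiv_le (𝕜 := ℝ) (f := ψ) (s := univ) (C := M)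
        (fun x _ => hψ.1.differentiable (by simp) x) (fun x _ => hM x) convex_univ
        (mem_univ y) (mem_univ x)
      simpa using this
    apply tendsto_integral_filter_of_dominated_convergence
      (bound := fun z => (K.indicator fun z => ‖w z‖) z * (M * ‖e‖))
    · filter_upwards [self_mem_nhdsWithin, Ioc_mem_nhdsGT ht₀] with t ht htt
      have hVK := hroom t (le_of_lt ht) htt.2
      have hs : ∀ z, z ∉ K → (ψ z - ψ (z - t • e)) / t = 0 := by
        intro z hz
        have h1 : z ∉ V := fun h => hz (hVK' h)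
        have h2 : z - t • e ∉ V := by
          intro h
          apply hz
          have := hVK _ h t ⟨le_of_lt ht, le_rfl⟩
          simpa using this
        rw [hψV _ h1, hψV _ h2]; simp
      have : (fun z => w z * ((ψ z - ψ (z - t • e)) / t)) =
          fun z => (K.indicator w z) * ((ψ z - ψ (z - t • e)) / t) := by
        ext z
        by_cases hz : z ∈ K
        · rw [indicator_of_mem hz]
        · rw [hs z hz]; simp
      rw [this]
      refine (hwK.integrable_indicator hK.measurableSet).aestronglyMeasurable.mul ?_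
      exact (Continuous.aestronglyMeasurable (by fun_prop))
    · filter_upwards [self_mem_nhdsWithin, Ioc_mem_nhdsGT ht₀] with t ht htt
      have hVK := hroom t (le_of_lt ht) htt.2
      refine Eventually.of_forall fun z => ?_
      have ht' : 0 < t := ht
      by_cases hz : z ∈ K
      · rw [indicator_of_mem hz, norm_mul]
        gcongr
        rw [norm_div, Real.norm_of_nonneg ht'.le, div_le_iff₀ ht', Real.norm_eq_abs]
        have := hlip z (z - t • e)
        rw [sub_sub_cancel, norm_smul, Real.norm_of_nonneg ht'.le] at this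
        linarith
      · have h1 : z ∉ V := fun h => hz (hVK' h)
        have h2 : z - t • e ∉ V := by
          intro h
          apply hz
          have := hVK _ h t ⟨ht'.le, le_rfl⟩
          simpa using this
        rw [hψV _ h1, hψV _ h2]
        simp [indicator_of_notMem hz]
    · have h1 : IntegrableOn (fun z => ‖w z‖) K := Integrable.norm hwK
      exact (h1.integrable_indicator hK.measurableSet).mul_const _
    · refine Eventually.of_forall fun z => ?_
      apply Tendsto.const_mul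
      have h1 : HasDerivAt (fun s : ℝ => ψ (z - s • e)) (- fderiv ℝ ψ z e) 0 := by
        have h2 : HasDerivAt (fun s : ℝ => z - s • e) (-e) 0 := by
          have := ((hasDerivAt_id (0:ℝ)).smul_const e).const_sub z
          simpa using this
        have h3 : HasFDerivAt ψ (fderiv ℝ ψ z) (z - (0:ℝ) • e) := by
          rw [zero_smul, sub_zero]
          exact (hψ.1.differentiable (by simp) z).hasFDerivAt
        have h4 := h3.comp_hasDerivAt (0:ℝ) h2
        rw [map_neg] at h4
        exact h4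
      have h5 := h1.tendsto_slope_zero_right
      have h6 := h5.neg
      rw [neg_neg] at h6
      refine h6.congr fun t => ?_
      simp only [zero_add, zero_smul, sub_zero, smul_eq_mul]
      ring
  refine le_of_tendsto hlim.abs ?_
  filter_upwards [self_mem_nhdsWithin, Ioc_mem_nhdsGT ht₀] with t ht htt
  exact hstep t ht htt.2

end Pool.Agent.TH300
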