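import Pool.Agent.TH300.An4
import Pool.Agent.W741.MYdq

/-! Almost everywhere convergence of difference quotients along sequences. -/

set_option autoImplicit false

open MeasureTheory Metric Set Filter Topology
open scoped ContDiff ENNReal RealInnerProductSpace

namespace Pool.Agent.TH300

/-- almost everywhere convergence from summability -/
theorem ae_tendsto_of_sum {F : ℕ → ℂ → ℝ≥0∞} (hm : ∀ k, AEMeasurable (F k))
    (h : ∀ k, ∫⁻ z, F k z ≤ (2 : ℝ≥0∞)⁻¹ ^ k) :
    ∀ᵐ z, Tendsto (fun k => F k z) atTop (𝓝 0) := by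
  have h1 : ∫⁻ z, ∑' k, F k z ≠ ⊤ := by
    rw [lintegral_tsum hm]
    refine ne_top_of_le_ne_top ?_ (ENNReal.tsum_le_tsum h)
    rw [ENNReal.tsum_geometric]
    simp
  have h2 : ∀ᵐ z, ∑' k, F k z < ⊤ := ae_lt_top' (AEMeasurable.tsum hm) h1
  filter_upwards [h2] with z hz
  exact ENNReal.tendsto_atTop_zero_of_tsum_ne_top hz.ne

theorem common_seq {J : Type} [Finite J] (E : J → ℝ → ℂ → ℝ≥0∞)
    (hm : ∀ j t, AEMeasurable (E j t))
    (h : ∀ j, Tendsto (fun t => ∫⁻ z, E j t z) (𝓝[>] 0) (𝓝 0)) {t₀ : ℝ} (ht₀ : 0 < t₀) :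
    ∃ t : ℕ → ℝ, (∀ k, 0 < t k) ∧ (∀ k, t k ≤ t₀) ∧ Tendsto t atTop (𝓝 0) ∧
      ∀ᵐ z, ∀ j, Tendsto (fun k => E j (t k) z) atTop (𝓝 0) := by
  have h1 : ∀ k : ℕ, ∃ t : ℝ, 0 < t ∧ t ≤ t₀ ∧ t ≤ 1 / (k + 1) ∧
      ∀ j, ∫⁻ z, E j t z ≤ (2 : ℝ≥0∞)⁻¹ ^ k := by
    intro k
    have h2 : ∀ᶠ t : ℝ in 𝓝[>] 0, ∀ j, ∫⁻ z, E j t z ≤ (2 : ℝ≥0∞)⁻¹ ^ k := by
      rw [eventually_all]
      intro j
      have h3 : (0 : ℝ≥0∞) < (2 : ℝ≥0∞)⁻¹ ^ k := by
        apply ENNReal.pow_pos
        simp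
      exact ((h j).eventually (gt_mem_nhds h3)).mono fun t ht => ht.le
    have h4 : ∀ᶠ t : ℝ in 𝓝[>] 0, t ≤ 1 / ((k:ℝ) + 1) :=
      mem_of_superset (Ioc_mem_nhdsGT (show (0:ℝ) < 1 / ((k:ℝ) + 1) by positivity))
        fun t ht => ht.2
    have h5 : ∀ᶠ t : ℝ in 𝓝[>] 0, t ≤ t₀ := mem_of_superset (Ioc_mem_nhdsGT ht₀) fun t ht => ht.2
    obtain ⟨t, ha, hb, hc, hd⟩ := (h2.and (h4.and (h5.and self_mem_nhdsWithin))).exists
    exact ⟨t, hd, hc, hb, ha⟩
  choose t ht1 ht2 ht3 ht4 using h1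
  refine ⟨t, ht1, ht2, ?_, ?_⟩
  · exact squeeze_zero (fun k => (ht1 k).le) ht3 tendsto_one_div_add_atTop_nhds_zero_nat
  · rw [ae_all_iff]
    intro j
    exact ae_tendsto_of_sum (fun k => hm j _) fun k => ht4 k j

theorem lint_sq_eLp {g : ℂ → ℂ} : ∫⁻ z, ‖g z‖ₑ ^ (2:ℝ) = eLpNorm g 2 volume ^ (2:ℝ) := by
  rw [eLpNorm_eq_lintegral_rpow_enorm_toReal (by norm_num) (by norm_num), ← ENNReal.rpow_mul]
  norm_num

theorem transl_lint (e : ℂ) (g : ℂ → ℂ) (hg : MemLp g 2 volume) :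
    Tendsto (fun t : ℝ => ∫⁻ z, ‖g (z + t • e) - g z‖ₑ ^ (2:ℝ)) (𝓝 0) (𝓝 0) := by
  rw [ENNReal.tendsto_nhds_zero]
  intro η hη
  have h0 : 0 < η ^ (1 / 2 : ℝ) := ENNReal.rpow_pos_of_nonneg hη (by norm_num)
  obtain ⟨ε, hε, h⟩ := Pool.Agent.W741.MY.transl g hg (η ^ (1 / 2 : ℝ)) h0
  have hc : Tendsto (fun t : ℝ => ‖t • e‖) (𝓝 0) (𝓝 0) := by
    have : Continuous fun t : ℝ => ‖t • e‖ := by fun_prop
    have h1 := this.tendsto 0
    simpa using h1
  filter_upwards [hc.eventually (gt_mem_nhds hε)] with t ht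
  have h1 := h (-(t • e)) (by rwa [norm_neg])
  simp only [sub_neg_eq_add] at h1
  rw [lint_sq_eLp]
  calc eLpNorm (fun z => g (z + t • e) - g z) 2 volume ^ (2:ℝ) ≤ (η ^ (1 / 2 : ℝ)) ^ (2:ℝ) :=
        ENNReal.rpow_le_rpow h1 (by norm_num)
    _ = η := by rw [← ENNReal.rpow_mul]; norm_num

/-- averages -/
theorem avg_lint (e : ℂ) (g : ℂ → ℂ) (hgm : Measurable g) (hg : MemLp g 2 volume) :
    Tendsto (fun t : ℝ => ∫⁻ z, ((ENNReal.ofReal t)⁻¹ *
      ∫⁻ s in Ioc 0 t, ‖g (z + s • e) - g z‖ₑ) ^ (2:ℝ)) (𝓝[>] 0) (𝓝 0) := by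
  rw [ENNReal.tendsto_nhds_zero]
  intro η hη
  have h1 := (ENNReal.tendsto_nhds_zero.1 (transl_lint e g hg)) η hη
  obtain ⟨ε, hε, hball⟩ := Metric.eventually_nhds_iff.1 h1
  filter_upwards [Ioo_mem_nhdsGT hε] with t ht
  have ht0 : ENNReal.ofReal t ≠ 0 := (ENNReal.ofReal_pos.2 ht.1).ne'
  set ν : Measure ℝ := (ENNReal.ofReal t)⁻¹ • volume.restrict (Ioc 0 t) with hν
  have hν1 : ν univ = 1 := by
    rw [hν, Measure.smul_apply, Measure.restrict_apply_univ, Real.volume_Ioc, sub_zero, smul_eq_mul]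
    exact ENNReal.inv_mul_cancel ht0 ENNReal.ofReal_ne_top
  have hme : Measurable fun p : ℂ × ℝ => p.1 + p.2 • e := by fun_prop
  have hm : Measurable fun p : ℂ × ℝ => ‖g (p.1 + p.2 • e) - g p.1‖ₑ ^ (2:ℝ) :=
    (((hgm.comp hme).sub (hgm.comp measurable_fst)).enorm).pow_const _
  calc ∫⁻ z, ((ENNReal.ofReal t)⁻¹ * ∫⁻ s in Ioc 0 t, ‖g (z + s • e) - g z‖ₑ) ^ (2:ℝ)
      = ∫⁻ z, (∫⁻ s, ‖g (z + s • e) - g z‖ₑ ∂ν) ^ (2:ℝ) := by
        refine lintegral_congr fun z => ?_
        rw [hν, lintegral_smul_measure, smul_eq_mul]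
    _ ≤ ∫⁻ z, ∫⁻ s, ‖g (z + s • e) - g z‖ₑ ^ (2:ℝ) ∂ν := by
        refine lintegral_mono fun z => ?_
        apply Pool.Agent.W741.MY.lint_sq_le ν hν1
        exact (((hgm.comp (by fun_prop)).sub measurable_const).enorm).aemeasurable
    _ = ∫⁻ s, (∫⁻ z, ‖g (z + s • e) - g z‖ₑ ^ (2:ℝ)) ∂ν :=
        lintegral_lintegral_swap hm.aemeasurable
    _ ≤ ∫⁻ _, η ∂ν := by
        rw [hν, lintegral_smul_measure, lintegral_smul_measure]
        refine mul_le_mul' le_rfl ?_
        refine setLIntegral_mono' (measurableSet_Ioc : MeasurableSet (Ioc (0:ℝ) t)) fun s hs => ?_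
        apply hball
        rw [Real.dist_eq, sub_zero, abs_of_pos hs.1]
        exact hs.2.trans_lt ht.2
    _ = η := by rw [lintegral_const, hν1, mul_one]

open Pool.Agent.W564.MY in
/-- localisation: `κ w` is globally weakly differentiable -/
theorem wd_global {U : Set ℂ} {e : ℂ} {w d κ : ℂ → ℝ} (hκ : Test U κ)
    (hw : LocallyIntegrableOn w U) (hd : LocallyIntegrableOn d U) (h : IsWeakDeriv U e w d) :
    WeakDir e (fun z => ((κ z * w z : ℝ) : ℂ))
      (fun z => ((κ z * d z + w z * fderiv ℝ κ z e : ℝ) : ℂ)) := by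
  -- real test functions
  have hreal : ∀ χ : ℂ → ℝ, ContDiff ℝ ∞ χ →
      ∫ z, (κ z * w z) * fderiv ℝ χ z e = - ∫ z, (κ z * d z + w z * fderiv ℝ κ z e) * χ z := by
    intro χ hχ
    have ht : Test U (fun z => κ z * χ z) := by
      refine ⟨hκ.1.mul hχ, hκ.2.1.mul_right, ?_⟩
      exact (tsupport_mul_subset_left).trans hκ.2.2
    have h1 := isWeakDeriv_iff.1 h _ ht
    have hfd : ∀ z, fderiv ℝ (fun z => κ z * χ z) z e = κ z * fderiv ℝ χ z e + χ z * fderiv ℝ κ z e := by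
      intro z
      rw [fderiv_fun_mul (hκ.1.differentiable (by simp) z) (hχ.differentiable (by simp) z)]
      rfl
    have hsup : ∀ z, z ∉ tsupport κ → κ z = 0 := fun z hz => image_eq_zero_of_notMem_tsupport hz
    have hsup' : ∀ z, z ∉ tsupport κ → fderiv ℝ κ z e = 0 := fun z hz => by
      have : fderiv ℝ κ z = 0 :=
        image_eq_zero_of_notMem_tsupport fun h2 => hz (tsupport_fderiv_subset ℝ h2)
      rw [this]; rfl
    have hDχ : Continuous fun z => fderiv ℝ χ z e :=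
      (hχ.continuous_fderiv (by simp)).clm_apply continuous_const
    have i1 : Integrable fun z => w z * (κ z * fderiv ℝ χ z e) :=
      hκ.int_mul hw _ (hκ.1.continuous.mul hDχ) fun z hz => by rw [hsup z hz, zero_mul]
    have i2 : Integrable fun z => w z * (χ z * fderiv ℝ κ z e) :=
      hκ.int_mul hw _ (hχ.continuous.mul (hκ.dcont e)) fun z hz => by rw [hsup' z hz, mul_zero]
    have i3 : Integrable fun z => d z * (κ z * χ z) :=
      hκ.int_mul hd _ (hκ.1.continuous.mul hχ.continuous) fun z hz => by rw [hsup z hz, zero_mul]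
    have e1 : ∫ z, w z * fderiv ℝ (fun z => κ z * χ z) z e =
        (∫ z, w z * (κ z * fderiv ℝ χ z e)) + ∫ z, w z * (χ z * fderiv ℝ κ z e) := by
      rw [← integral_add i1 i2]
      refine integral_congr_ae (Eventually.of_forall fun z => ?_)
      simp only [hfd]; ring
    have e2 : ∫ z, (κ z * d z + w z * fderiv ℝ κ z e) * χ z =
        (∫ z, d z * (κ z * χ z)) + ∫ z, w z * (χ z * fderiv ℝ κ z e) := by
      rw [← integral_add i3 i2]
      refine integral_congr_ae (Eventually.of_forall fun z => ?_)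
      simp only; ring
    have e3 : ∫ z, (κ z * w z) * fderiv ℝ χ z e = ∫ z, w z * (κ z * fderiv ℝ χ z e) := by
      refine integral_congr_ae (Eventually.of_forall fun z => ?_)
      simp only; ring
    rw [e1] at h1
    rw [e3, e2]
    linarith
  intro φ hφ hφc
  have hre : ContDiff ℝ ∞ fun z => (φ z).re := Complex.reCLM.contDiff.comp hφ
  have him : ContDiff ℝ ∞ fun z => (φ z).im := Complex.imCLM.contDiff.comp hφ
  have hfre : ∀ z, fderiv ℝ (fun z => (φ z).re) z e = (fderiv ℝ φ z e).re := by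
    intro z
    have := (Complex.reCLM.hasFDerivAt.comp z (hφ.differentiable (by simp) z).hasFDerivAt).fderiv
    have h2 : fderiv ℝ (fun z => (φ z).re) z = Complex.reCLM.comp (fderiv ℝ φ z) := this
    rw [h2]; rfl
  have hfim : ∀ z, fderiv ℝ (fun z => (φ z).im) z e = (fderiv ℝ φ z e).im := by
    intro z
    have := (Complex.imCLM.hasFDerivAt.comp z (hφ.differentiable (by simp) z).hasFDerivAt).fderiv
    have h2 : fderiv ℝ (fun z => (φ z).im) z = Complex.imCLM.comp (fderiv ℝ φ z) := this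
    rw [h2]; rfl
  have hsupp : ∀ (v : ℂ → ℝ) (g : ℂ → ℂ), LocallyIntegrableOn v U → Continuous g → ∀ (k : ℂ → ℝ),
      Continuous k → (∀ z, z ∉ tsupport κ → k z = 0) →
      Integrable fun z => ((k z * v z : ℝ) : ℂ) * g z := by
    intro v g hv hg k hk hks
    have h1 : IntegrableOn v (tsupport κ) := hv.integrableOn_compact_subset hκ.2.2 hκ.2.1
    have h1c : IntegrableOn (fun z => ((v z : ℝ) : ℂ)) (tsupport κ) := Integrable.ofReal h1
    have h2 : IntegrableOn (fun z => ((v z : ℝ) : ℂ) * ((k z : ℂ) * g z)) (tsupport κ) :=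
      h1c.mul_continuousOn
        ((Complex.continuous_ofReal.comp hk).mul hg).continuousOn hκ.2.1
    have h3 : Integrable (fun z => ((v z : ℝ) : ℂ) * ((k z : ℂ) * g z)) := by
      refine (integrableOn_iff_integrable_of_support_subset ?_).1 h2
      intro z hz
      by_contra hz'
      exact hz (by simp [hks z hz'])
    refine h3.congr (Eventually.of_forall fun z => ?_)
    simp only; push_cast; ring
  have hDφ : Continuous fun z => fderiv ℝ φ z e :=
    (hφ.continuous_fderiv (by simp)).clm_apply continuous_const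
  have hks : ∀ z, z ∉ tsupport κ → κ z = 0 := fun z hz => image_eq_zero_of_notMem_tsupport hz
  have hks' : ∀ z, z ∉ tsupport κ → fderiv ℝ κ z e = 0 := fun z hz => by
    have : fderiv ℝ κ z = 0 :=
      image_eq_zero_of_notMem_tsupport fun h2 => hz (tsupport_fderiv_subset ℝ h2)
    rw [this]; rfl
  have I1 : Integrable fun z => ((κ z * w z : ℝ) : ℂ) * fderiv ℝ φ z e :=
    hsupp w _ hw hDφ κ hκ.1.continuous hks
  have I2 : Integrable fun z => ((κ z * d z + w z * fderiv ℝ κ z e : ℝ) : ℂ) * φ z := by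
    have a := hsupp d φ hd hφ.continuous κ hκ.1.continuous hks
    have b := hsupp w φ hw hφ.continuous (fun z => fderiv ℝ κ z e) (hκ.dcont e) hks'
    refine (a.add b).congr (Eventually.of_forall fun z => ?_)
    simp only [Pi.add_apply]; push_cast; ring
  apply Complex.ext
  · have a : (∫ z, ((κ z * w z : ℝ) : ℂ) * fderiv ℝ φ z e).re =
        ∫ z, (κ z * w z) * fderiv ℝ (fun z => (φ z).re) z e := by
      have := integral_re I1 (𝕜 := ℂ)
      simp only [RCLike.re_eq_complex_re] at this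
      rw [← this]
      refine integral_congr_ae (Eventually.of_forall fun z => ?_)
      simp only [hfre, Complex.re_ofReal_mul]
    have b : (- ∫ z, ((κ z * d z + w z * fderiv ℝ κ z e : ℝ) : ℂ) * φ z).re =
        - ∫ z, (κ z * d z + w z * fderiv ℝ κ z e) * (φ z).re := by
      have := integral_re I2 (𝕜 := ℂ)
      simp only [RCLike.re_eq_complex_re] at this
      rw [Complex.neg_re, ← this]
      congr 1
      refine integral_congr_ae (Eventually.of_forall fun z => ?_)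
      simp only [Complex.re_ofReal_mul]
    rw [a, b]
    exact hreal _ hre
  · have a : (∫ z, ((κ z * w z : ℝ) : ℂ) * fderiv ℝ φ z e).im =
        ∫ z, (κ z * w z) * fderiv ℝ (fun z => (φ z).im) z e := by
      have := integral_im I1 (𝕜 := ℂ)
      simp only [RCLike.im_eq_complex_im] at this
      rw [← this]
      refine integral_congr_ae (Eventually.of_forall fun z => ?_)
      simp only [hfim, Complex.im_ofReal_mul]
    have b : (- ∫ z, ((κ z * d z + w z * fderiv ℝ κ z e : ℝ) : ℂ) * φ z).im =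
        - ∫ z, (κ z * d z + w z * fderiv ℝ κ z e) * (φ z).im := by
      have := integral_im I2 (𝕜 := ℂ)
      simp only [RCLike.im_eq_complex_im] at this
      rw [Complex.neg_im, ← this]
      congr 1
      refine integral_congr_ae (Eventually.of_forall fun z => ?_)
      simp only [Complex.im_ofReal_mul]
    rw [a, b]
    exact hreal _ him

end Pool.Agent.TH300
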