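import Pool.Agent.TH300.An5

/-! Good sequences for difference quotients. -/

set_option autoImplicit false

open MeasureTheory Metric Set Filter Topology
open scoped ContDiff ENNReal RealInnerProductSpace

namespace Pool.Agent.TH300

open Pool.Agent.W564.MY

/-- cut-off functions -/
theorem exists_cutoff {U K : Set ℂ} (hU : IsOpen U) (hK : IsCompact K) (hKU : K ⊆ U) :
    ∃ κ : ℂ → ℝ, Test U κ ∧ (∀ᶠ x in 𝓝ˢ K, κ x = 1) ∧ ∀ x, |κ x| ≤ 1 := by
  obtain ⟨K', hK'c, hK1, hK2⟩ := exists_compact_between hK hU hKU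
  obtain ⟨f, hf1, hf2, hf3⟩ := exists_contMDiffMap_one_nhds_of_subset_interior
    (n := (⊤ : ℕ∞)) (modelWithCornersSelf ℝ ℂ) hK.isClosed hK1
  have hsupp : tsupport (f : ℂ → ℝ) ⊆ K' := by
    apply closure_minimal _ hK'c.isClosed
    intro x hx
    by_contra hx'
    exact hx (hf2 x hx')
  refine ⟨f, ⟨f.contMDiff.contDiff, IsCompact.of_isClosed_subset hK'c (isClosed_tsupport _) hsupp,
    hsupp.trans hK2⟩, hf1, ?_⟩
  intro x
  rw [abs_of_nonneg (hf3 x).1]
  exact (hf3 x).2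

theorem memLp_cut {U : Set ℂ} (hU : MeasurableSet U) {w k : ℂ → ℝ}
    (hw : MemLp w 2 (volume.restrict U)) (hk : Continuous k) {B : ℝ} (hB : ∀ z, |k z| ≤ B)
    (hs : ∀ z, z ∉ U → k z = 0) : MemLp (fun z => k z * w z) 2 volume := by
  have h1 : MemLp (fun z => k z * w z) 2 (volume.restrict U) := by
    refine MemLp.of_le_mul (c := B) hw (hk.aestronglyMeasurable.mul hw.1)
      (Eventually.of_forall fun z => ?_)
    rw [norm_mul]
    gcongr
    exact hB z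
  have h2 : (fun z => k z * w z) = U.indicator fun z => k z * w z := by
    ext z
    by_cases hz : z ∈ U
    · rw [indicator_of_mem hz]
    · rw [indicator_of_notMem hz, hs z hz, zero_mul]
  rw [h2, memLp_indicator_iff_restrict hU]
  exact h1

theorem rpow_tendsto_zero {α : Type} {l : Filter α} {u : α → ℝ≥0∞} (h : Tendsto u l (𝓝 0)) :
    Tendsto (fun a => u a ^ (2:ℝ)) l (𝓝 0) := by
  have := h.ennrpow_const 2
  simpa using this

theorem rpow_tendsto_zero' {α : Type} {l : Filter α} {u : α → ℝ≥0∞}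
    (h : Tendsto (fun a => u a ^ (2:ℝ)) l (𝓝 0)) : Tendsto u l (𝓝 0) := by
  have h1 := h.ennrpow_const (1 / 2)
  have h2 : (fun a => (u a ^ (2:ℝ)) ^ (1 / 2 : ℝ)) = u := by
    ext a
    rw [← ENNReal.rpow_mul]
    norm_num
  rw [h2] at h1
  simpa using h1

theorem good_seq {N M : ℕ} {U : Set ℂ} (hU : IsOpen U) (e : ℂ) (w d : Fin N → ℂ → ℝ)
    (hw : ∀ i, MemLp (w i) 2 (volume.restrict U)) (hd : ∀ i, MemLp (d i) 2 (volume.restrict U))
    (h : ∀ i, IsWeakDeriv U e (w i) (d i)) {Φ : ℂ → ℝ≥0∞} (hΦ : Measurable Φ)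
    (hΦf : ∀ z, Φ z ≠ ⊤)
    (hΦ2 : ∫⁻ z in U, Φ z ^ (2:ℝ) < ⊤) (A : Fin M → Set ℂ) (hA : ∀ j, MeasurableSet (A j))
    {z₀ : ℂ} (hz₀ : z₀ ∈ U) :
    ∃ (V K : Set ℂ) (t : ℕ → ℝ), IsOpen V ∧ IsCompact K ∧ K ⊆ U ∧ V ⊆ K ∧ z₀ ∈ V ∧ (∀ k, 0 < t k) ∧
      Tendsto t atTop (𝓝 0) ∧ (∀ k, ∀ z ∈ V, ∀ s ∈ Icc 0 (t k), z + s • e ∈ K) ∧
      ∀ᵐ z, z ∈ V →
        (∀ i, Tendsto (fun k => (w i (z + t k • e) - w i z) / t k) atTop (𝓝 (d i z))) ∧
        (∃ r : ℕ → ℝ≥0∞, Tendsto r atTop (𝓝 (Φ z)) ∧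
          ∀ k, ∫⁻ s in Ioc 0 (t k), Φ (z + s • e) ≤ ENNReal.ofReal (t k) * r k) ∧
        (∀ j, z ∈ A j → ∀ᶠ k in atTop, z + t k • e ∈ A j) := by
  obtain ⟨t₀, V, K, ht₀, hV, hK, hKU, hz₀V, hVK, hroom⟩ :=
    exists_room hU (isCompact_singleton (x := z₀)) (singleton_subset_iff.2 hz₀) e
  have hzV : z₀ ∈ V := hz₀V rfl
  obtain ⟨κ, hκ, hκ1, hκb⟩ := exists_cutoff hU hK hKU
  have hUm : MeasurableSet U := hU.measurableSet
  have hKm : MeasurableSet K := hK.measurableSet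
  have hlw : ∀ i, LocallyIntegrableOn (w i) U := fun i =>
    locallyIntegrableOn_of_locallyIntegrable_restrict ((hw i).locallyIntegrable (by norm_num))
  have hld : ∀ i, LocallyIntegrableOn (d i) U := fun i =>
    locallyIntegrableOn_of_locallyIntegrable_restrict ((hd i).locallyIntegrable (by norm_num))
  obtain ⟨B', hB'⟩ := (hκ.2.1.fderiv_apply (𝕜 := ℝ) e).exists_bound_of_continuous (hκ.dcont e)
  -- global functions
  let W : Fin N → ℂ → ℂ := fun i z => ((κ z * w i z : ℝ) : ℂ)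
  let D : Fin N → ℂ → ℂ := fun i z => ((κ z * d i z + w i z * fderiv ℝ κ z e : ℝ) : ℂ)
  have hW : ∀ i, MemLp (W i) 2 volume := fun i =>
    (memLp_cut hUm (hw i) hκ.1.continuous hκb fun z hz => hκ.zero hz).ofReal
  have hD : ∀ i, MemLp (D i) 2 volume := by
    intro i
    have h1 := memLp_cut hUm (hd i) hκ.1.continuous hκb fun z hz => hκ.zero hz
    have h2 := memLp_cut hUm (hw i) (hκ.dcont e) hB' fun z hz => by
      rw [hκ.fderiv_zero hz]; rfl
    refine MemLp.ofReal (f := fun z => κ z * d i z + w i z * fderiv ℝ κ z e) ?_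
    refine (h1.add h2).ae_eq (Eventually.of_forall fun z => ?_)
    simp only [Pi.add_apply]; ring
  have hWD : ∀ i, WeakDir e (W i) (D i) := fun i => wd_global hκ (hlw i) (hld i) (h i)
  let gΦ : ℂ → ℂ := fun z => (((K.indicator Φ z).toReal : ℝ) : ℂ)
  have hgΦn : ∀ z, ‖gΦ z‖ₑ = K.indicator Φ z := by
    intro z
    have hne : K.indicator Φ z ≠ ⊤ := by
      by_cases hz : z ∈ K
      · rw [indicator_of_mem hz]; exact hΦf z
      · rw [indicator_of_notMem hz]; simp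
    show ‖(((K.indicator Φ z).toReal : ℝ) : ℂ)‖ₑ = _
    rw [← ofReal_norm, Complex.norm_real, Real.norm_of_nonneg ENNReal.toReal_nonneg,
      ENNReal.ofReal_toReal hne]
  have hgΦm : Measurable gΦ := Complex.measurable_ofReal.comp (hΦ.indicator hKm).ennreal_toReal
  have hgΦ : MemLp gΦ 2 volume := by
    refine ⟨hgΦm.aestronglyMeasurable, ?_⟩
    have h1 : ∫⁻ z, ‖gΦ z‖ₑ ^ (2:ℝ) < ⊤ := by
      refine lt_of_le_of_lt ?_ hΦ2
      rw [← lintegral_indicator hUm]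
      refine lintegral_mono fun z => ?_
      rw [hgΦn]
      by_cases hz : z ∈ K
      · rw [indicator_of_mem hz, indicator_of_mem (hKU hz)]
      · rw [indicator_of_notMem hz]; simp
    rw [lint_sq_eLp] at h1
    by_contra h2
    rw [not_lt, top_le_iff] at h2
    rw [h2] at h1
    simp at h1
  let gA : Fin M → ℂ → ℂ := fun j => (A j ∩ K).indicator fun _ => 1
  have hgA : ∀ j, MemLp (gA j) 2 volume := fun j =>
    memLp_indicator_const 2 ((hA j).inter hKm) 1 (Or.inr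
      ((measure_mono inter_subset_right).trans_lt hK.measure_lt_top).ne)
  -- error functions
  let E : ((Fin N ⊕ Fin M) ⊕ Unit) → ℝ → ℂ → ℝ≥0∞ := fun j t z =>
    match j with
    | Sum.inl (Sum.inl i) => ‖DQ e t (W i) z - D i z‖ₑ ^ (2:ℝ)
    | Sum.inl (Sum.inr i) => ‖gA i (z + t • e) - gA i z‖ₑ ^ (2:ℝ)
    | Sum.inr _ => ((ENNReal.ofReal t)⁻¹ * ∫⁻ s in Ioc 0 t, ‖gΦ (z + s • e) - gΦ z‖ₑ) ^ (2:ℝ)
  have hEm : ∀ j t, AEMeasurable (E j t) := by
    intro j t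
    have hsh : ∀ g : ℂ → ℂ, MemLp g 2 volume → AEStronglyMeasurable (fun z => g (z + t • e)) volume :=
      fun g hg => hg.1.comp_measurePreserving (measurePreserving_add_right volume (t • e))
    match j with
    | Sum.inl (Sum.inl i) =>
      show AEMeasurable (fun z => ‖DQ e t (W i) z - D i z‖ₑ ^ (2:ℝ))
      have h1 : AEStronglyMeasurable (fun z => DQ e t (W i) z - D i z) volume := by
        unfold DQ
        exact ((((hsh _ (hW i)).sub (hW i).1)).const_mul _).sub (hD i).1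
      exact h1.enorm.pow_const _
    | Sum.inl (Sum.inr i) =>
      show AEMeasurable (fun z => ‖gA i (z + t • e) - gA i z‖ₑ ^ (2:ℝ))
      exact (((hsh _ (hgA i)).sub (hgA i).1).enorm).pow_const _
    | Sum.inr _ =>
      show AEMeasurable (fun z => ((ENNReal.ofReal t)⁻¹ *
        ∫⁻ s in Ioc 0 t, ‖gΦ (z + s • e) - gΦ z‖ₑ) ^ (2:ℝ))
      have hme : Measurable fun p : ℂ × ℝ => p.1 + p.2 • e := by fun_prop
      have hm : Measurable fun p : ℂ × ℝ => ‖gΦ (p.1 + p.2 • e) - gΦ p.1‖ₑ :=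
        ((hgΦm.comp hme).sub (hgΦm.comp measurable_fst)).enorm
      exact ((hm.lintegral_prod_right'.const_mul _).pow_const _).aemeasurable
  have hE : ∀ j, Tendsto (fun t => ∫⁻ z, E j t z) (𝓝[>] 0) (𝓝 0) := by
    intro j
    match j with
    | Sum.inl (Sum.inl i) =>
      have h1 := Pool.Agent.W741.MY.dq_gen e (W i) (D i) (hW i) (hD i) (hWD i)
      have h2 : Tendsto (fun t : ℝ => eLpNorm (fun x => DQ e t (W i) x - D i x) 2 volume)
          (𝓝[>] 0) (𝓝 0) := h1.mono_left (nhdsWithin_mono _ fun t ht => ne_of_gt ht)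
      refine (rpow_tendsto_zero h2).congr fun t => ?_
      exact (lint_sq_eLp (g := fun x => DQ e t (W i) x - D i x)).symm
    | Sum.inl (Sum.inr i) => exact (transl_lint e (gA i) (hgA i)).mono_left nhdsWithin_le_nhds
    | Sum.inr _ => exact avg_lint e gΦ hgΦm hgΦ
  obtain ⟨t, ht1, ht2, ht3, ht4⟩ := common_seq E hEm hE ht₀
  have hroom' : ∀ k, ∀ z ∈ V, ∀ s ∈ Icc 0 (t k), z + s • e ∈ K :=
    fun k => hroom (t k) (ht1 k).le (ht2 k)
  refine ⟨V, K, t, hV, hK, hKU, hVK, hzV, ht1, ht3, hroom', ?_⟩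
  have hκK : ∀ z ∈ K, κ z = 1 := fun z hz => by
    have h1 : {x | κ x = 1} ∈ 𝓝 z := mem_nhdsSet_iff_forall.1 hκ1 z hz
    have h2 : z ∈ {x | κ x = 1} := mem_of_mem_nhds h1
    exact h2
  have hκK' : ∀ z ∈ K, fderiv ℝ κ z = 0 := by
    intro z hz
    have h1 : κ =ᶠ[𝓝 z] fun _ => 1 := mem_nhdsSet_iff_forall.1 hκ1 z hz
    rw [h1.fderiv_eq]
    simp
  filter_upwards [ht4] with z hz hzV
  have hzK : z ∈ K := hVK hzV
  have hzt : ∀ k, z + t k • e ∈ K := fun k => hroom' k z hzV (t k) ⟨(ht1 k).le, le_rfl⟩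
  refine ⟨fun i => ?_, ?_, fun j hj => ?_⟩
  · have h1 := rpow_tendsto_zero' (hz (Sum.inl (Sum.inl i)))
    have h2 : Tendsto (fun k => DQ e (t k) (W i) z) atTop (𝓝 (D i z)) := by
      rw [tendsto_iff_edist_tendsto_0]
      refine h1.congr fun k => ?_
      rw [edist_eq_enorm_sub]
    have h3 := (Complex.continuous_re.tendsto _).comp h2
    have e1 : (D i z).re = d i z := by
      show (((κ z * d i z + w i z * fderiv ℝ κ z e : ℝ) : ℂ)).re = _
      rw [Complex.ofReal_re, hκK z hzK, hκK' z hzK]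
      simp
    rw [e1] at h3
    refine h3.congr fun k => ?_
    show (((t k : ℝ) : ℂ)⁻¹ * (((κ (z + t k • e) * w i (z + t k • e) : ℝ) : ℂ) -
      ((κ z * w i z : ℝ) : ℂ))).re = _
    rw [hκK z hzK, hκK _ (hzt k), one_mul, one_mul, ← Complex.ofReal_sub, ← Complex.ofReal_inv,
      ← Complex.ofReal_mul, Complex.ofReal_re]
    ring
  · have h1 := rpow_tendsto_zero' (hz (Sum.inr ()))
    refine ⟨fun k => (ENNReal.ofReal (t k))⁻¹ *
      (∫⁻ s in Ioc 0 (t k), ‖gΦ (z + s • e) - gΦ z‖ₑ) + Φ z, ?_, ?_⟩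
    · have h2 := h1.add_const (Φ z)
      rwa [zero_add] at h2
    · intro k
      have hpos : ENNReal.ofReal (t k) ≠ 0 := (ENNReal.ofReal_pos.2 (ht1 k)).ne'
      rw [mul_add, ← mul_assoc, ENNReal.mul_inv_cancel hpos ENNReal.ofReal_ne_top, one_mul]
      have h2 : ∫⁻ s in Ioc 0 (t k), Φ (z + s • e) ≤
          ∫⁻ s in Ioc 0 (t k), (‖gΦ (z + s • e) - gΦ z‖ₑ + Φ z) := by
        refine setLIntegral_mono' (measurableSet_Ioc : MeasurableSet (Ioc (0:ℝ) (t k)))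
          fun s hs => ?_
        have h3 : z + s • e ∈ K := hroom' k z hzV s ⟨hs.1.le, hs.2⟩
        have h4 : Φ (z + s • e) = ‖gΦ (z + s • e)‖ₑ := by
          rw [hgΦn, indicator_of_mem h3]
        have h5 : Φ z = ‖gΦ z‖ₑ := by
          rw [hgΦn, indicator_of_mem hzK]
        rw [h4, h5]
        calc ‖gΦ (z + s • e)‖ₑ = ‖(gΦ (z + s • e) - gΦ z) + gΦ z‖ₑ := by rw [sub_add_cancel]
          _ ≤ _ := enorm_add_le _ _
      refine h2.trans (le_of_eq ?_)
      rw [lintegral_add_right _ measurable_const, setLIntegral_const, Real.volume_Ioc, sub_zero,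
        mul_comm (Φ z)]
  · have h1 := hz (Sum.inl (Sum.inr j))
    have h2 : ∀ᶠ k in atTop, ‖gA j (z + t k • e) - gA j z‖ₑ ^ (2:ℝ) < 1 :=
      h1.eventually (gt_mem_nhds (by norm_num))
    filter_upwards [h2] with k hk
    by_contra hne
    have e1 : gA j z = 1 := indicator_of_mem (show z ∈ A j ∩ K from ⟨hj, hzK⟩) _
    have e2 : gA j (z + t k • e) = 0 := indicator_of_notMem (fun h => hne h.1) _
    rw [e1, e2] at hk
    simp at hk

end Pool.Agent.TH300
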