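import Pool.Agent.TH300.An6

/-! Zero sets and null Lagrangians. -/

set_option autoImplicit false

open MeasureTheory Metric Set Filter Topology
open scoped ContDiff ENNReal RealInnerProductSpace

namespace Pool.Agent.TH300

open Pool.Agent.W564.MY

theorem ae_of_local {U : Set ℂ} {P : ℂ → Prop}
    (h : ∀ z ∈ U, ∃ V : Set ℂ, IsOpen V ∧ z ∈ V ∧ ∀ᵐ y, y ∈ V → P y) :
    ∀ᵐ z, z ∈ U → P z := by
  rw [ae_iff]
  have e : {z | ¬(z ∈ U → P z)} = {z | z ∈ U ∧ ¬ P z} := by
    ext z; simp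
  rw [e]
  apply measure_null_of_locally_null
  intro z hz
  obtain ⟨V, hV, hzV, hae⟩ := h z hz.1
  refine ⟨{y | y ∈ V ∧ ¬ P y}, ?_, ?_⟩
  · rw [mem_nhdsWithin]
    exact ⟨V, hV, hzV, fun y hy => ⟨hy.1, hy.2.2⟩⟩
  · rw [ae_iff] at hae
    refine measure_mono_null (fun y hy => ?_) hae
    simp only [mem_setOf_eq, Classical.not_imp]
    exact hy

theorem zero_set {U : Set ℂ} (hU : IsOpen U) {e : ℂ} {w d : ℂ → ℝ}
    (hw : MemLp w 2 (volume.restrict U)) (hd : MemLp d 2 (volume.restrict U))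
    (h : IsWeakDeriv U e w d) : ∀ᵐ z, z ∈ U → w z = 0 → d z = 0 := by
  set wm := hw.1.mk w with hwm
  have hwm1 : Measurable wm := hw.1.stronglyMeasurable_mk.measurable
  have hwe : ∀ᵐ z, z ∈ U → w z = wm z := by
    have := hw.1.ae_eq_mk
    rw [Filter.EventuallyEq, ae_restrict_iff' hU.measurableSet] at this
    exact this
  apply ae_of_local
  intro z₀ hz₀
  obtain ⟨V, K, t, hV, hK, hKU, hVK, hzV, ht, htl, hroom, hae⟩ := good_seq (N := 1) (M := 1) hU e
    (fun _ => w) (fun _ => d) (fun _ => hw) (fun _ => hd) (fun _ => h) (Φ := fun _ => 0)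
    measurable_const (fun _ => by simp) (by simp) (fun _ => {z | wm z = 0})
    (fun _ => measurableSet_eq_fun hwm1 measurable_const) hz₀
  refine ⟨V, hV, hzV, ?_⟩
  have hwk : ∀ᵐ z, ∀ k : ℕ, z + t k • e ∈ U → w (z + t k • e) = wm (z + t k • e) := by
    rw [ae_all_iff]
    intro k
    exact (measurePreserving_add_right volume (t k • e)).quasiMeasurePreserving.ae hwe
  filter_upwards [hae, hwk, hwe] with z h1 h2 h3 hzV' hw0
  obtain ⟨a, -, c⟩ := h1 hzV'
  have hlim := a 0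
  have hz0 : wm z = 0 := by rw [← h3 (hKU (hVK hzV')), hw0]
  have hev := c 0 hz0
  have hzero : Tendsto (fun k => (w (z + t k • e) - w z) / t k) atTop (𝓝 0) := by
    apply tendsto_const_nhds.congr'
    filter_upwards [hev] with k hk
    have hk' : wm (z + t k • e) = 0 := hk
    rw [h2 k (hKU (hroom k z hzV' (t k) ⟨(ht k).le, le_rfl⟩)), hk', hw0]
    simp
  exact tendsto_nhds_unique hlim hzero

/-- Cauchy-Schwarz -/
theorem int_mul_le {μ : Measure ℂ} {f g : ℂ → ℝ} (hf : MemLp f 2 μ) (hg : MemLp g 2 μ) :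
    ENNReal.ofReal |∫ z, f z * g z ∂μ| ≤ eLpNorm f 2 μ * eLpNorm g 2 μ := by
  rw [← Real.norm_eq_abs, ofReal_norm]
  refine (enorm_integral_le_lintegral_enorm _).trans ?_
  have h1 := ENNReal.lintegral_mul_le_Lp_mul_Lq μ Real.HolderConjugate.two_two
    hf.1.enorm hg.1.enorm
  rw [eLpNorm_eq_lintegral_rpow_enorm_toReal (by norm_num) (by norm_num),
    eLpNorm_eq_lintegral_rpow_enorm_toReal (by norm_num) (by norm_num)]
  refine le_trans (le_of_eq ?_) h1
  refine lintegral_congr fun z => ?_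
  simp only [Pi.mul_apply, enorm_mul]

end Pool.Agent.TH300
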