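import Pool.Agent.TH300.An7

/-! Null Lagrangians. -/

set_option autoImplicit false

open MeasureTheory Metric Set Filter Topology
open scoped ContDiff ENNReal RealInnerProductSpace

namespace Pool.Agent.TH300

open Pool.Agent.W564.MY

theorem exists_approx {U C : Set ℂ} (hU : IsOpen U) (hC : IsCompact C) (hCU : C ⊆ U)
    {e : Fin 2 → ℂ} {ζ : ℂ → ℝ} {D : Fin 2 → ℂ → ℝ} (hζ : MemLp ζ 2 (volume.restrict U))
    (hD : ∀ j, MemLp (D j) 2 (volume.restrict U)) (hW : ∀ j, IsWeakDeriv U (e j) ζ (D j))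
    (hz : ∀ᵐ z, z ∈ U → z ∉ C → ζ z = 0) {η : ℝ≥0∞} (hη : 0 < η) :
    ∃ ψ, Test U ψ ∧ ∀ j, eLpNorm (fun z => fderiv ℝ ψ z (e j) - D j z) 2 (volume.restrict U) ≤ η := by
  obtain ⟨κ, hκ, hκ1, hκb⟩ := exists_cutoff hU hC hCU
  have hUm : MeasurableSet U := hU.measurableSet
  have hlw : LocallyIntegrableOn ζ U :=
    locallyIntegrableOn_of_locallyIntegrable_restrict (hζ.locallyIntegrable (by norm_num))
  have hld : ∀ j, LocallyIntegrableOn (D j) U := fun j =>
    locallyIntegrableOn_of_locallyIntegrable_restrict ((hD j).locallyIntegrable (by norm_num))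
  have hB' : ∀ j, ∃ B', ∀ z, ‖fderiv ℝ κ z (e j)‖ ≤ B' := fun j =>
    (hκ.2.1.fderiv_apply (𝕜 := ℝ) (e j)).exists_bound_of_continuous (hκ.dcont (e j))
  choose B' hB' using hB'
  let W : ℂ → ℂ := fun z => ((κ z * ζ z : ℝ) : ℂ)
  let DD : Fin 2 → ℂ → ℂ := fun j z => ((κ z * D j z + ζ z * fderiv ℝ κ z (e j) : ℝ) : ℂ)
  have hWm : MemLp W 2 volume :=
    (memLp_cut hUm hζ hκ.1.continuous hκb fun z hz => hκ.zero hz).ofReal
  have hDm : ∀ j, MemLp (DD j) 2 volume := by
    intro i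
    have h1 := memLp_cut hUm (hD i) hκ.1.continuous hκb fun z hz => hκ.zero hz
    have h2 := memLp_cut hUm hζ (hκ.dcont (e i)) (hB' i) fun z hz => by
      rw [hκ.fderiv_zero hz]; rfl
    refine MemLp.ofReal (f := fun z => κ z * D i z + ζ z * fderiv ℝ κ z (e i)) ?_
    refine (h1.add h2).ae_eq (Eventually.of_forall fun z => ?_)
    simp only [Pi.add_apply]; ring
  have hWD : ∀ j, WeakDir (e j) W (DD j) := fun j => wd_global hκ hlw (hld j) (hW j)
  have hDD : ∀ j, ∀ᵐ z, z ∈ U → (DD j z).re = D j z := by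
    intro j
    filter_upwards [hz, zero_set hU hζ (hD j) (hW j)] with z h1 h2 hzU
    show ((κ z * D j z + ζ z * fderiv ℝ κ z (e j) : ℝ) : ℂ).re = _
    rw [Complex.ofReal_re]
    by_cases hzC : z ∈ C
    · have h3 : κ =ᶠ[𝓝 z] fun _ => 1 := mem_nhdsSet_iff_forall.1 hκ1 z hzC
      rw [h3.fderiv_eq, h3.eq_of_nhds]
      simp
    · rw [h2 hzU (h1 hzU hzC), h1 hzU hzC]
      simp
  -- measurable representatives
  let Dm : Fin 2 → ℂ → ℂ := fun j => (hDm j).1.mk (DD j)
  have hDme : ∀ j, DD j =ᵐ[volume] Dm j := fun j => (hDm j).1.ae_eq_mk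
  have hDmm : ∀ j, Measurable (Dm j) := fun j => (hDm j).1.stronglyMeasurable_mk.measurable
  have hDmL : ∀ j, MemLp (Dm j) 2 volume := fun j => (hDm j).ae_eq (hDme j)
  have hWDm : ∀ j, WeakDir (e j) W (Dm j) := by
    intro j φ hφ hφc
    rw [hWD j φ hφ hφc]
    congr 1
    refine integral_congr_ae ?_
    filter_upwards [hDme j] with z hz
    rw [hz]
  have htr : ∀ j, ∃ ε : ℝ, 0 < ε ∧ ∀ t : ℂ, ‖t‖ < ε →
      eLpNorm (fun z => Dm j (z - t) - Dm j z) 2 volume ≤ η := fun j =>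
    Pool.Agent.W741.MY.transl (Dm j) (hDmL j) η hη
  choose ε hε hεt using htr
  obtain ⟨δ, hδ, hδU⟩ := hκ.2.1.exists_cthickening_subset_open hU hκ.2.2
  let r : ℝ := min (min (ε 0) (ε 1)) δ
  have hr : 0 < r := lt_min (lt_min (hε 0) (hε 1)) hδ
  let φ : ContDiffBump (0 : ℂ) := ⟨r / 4, r / 2, by positivity, by linarith⟩
  have hφs : ∀ t, φ.normed volume t ≠ 0 → ‖t‖ < r := by
    intro t ht
    have : t ∈ Function.support (φ.normed volume) := ht
    rw [φ.support_normed_eq, mem_ball_zero_iff] at this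
    have h2 : φ.rOut = r / 2 := rfl
    rw [h2] at this
    linarith
  obtain ⟨hsm, -⟩ := Pool.Agent.W741.MY.moll_deriv φ hWm (hWDm 0)
  have hfd : ∀ j, ∀ x, fderiv ℝ (fun x => ∫ t, φ.normed volume t • W (x - t)) x (e j) =
      ∫ t, φ.normed volume t • Dm j (x - t) := fun j =>
    (Pool.Agent.W741.MY.moll_deriv φ hWm (hWDm j)).2
  have hmoll : ∀ j, eLpNorm (fun z => (∫ t, φ.normed volume t • Dm j (z - t)) - Dm j z) 2 volume
      ≤ η := by
    intro j
    refine Pool.Agent.W741.MY.moll (Dm j) (hDmm j) (hDmL j) _ φ.continuous_normed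
      φ.hasCompactSupport_normed (fun t => φ.nonneg_normed t) φ.integral_normed r hφs η ?_
    intro t ht
    refine hεt j t (lt_of_lt_of_le ht ?_)
    have h1 : r ≤ min (ε 0) (ε 1) := min_le_left _ _
    fin_cases j
    · exact h1.trans (min_le_left _ _)
    · exact h1.trans (min_le_right _ _)
  set F : ℂ → ℂ := fun x => ∫ t, φ.normed volume t • W (x - t) with hF
  refine ⟨fun z => (F z).re, ⟨Complex.reCLM.contDiff.comp hsm, ?_⟩, ?_⟩
  · have hsupp : tsupport (fun z => (F z).re) ⊆ cthickening δ (tsupport κ) := by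
      apply closure_minimal _ isClosed_cthickening
      intro z hz
      by_contra hz'
      apply hz
      show (F z).re = 0
      have : F z = 0 := by
        rw [hF]
        simp only
        refine integral_eq_zero_of_ae (Eventually.of_forall fun t => ?_)
        show φ.normed volume t • W (z - t) = 0
        by_cases ht : φ.normed volume t = 0
        · rw [ht, zero_smul]
        · have h1 := hφs t ht
          have h2 : z - t ∉ tsupport κ := by
            intro h3
            apply hz'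
            refine mem_cthickening_of_dist_le z (z - t) δ _ h3 ?_
            rw [dist_eq_norm, sub_sub_cancel]
            exact h1.le.trans (min_le_right _ _)
          have h3 : W (z - t) = 0 := by
            show ((κ (z - t) * ζ (z - t) : ℝ) : ℂ) = 0
            rw [image_eq_zero_of_notMem_tsupport h2, zero_mul, Complex.ofReal_zero]
          rw [h3, smul_zero]
      rw [this]; rfl
    exact ⟨IsCompact.of_isClosed_subset (hκ.2.1.isCompact.cthickening) (isClosed_tsupport _) hsupp,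
      hsupp.trans hδU⟩
  · intro j
    have h1 : ∀ z, fderiv ℝ (fun z => (F z).re) z (e j) =
        (∫ t, φ.normed volume t • Dm j (z - t)).re := by
      intro z
      have h2 : fderiv ℝ (fun z => (F z).re) z = Complex.reCLM.comp (fderiv ℝ F z) :=
        (Complex.reCLM.hasFDerivAt.comp z (hsm.differentiable (by simp) z).hasFDerivAt).fderiv
      rw [h2, ← hfd j z]; rfl
    calc eLpNorm (fun z => fderiv ℝ (fun z => (F z).re) z (e j) - D j z) 2 (volume.restrict U)
        ≤ eLpNorm (fun z => (∫ t, φ.normed volume t • Dm j (z - t)) - Dm j z) 2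
          (volume.restrict U) := by
          refine eLpNorm_mono_ae ?_
          rw [ae_restrict_iff' hUm]
          filter_upwards [hDme j, hDD j] with z h2 h3 hzU
          rw [h1 z, ← h3 hzU, h2, ← Complex.sub_re]
          exact Complex.abs_re_le_norm _
      _ ≤ _ := eLpNorm_mono_measure _ Measure.restrict_le_self
      _ ≤ η := hmoll j

theorem intMul {μ : Measure ℂ} {f g : ℂ → ℝ} (hf : MemLp f 2 μ) (hg : MemLp g 2 μ) :
    Integrable (fun z => f z * g z) μ := hf.integrable_mul hg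

theorem ofReal_abs_add_le (a b : ℝ) :
    ENNReal.ofReal |a + b| ≤ ENNReal.ofReal |a| + ENNReal.ofReal |b| := by
  rw [← ENNReal.ofReal_add (abs_nonneg _) (abs_nonneg _)]
  exact ENNReal.ofReal_le_ofReal (abs_add_le _ _)

theorem null_lag {U C : Set ℂ} (hU : IsOpen U) (hC : IsCompact C) (hCU : C ⊆ U)
    {e : Fin 2 → ℂ} {ζ X : ℂ → ℝ} {D Y : Fin 2 → ℂ → ℝ} (hζ : MemLp ζ 2 (volume.restrict U))
    (hD : ∀ j, MemLp (D j) 2 (volume.restrict U)) (hW : ∀ j, IsWeakDeriv U (e j) ζ (D j))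
    (hz : ∀ᵐ z, z ∈ U → z ∉ C → ζ z = 0)
    (hY : ∀ j, MemLp (Y j) 2 (volume.restrict U)) (hX : ∀ j, IsWeakDeriv U (e j) X (Y j)) :
    ∫ z in U, (Y 0 z * D 1 z - Y 1 z * D 0 z) = 0 := by
  have hUm : MeasurableSet U := hU.measurableSet
  have key : ∀ η : ℝ≥0∞, 0 < η → ENNReal.ofReal |∫ z in U, (Y 0 z * D 1 z - Y 1 z * D 0 z)| ≤
      (eLpNorm (Y 0) 2 (volume.restrict U) + eLpNorm (Y 1) 2 (volume.restrict U)) * η := by
    intro η hη
    obtain ⟨ψ, hψ, hψ2⟩ := exists_approx hU hC hCU hζ hD hW hz hη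
    have hψL : ∀ j, MemLp (fun z => fderiv ℝ ψ z (e j)) 2 (volume.restrict U) := fun j =>
      ((hψ.dcont (e j)).memLp_of_hasCompactSupport (hψ.2.1.fderiv_apply (𝕜 := ℝ) (e j))).restrict _
    have hdiff : ∀ j, MemLp (fun z => fderiv ℝ ψ z (e j) - D j z) 2 (volume.restrict U) := fun j =>
      (hψL j).sub (hD j)
    -- test functions
    have hT : ∀ j, Test U (fun z => fderiv ℝ ψ z (e j)) := fun j =>
      ⟨(hψ.1.fderiv_right (m := ∞) (by simp)).clm_apply contDiff_const,
        hψ.2.1.fderiv_apply (𝕜 := ℝ) (e j), (tsupport_fderiv_apply_subset ℝ (e j)).trans hψ.2.2⟩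
    have h0 : ∫ z in U, (Y 0 z * fderiv ℝ ψ z (e 1) - Y 1 z * fderiv ℝ ψ z (e 0)) = 0 := by
      rw [integral_sub (intMul (hY 0) (hψL 1)) (intMul (hY 1) (hψL 0))]
      have h1 := hX 0 _ (hT 1)
      have h2 := hX 1 _ (hT 0)
      have h3 : ∀ z, fderiv ℝ (fun z => fderiv ℝ ψ z (e 1)) z (e 0) =
          fderiv ℝ (fun z => fderiv ℝ ψ z (e 0)) z (e 1) := by
        intro z
        have hd : DifferentiableAt ℝ (fderiv ℝ ψ) z :=
          ((hψ.1.fderiv_right (m := ∞) (by simp)).differentiable (by simp)) z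
        have h4 : ∀ v w : ℂ, fderiv ℝ (fun z => fderiv ℝ ψ z v) z w = fderiv ℝ (fderiv ℝ ψ) z w v := by
          intro v w
          rw [fderiv_clm_apply hd (differentiableAt_const _)]
          simp
        rw [h4, h4]
        have hs : IsSymmSndFDerivAt ℝ ψ z :=
          (hψ.1.contDiffAt).isSymmSndFDerivAt (by
            simp only [minSmoothness_of_isRCLikeNormedField]
            exact WithTop.coe_le_coe.2 (le_top : (2 : ℕ∞) ≤ ⊤))
        exact hs.eq _ _
      have h5 : ∫ z in U, X z * fderiv ℝ (fun z => fderiv ℝ ψ z (e 1)) z (e 0) =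
          ∫ z in U, X z * fderiv ℝ (fun z => fderiv ℝ ψ z (e 0)) z (e 1) := by
        congr 1
        ext z
        rw [h3]
      rw [h1, h2] at h5
      linarith
    have e1 : ∫ z in U, (Y 0 z * D 1 z - Y 1 z * D 0 z) =
        -(∫ z in U, Y 0 z * (fderiv ℝ ψ z (e 1) - D 1 z)) +
          ∫ z in U, Y 1 z * (fderiv ℝ ψ z (e 0) - D 0 z) := by
      have i3 := intMul (hY 0) (hψL 1)
      have i4 := intMul (hY 1) (hψL 0)
      have i5 := intMul (hY 0) (hD 1)
      have i6 := intMul (hY 1) (hD 0)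
      rw [integral_sub i3 i4] at h0
      simp only [mul_sub]
      rw [integral_sub i5 i6, integral_sub i3 i5, integral_sub i4 i6]
      linarith
    rw [e1, add_mul]
    refine (ofReal_abs_add_le _ _).trans (add_le_add ?_ ?_)
    · rw [abs_neg]
      exact (int_mul_le (hY 0) (hdiff 1)).trans (mul_le_mul_right (hψ2 1) _)
    · exact (int_mul_le (hY 1) (hdiff 0)).trans (mul_le_mul_right (hψ2 0) _)
  have hS : eLpNorm (Y 0) 2 (volume.restrict U) + eLpNorm (Y 1) 2 (volume.restrict U) ≠ ⊤ :=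
    ENNReal.add_ne_top.2 ⟨(hY 0).2.ne, (hY 1).2.ne⟩
  have h0 : ∀ ε : ℝ, 0 < ε → |∫ z in U, (Y 0 z * D 1 z - Y 1 z * D 0 z)| ≤
      (eLpNorm (Y 0) 2 (volume.restrict U) + eLpNorm (Y 1) 2 (volume.restrict U)).toReal * ε := by
    intro ε hε
    have h1 := key (ENNReal.ofReal ε) (ENNReal.ofReal_pos.2 hε)
    have h2 := ENNReal.toReal_mono (ENNReal.mul_ne_top hS ENNReal.ofReal_ne_top) h1
    rwa [ENNReal.toReal_ofReal (abs_nonneg _), ENNReal.toReal_mul, ENNReal.toReal_ofReal hε.le] at h2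
  have h1 : |∫ z in U, (Y 0 z * D 1 z - Y 1 z * D 0 z)| ≤ 0 := by
    have hlim : Tendsto (fun ε : ℝ => (eLpNorm (Y 0) 2 (volume.restrict U) +
        eLpNorm (Y 1) 2 (volume.restrict U)).toReal * ε) (𝓝[>] 0) (𝓝 0) := by
      have := (continuous_const_mul ((eLpNorm (Y 0) 2 (volume.restrict U) +
        eLpNorm (Y 1) 2 (volume.restrict U)).toReal)).tendsto (0:ℝ)
      rw [mul_zero] at this
      exact this.mono_left nhdsWithin_le_nhds
    refine ge_of_tendsto hlim ?_
    filter_upwards [self_mem_nhdsWithin] with ε hε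
    exact h0 ε hε
  exact abs_nonpos_iff.1 h1

theorem isub {μ : Measure ℂ} {f g : ℂ → ℝ} (hf : Integrable f μ) (hg : Integrable g μ) :
    Integrable (fun z => f z - g z) μ := hf.sub hg

theorem IsWeakDeriv.sub' {U : Set ℂ} {e : ℂ} {w w' d d' : ℂ → ℝ}
    (hw : MemLp w 2 (volume.restrict U)) (hw' : MemLp w' 2 (volume.restrict U))
    (hd : MemLp d 2 (volume.restrict U)) (hd' : MemLp d' 2 (volume.restrict U))
    (h : IsWeakDeriv U e w d) (h' : IsWeakDeriv U e w' d') :
    IsWeakDeriv U e (fun z => w z - w' z) (fun z => d z - d' z) := by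
  intro ψ hψ
  have hψL : MemLp (fun z => fderiv ℝ ψ z e) 2 (volume.restrict U) :=
    ((hψ.dcont e).memLp_of_hasCompactSupport (hψ.2.1.fderiv_apply (𝕜 := ℝ) e)).restrict _
  have hψM : MemLp ψ 2 (volume.restrict U) := hψ.memLp.restrict _
  have h1 := h ψ hψ
  have h2 := h' ψ hψ
  simp only [sub_mul]
  rw [integral_sub (intMul hw hψL) (intMul hw' hψL), integral_sub (intMul hd hψM) (intMul hd' hψM),
    h1, h2]
  ring

/-- the Jacobian determinant of the plane map `(a, b)` with weak gradients `A`, `B` -/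
theorem det_eq {U C : Set ℂ} (hU : IsOpen U) (hC : IsCompact C) (hCU : C ⊆ U)
    {e : Fin 2 → ℂ} {a b a' b' : ℂ → ℝ} {A B A' B' : Fin 2 → ℂ → ℝ}
    (ha : MemLp a 2 (volume.restrict U)) (hb : MemLp b 2 (volume.restrict U))
    (ha' : MemLp a' 2 (volume.restrict U)) (hb' : MemLp b' 2 (volume.restrict U))
    (hA : ∀ j, MemLp (A j) 2 (volume.restrict U)) (hB : ∀ j, MemLp (B j) 2 (volume.restrict U))
    (hA' : ∀ j, MemLp (A' j) 2 (volume.restrict U)) (hB' : ∀ j, MemLp (B' j) 2 (volume.restrict U))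
    (wA : ∀ j, IsWeakDeriv U (e j) a (A j)) (wB : ∀ j, IsWeakDeriv U (e j) b (B j))
    (wA' : ∀ j, IsWeakDeriv U (e j) a' (A' j)) (wB' : ∀ j, IsWeakDeriv U (e j) b' (B' j))
    (ea : ∀ᵐ z, z ∈ U → z ∉ C → a' z = a z) (eb : ∀ᵐ z, z ∈ U → z ∉ C → b' z = b z) :
    ∫ z in U, (A' 0 z * B' 1 z - A' 1 z * B' 0 z) = ∫ z in U, (A 0 z * B 1 z - A 1 z * B 0 z) := by
  have hUm : MeasurableSet U := hU.measurableSet
  have h1 := null_lag (e := e) hU hC hCU (ζ := fun z => b' z - b z) (X := a)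
    (D := fun j z => B' j z - B j z) (Y := A) (hb'.sub hb) (fun j => (hB' j).sub (hB j))
    (fun j => (wB' j).sub' hb' hb (hB' j) (hB j) (wB j)) (by
      filter_upwards [eb] with z hz h2 h3
      rw [hz h2 h3, sub_self]) hA wA
  have h2 := null_lag (e := e) hU hC hCU (ζ := fun z => a' z - a z) (X := b')
    (D := fun j z => A' j z - A j z) (Y := B') (ha'.sub ha) (fun j => (hA' j).sub (hA j))
    (fun j => (wA' j).sub' ha' ha (hA' j) (hA j) (wA j)) (by
      filter_upwards [ea] with z hz h2 h3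
      rw [hz h2 h3, sub_self]) hB' wB'
  have i1 := intMul (hA 0) (hB 1)
  have i2 := intMul (hA 1) (hB 0)
  have i3 := intMul (hA 0) (hB' 1)
  have i4 := intMul (hA 1) (hB' 0)
  have i5 := intMul (hB' 0) (hA' 1)
  have i6 := intMul (hB' 1) (hA' 0)
  have i7 := intMul (hB' 0) (hA 1)
  have i8 := intMul (hB' 1) (hA 0)
  have i9 := intMul (hA' 0) (hB' 1)
  have i10 := intMul (hA' 1) (hB' 0)
  have e1 : ∫ z in U, (A 0 z * (B' 1 z - B 1 z) - A 1 z * (B' 0 z - B 0 z)) =
      (∫ z in U, A 0 z * B' 1 z) - (∫ z in U, A 0 z * B 1 z) -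
        ((∫ z in U, A 1 z * B' 0 z) - ∫ z in U, A 1 z * B 0 z) := by
    simp only [mul_sub]
    rw [integral_sub (isub i3 i1) (isub i4 i2), integral_sub i3 i1, integral_sub i4 i2]
  have e2 : ∫ z in U, (B' 0 z * (A' 1 z - A 1 z) - B' 1 z * (A' 0 z - A 0 z)) =
      (∫ z in U, B' 0 z * A' 1 z) - (∫ z in U, B' 0 z * A 1 z) -
        ((∫ z in U, B' 1 z * A' 0 z) - ∫ z in U, B' 1 z * A 0 z) := by
    simp only [mul_sub]
    rw [integral_sub (isub i5 i7) (isub i6 i8), integral_sub i5 i7, integral_sub i6 i8]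
  rw [e1] at h1
  rw [e2] at h2
  simp only [mul_comm (B' _ _)] at h2
  rw [integral_sub i9 i10, integral_sub i1 i2]
  linarith

end Pool.Agent.TH300
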