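import Pool.Agent.TH300.Gl4

/-! Pointwise comparison. -/

set_option autoImplicit false

open MeasureTheory Metric Set Filter Topology
open scoped ContDiff ENNReal RealInnerProductSpace

namespace Pool.Agent.TH300

/-- complex-valued Sobolev functions -/
structure CW (U : Set ℂ) (e : ℂ) (w d : ℂ → ℂ) : Prop where
  wr : MemLp (fun z => (w z).re) 2 (volume.restrict U)
  wi : MemLp (fun z => (w z).im) 2 (volume.restrict U)
  dr : MemLp (fun z => (d z).re) 2 (volume.restrict U)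
  di : MemLp (fun z => (d z).im) 2 (volume.restrict U)
  hr : IsWeakDeriv U e (fun z => (w z).re) (fun z => (d z).re)
  hi : IsWeakDeriv U e (fun z => (w z).im) (fun z => (d z).im)

theorem IsWeakDeriv.mono {U V : Set ℂ} {e : ℂ} {w d : ℂ → ℝ} (h : IsWeakDeriv U e w d)
    (hVU : V ⊆ U) : IsWeakDeriv V e w d := by
  rw [isWeakDeriv_iff] at h ⊢
  intro ψ hψ
  exact h ψ (hψ.mono hVU)

theorem CW.mono {U V : Set ℂ} {e : ℂ} {w d : ℂ → ℂ} (h : CW U e w d) (hVU : V ⊆ U) :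
    CW V e w d := by
  have hm := Measure.restrict_mono hVU (le_refl (volume : Measure ℂ))
  exact ⟨h.wr.mono_measure hm, h.wi.mono_measure hm, h.dr.mono_measure hm, h.di.mono_measure hm,
    h.hr.mono hVU, h.hi.mono hVU⟩

theorem CW.zero_set {U : Set ℂ} (hU : IsOpen U) {e : ℂ} {w d : ℂ → ℂ} (h : CW U e w d) :
    ∀ᵐ z, z ∈ U → w z = 0 → d z = 0 := by
  filter_upwards [TH300.zero_set hU h.wr h.dr h.hr, TH300.zero_set hU h.wi h.di h.hi]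
    with z h1 h2 hz hw
  exact Complex.ext (h1 hz (by rw [hw]; rfl)) (h2 hz (by rw [hw]; rfl))

theorem good_seq2 {n : ℕ} {U : Set ℂ} (hU : IsOpen U) (e : ℂ) (w d : Fin n → ℂ → ℂ)
    (h : ∀ i, CW U e (w i) (d i)) {Φ : ℂ → ℝ≥0∞} (hΦ : Measurable Φ) (hΦf : ∀ z, Φ z ≠ ⊤)
    (hΦ2 : ∫⁻ z in U, Φ z ^ (2:ℝ) < ⊤) {z₀ : ℂ} (hz₀ : z₀ ∈ U) :
    ∃ (V K : Set ℂ) (t : ℕ → ℝ), IsOpen V ∧ IsCompact K ∧ K ⊆ U ∧ V ⊆ K ∧ z₀ ∈ V ∧ (∀ k, 0 < t k) ∧
      Tendsto t atTop (𝓝 0) ∧ (∀ k, ∀ z ∈ V, ∀ s ∈ Icc 0 (t k), z + s • e ∈ K) ∧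
      ∀ᵐ z, z ∈ V →
        (∀ i, Tendsto (fun k => (t k)⁻¹ • (w i (z + t k • e) - w i z)) atTop (𝓝 (d i z))) ∧
        (∃ r : ℕ → ℝ≥0∞, Tendsto r atTop (𝓝 (Φ z)) ∧
          ∀ k, ∫⁻ s in Ioc 0 (t k), Φ (z + s • e) ≤ ENNReal.ofReal (t k) * r k) := by
  let pr : ℂ → Fin 2 → ℝ := fun a b => if b = 0 then a.re else a.im
  let W : (Fin n → ℂ → ℂ) → Fin (n * 2) → ℂ → ℝ := fun w i z =>
    pr (w (finProdFinEquiv.symm i).1 z) (finProdFinEquiv.symm i).2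
  have hWc : ∀ (u : Fin n → ℂ → ℂ) i b, W u (finProdFinEquiv (i, b)) = fun z => pr (u i z) b := by
    intro u i b
    ext z
    simp only [W, Equiv.symm_apply_apply]
  have hall : ∀ (P : Fin (n * 2) → Prop), (∀ i b, P (finProdFinEquiv (i, b))) → ∀ i, P i := by
    intro P hP i
    have := hP (finProdFinEquiv.symm i).1 (finProdFinEquiv.symm i).2
    rwa [Prod.mk.eta, Equiv.apply_symm_apply] at this
  obtain ⟨V, K, t, a1, a2, a3, a4, a5, a6, a7, a8, a9⟩ := good_seq (N := n * 2) (M := 0) hU e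
    (W w) (W d)
    (hall _ fun i b => by
      rw [hWc]
      fin_cases b
      · exact (h i).wr
      · exact (h i).wi)
    (hall _ fun i b => by
      rw [hWc]
      fin_cases b
      · exact (h i).dr
      · exact (h i).di)
    (hall _ fun i b => by
      rw [hWc, hWc]
      fin_cases b
      · exact (h i).hr
      · exact (h i).hi)
    hΦ hΦf hΦ2 (fun _ => ∅) (fun _ => MeasurableSet.empty) hz₀
  refine ⟨V, K, t, a1, a2, a3, a4, a5, a6, a7, a8, ?_⟩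
  filter_upwards [a9] with z hz hzV
  obtain ⟨b1, b2, -⟩ := hz hzV
  refine ⟨fun i => ?_, b2⟩
  have c1 := b1 (finProdFinEquiv (i, 0))
  have c2 := b1 (finProdFinEquiv (i, 1))
  rw [hWc, hWc] at c1 c2
  simp only [pr, if_true, one_ne_zero, if_false] at c1 c2
  have c3 := ((Complex.continuous_ofReal.tendsto _).comp c1).add
    (((Complex.continuous_ofReal.tendsto _).comp c2).mul_const Complex.I)
  rw [Complex.re_add_im] at c3
  refine c3.congr fun k => ?_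
  simp only [Function.comp]
  apply Complex.ext
  · simp
    ring
  · simp
    ring

/-- one direction -/
theorem one_dir {U : Set ℂ} (hU : IsOpen U) {e : ℂ} {f : ℂ → Fin 2 → ℂ} {Φ : ℂ → ℝ≥0∞}
    (hΦ : Measurable Φ) (hΦf : ∀ z, Φ z ≠ ⊤) (hΦ2 : ∫⁻ z in U, Φ z ^ (2:ℝ) < ⊤)
    (hb : HB U e f Φ) {s' e' : ℂ → ℂ} (cs : CW U e (fun z => sm (f z)) s')
    (ce : CW U e (fun z => et (f z)) e') :
    ∀ᵐ z, z ∈ U →
      (et (f z) = 0 → 1 / 2 * ‖s' z‖ ^ 2 + 1 / 8 * ‖e' z‖ ^ 2 ≤ (Φ z).toReal ^ 2) ∧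
      (et (f z) ≠ 0 → 1 / 2 * ‖s' z‖ ^ 2 + (1 / 8 * ‖e' z‖ ^ 2 +
        3 / 8 * (((starRingEnd ℂ) (et (f z)) * e' z).re / ‖et (f z)‖) ^ 2) ≤ (Φ z).toReal ^ 2) := by
  apply ae_of_local
  intro z₀ hz₀
  obtain ⟨V, K, t, a1, a2, a3, a4, a5, a6, a7, a8, a9⟩ := good_seq2 (n := 2) hU e
    (fun i => if i = 0 then (fun z => sm (f z)) else fun z => et (f z))
    (fun i => if i = 0 then s' else e') (by
      intro i
      fin_cases i
      · exact cs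
      · exact ce) hΦ hΦf hΦ2 hz₀
  refine ⟨V, a1, a5, ?_⟩
  have hk : ∀ᵐ z, ∀ k : ℕ, z ∈ V → ENNReal.ofReal (G (f (z + t k • e)) (f z)) ≤
      ∫⁻ s in Ioc 0 (t k), Φ (z + s • e) := by
    rw [ae_all_iff]
    intro k
    exact hb V K a1 a2 a3 (t k) (a6 k).le (a8 k)
  filter_upwards [a9, hk] with z h1 h2 hzV
  obtain ⟨b1, r, b2, b3⟩ := h1 hzV
  have c1 := b1 0
  have c2 := b1 1
  simp only [if_true, one_ne_zero, if_false] at c1 c2
  refine point_ineq a6 a7 c1 c2 (r := fun k => (r k).toReal) ((ENNReal.tendsto_toReal (hΦf z)).comp b2)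
    ?_
  have hev : ∀ᶠ k in atTop, r k < ⊤ := b2.eventually (gt_mem_nhds (lt_top_iff_ne_top.2 (hΦf z)))
  filter_upwards [hev] with k hk
  have h3 := (h2 k hzV).trans (b3 k)
  rw [ENNReal.ofReal_le_iff_le_toReal (ENNReal.mul_ne_top ENNReal.ofReal_ne_top hk.ne),
    ENNReal.toReal_mul, ENNReal.toReal_ofReal (a6 k).le] at h3
  exact h3

/-- the lower bound on the side with two values -/
theorem lower_plus {U : Set ℂ} (hU : IsOpen U) {f : ℂ → Fin 2 → ℂ} {α : Fin 2 → ℂ → ℝ}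
    (hα : Dominates U f α) {s' e' : Fin 2 → ℂ → ℂ}
    (cs : ∀ j, CW U (dir j) (fun z => sm (f z)) (s' j))
    (ce : ∀ j, CW U (dir j) (fun z => et (f z)) (e' j)) :
    ∀ᵐ z, z ∈ U → dt (s' 0 z) (s' 1 z) + 1 / 2 * dt (e' 0 z) (e' 1 z) ≤ α 0 z ^ 2 + α 1 z ^ 2 := by
  have key : ∀ j, ∀ᵐ z, z ∈ U →
      (et (f z) = 0 → 1 / 2 * ‖s' j z‖ ^ 2 + 1 / 8 * ‖e' j z‖ ^ 2 ≤ (α j z) ^ 2) ∧
      (et (f z) ≠ 0 → 1 / 2 * ‖s' j z‖ ^ 2 + (1 / 8 * ‖e' j z‖ ^ 2 +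
        3 / 8 * (((starRingEnd ℂ) (et (f z)) * e' j z).re / ‖et (f z)‖) ^ 2) ≤ (α j z) ^ 2) := by
    intro j
    obtain ⟨Φ, p1, p2, p3, p4, p5⟩ := dom_bound hU.measurableSet hα j
    filter_upwards [one_dir hU p1 p2 p4 (dom_sob p1 p5).hb (cs j) (ce j), p3] with z h1 h2 hz
    have h3 := h1 hz
    have h4 : (Φ z).toReal ^ 2 = α j z ^ 2 := by
      rw [h2 hz, toReal_enorm, Real.norm_eq_abs, sq_abs]
    rw [h4] at h3
    exact h3
  filter_upwards [key 0, key 1, (ce 0).zero_set hU, (ce 1).zero_set hU] with z h1 h2 h3 h4 hz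
  exact point_plus (h1 hz) (h2 hz) fun h0 => ⟨h3 hz h0, h4 hz h0⟩

end Pool.Agent.TH300
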