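import Pool.Agent.TH300.Cmp1

/-! Pointwise comparison, below the interface. -/

set_option autoImplicit false

open MeasureTheory Metric Set Filter Topology
open scoped ContDiff ENNReal RealInnerProductSpace

namespace Pool.Agent.TH300

theorem seq_right {t : ℕ → ℝ} (ht : ∀ k, 0 < t k) (ht0 : Tendsto t atTop (𝓝 0)) :
    Tendsto t atTop (𝓝[>] 0) := tendsto_nhdsWithin_iff.2 ⟨ht0, Eventually.of_forall ht⟩

/-- weak derivatives agree with one-sided directional derivatives -/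
theorem CW.classical {U : Set ℂ} (hU : IsOpen U) {e : ℂ} {w d : ℂ → ℂ} (h : CW U e w d) {w' : ℂ → ℂ}
    (hd : ∀ z ∈ U, Tendsto (fun t : ℝ => t⁻¹ • (w (z + t • e) - w z)) (𝓝[>] 0) (𝓝 (w' z))) :
    ∀ᵐ z, z ∈ U → d z = w' z := by
  apply ae_of_local
  intro z₀ hz₀
  obtain ⟨V, K, t, a1, a2, a3, a4, a5, a6, a7, a8, a9⟩ := good_seq2 (n := 1) hU e
    (fun _ => w) (fun _ => d) (fun _ => h) (Φ := fun _ => 0) measurable_const (fun _ => by simp)
    (by simp) hz₀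
  refine ⟨V, a1, a5, ?_⟩
  filter_upwards [a9] with z h1 hzV
  obtain ⟨b1, -⟩ := h1 hzV
  exact tendsto_nhds_unique (b1 0) ((hd z (a3 (a4 hzV))).comp (seq_right a6 a7))

theorem hasDerivAt_right {F : ℂ → ℂ} {F' z : ℂ} (h : HasDerivAt F F' z) (e : ℂ) :
    Tendsto (fun t : ℝ => t⁻¹ • (F (z + t • e) - F z)) (𝓝[>] 0) (𝓝 (e * F')) := by
  have h1 : HasFDerivAt F ((ContinuousLinearMap.toSpanSingleton ℂ F').restrictScalars ℝ) z :=
    h.hasFDerivAt.restrictScalars ℝ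
  have h2 : HasDerivAt (fun t : ℝ => z + t • e) e 0 := by
    have := ((hasDerivAt_id (0:ℝ)).smul_const e).const_add z
    simpa using this
  have h3 : HasDerivAt (fun t : ℝ => F (z + t • e)) (e * F') 0 := by
    have h1' : HasFDerivAt F ((ContinuousLinearMap.toSpanSingleton ℂ F').restrictScalars ℝ)
        (z + (0:ℝ) • e) := by simpa using h1
    have := h1'.comp_hasDerivAt (0:ℝ) h2
    simpa [Function.comp_def] using this
  have h4 := h3.tendsto_slope_zero_right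
  simpa using h4

theorem N_right {F : ℂ → ℂ} {F' z : ℂ} (hz : F z ≠ 0) {e : ℂ}
    (h : Tendsto (fun t : ℝ => t⁻¹ • (F (z + t • e) - F z)) (𝓝[>] 0) (𝓝 F')) :
    Tendsto (fun t : ℝ => t⁻¹ • (N (F (z + t • e)) - N (F z))) (𝓝[>] 0) (𝓝 (dN (F z) F')) := by
  obtain ⟨L, hL, hLw⟩ := hasDeriv_N hz
  rw [← hLw]
  have h1 : Tendsto (fun t : ℝ => F (z + t • e) - F z) (𝓝[>] 0) (𝓝 0) := by
    have h0 : Tendsto (fun t : ℝ => t) (𝓝[>] 0) (𝓝 0) :=
      tendsto_id.mono_left nhdsWithin_le_nhds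
    have := h0.smul h
    rw [zero_smul] at this
    refine this.congr' ?_
    filter_upwards [self_mem_nhdsWithin] with t ht
    rw [smul_smul, mul_inv_cancel₀ (ne_of_gt ht), one_smul]
  have h2 := (hL.hasFDerivWithinAt (s := univ)).lim (c := fun t : ℝ => t⁻¹)
    (d := fun t => F (z + t • e) - F z) h1 (Eventually.of_forall fun _ => mem_univ _) h
  simpa using h2

theorem re_right {φ : ℝ → ℂ} {φ' : ℝ → ℂ} (hφ : ∀ x, HasDerivAt φ (φ' x) x) (z : ℂ) (j : Fin 2) :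
    Tendsto (fun t : ℝ => t⁻¹ • (φ (z + t • dir j).re - φ z.re)) (𝓝[>] 0)
      (𝓝 (if j = 0 then φ' z.re else 0)) := by
  fin_cases j
  · have h1 := (hφ z.re).tendsto_slope_zero_right
    refine h1.congr fun t => ?_
    have : (z + t • dir 0).re = z.re + t := by simp [dir]
    show t⁻¹ • (φ (z.re + t) - φ z.re) = t⁻¹ • (φ (z + t • dir 0).re - φ z.re)
    rw [this]
  · have : ∀ t : ℝ, (z + t • dir 1).re = z.re := by intro t; simp [dir]
    show Tendsto (fun t : ℝ => t⁻¹ • (φ (z + t • dir 1).re - φ z.re)) (𝓝[>] 0) (𝓝 0)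
    simp only [this, sub_self, smul_zero]
    exact tendsto_const_nhds

theorem minus_one {U : Set ℂ} (hU : IsOpen U) {φ φ' : ℝ → ℂ} (hφ : ∀ x, HasDerivAt φ (φ' x) x)
    {v v' s' e' : ℂ → ℂ} {j : Fin 2} (cv : CW U (dir j) v v')
    (cs : CW U (dir j) (fun z => φ z.re + v z) s')
    (ce : CW U (dir j) (fun z => N (φ z.re - v z)) e') :
    ∀ᵐ z, z ∈ U → s' z = (if j = 0 then φ' z.re else 0) + v' z ∧
      (φ z.re - v z ≠ 0 → e' z = dN (φ z.re - v z) ((if j = 0 then φ' z.re else 0) - v' z)) ∧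
      (φ z.re - v z = 0 → e' z = 0 ∧ (if j = 0 then φ' z.re else 0) - v' z = 0) := by
  have hz0 := ce.zero_set hU
  apply ae_of_local
  intro z₀ hz₀
  obtain ⟨V, K, t, a1, a2, a3, a4, a5, a6, a7, a8, a9⟩ := good_seq2 (n := 3) hU (dir j)
    ![v, fun z => φ z.re + v z, fun z => N (φ z.re - v z)] ![v', s', e'] (by
      intro i
      fin_cases i
      · exact cv
      · exact cs
      · exact ce) (Φ := fun _ => 0) measurable_const (fun _ => by simp)
    (by simp) hz₀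
  refine ⟨V, a1, a5, ?_⟩
  filter_upwards [a9, hz0] with z h1 h0 hzV
  obtain ⟨b1, -⟩ := h1 hzV
  have c1 : Tendsto (fun k => (t k)⁻¹ • (v (z + t k • dir j) - v z)) atTop (𝓝 (v' z)) := b1 0
  have c2 : Tendsto (fun k => (t k)⁻¹ • ((φ (z + t k • dir j).re + v (z + t k • dir j)) -
      (φ z.re + v z))) atTop (𝓝 (s' z)) := b1 1
  have c3 : Tendsto (fun k => (t k)⁻¹ • (N (φ (z + t k • dir j).re - v (z + t k • dir j)) -
      N (φ z.re - v z))) atTop (𝓝 (e' z)) := b1 2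
  have c4 : Tendsto (fun k => (t k)⁻¹ • (φ (z + t k • dir j).re - φ z.re)) atTop
      (𝓝 (if j = 0 then φ' z.re else 0)) := (re_right hφ z j).comp (seq_right a6 a7)
  have c5 : Tendsto (fun k => (t k)⁻¹ • ((φ (z + t k • dir j).re - v (z + t k • dir j)) -
      (φ z.re - v z))) atTop (𝓝 ((if j = 0 then φ' z.re else 0) - v' z)) := by
    refine (c4.sub c1).congr fun k => ?_
    rw [← smul_sub]
    congr 1
    ring
  refine ⟨?_, ?_, ?_⟩
  · refine tendsto_nhds_unique c2 ((c4.add c1).congr fun k => ?_)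
    rw [← smul_add]
    congr 1
    ring
  · intro hne
    obtain ⟨L, hL, hLw⟩ := hasDeriv_N hne
    have h5 := seq_lim hL a6 a7 c5
    rw [hLw] at h5
    exact tendsto_nhds_unique c3 h5
  · intro heq
    have hN : N (φ z.re - v z) = 0 := by rw [heq, N_zero]
    have he : e' z = 0 := h0 (a3 (a4 hzV)) hN
    refine ⟨he, ?_⟩
    rw [he] at c3
    have c6 : Tendsto (fun k => ‖(t k)⁻¹ • ((φ (z + t k • dir j).re - v (z + t k • dir j)) -
      (φ z.re - v z))‖) atTop (𝓝 0) := by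
      have := c3.norm
      rw [norm_zero] at this
      refine this.congr fun k => ?_
      rw [norm_smul, norm_smul, hN, heq, sub_zero, sub_zero, norm_N]
    have c7 := c5.norm
    exact norm_eq_zero.1 (tendsto_nhds_unique c7 c6)

theorem minus_id {U : Set ℂ} (hU : IsOpen U) {φ φ' : ℝ → ℂ} (hφ : ∀ x, HasDerivAt φ (φ' x) x)
    {v : ℂ → ℂ} {v' s' e' : Fin 2 → ℂ → ℂ} (cv : ∀ j, CW U (dir j) v (v' j))
    (cs : ∀ j, CW U (dir j) (fun z => φ z.re + v z) (s' j))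
    (ce : ∀ j, CW U (dir j) (fun z => N (φ z.re - v z)) (e' j)) :
    ∀ᵐ z, z ∈ U → dt (s' 0 z) (s' 1 z) + 1 / 2 * dt (e' 0 z) (e' 1 z) =
      2 * dt (v' 0 z) (v' 1 z) := by
  filter_upwards [minus_one hU hφ (cv 0) (cs 0) (ce 0), minus_one hU hφ (cv 1) (cs 1) (ce 1)]
    with z h1 h2 hz
  obtain ⟨s0, n0, z0⟩ := h1 hz
  obtain ⟨s1, n1, z1⟩ := h2 hz
  simp only [if_true, one_ne_zero, if_false] at s0 n0 z0 s1 n1 z1
  have key : 1 / 2 * dt (e' 0 z) (e' 1 z) = dt (φ' z.re - v' 0 z) (0 - v' 1 z) := by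
    by_cases h : φ z.re - v z = 0
    · obtain ⟨a, b⟩ := z0 h
      obtain ⟨c, -⟩ := z1 h
      rw [a, b, c, dt_zero_left, dt_zero_left]
      ring
    · rw [n0 h, n1 h, dt_dN h]
      ring
  rw [key, s0, s1, dt_add_sub, dt_zero_right]
  ring

theorem v_exists {U : Set ℂ} (hU : IsOpen U) {f : ℂ → Fin 1 → ℂ} {α : Fin 2 → ℂ → ℝ}
    (hα : Dominates U f α) (j : Fin 2) :
    ∃ v', CW U (dir j) (fun z => f z 0) v' := by
  obtain ⟨Φ, p1, p2, p3, p4, p5⟩ := dom_bound hU.measurableSet hα j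
  have hb := (dom_sob p1 p5).hb
  have hsob := dom_sob p1 p5
  have L1 : ∀ S T : Fin 1 → ℂ, |(S 0).re - (T 0).re| ≤ 1 * G S T := fun S T => by
    rw [G_one, one_mul, ← Complex.sub_re]
    exact Complex.abs_re_le_norm _
  have L2 : ∀ S T : Fin 1 → ℂ, |(S 0).im - (T 0).im| ≤ 1 * G S T := fun S T => by
    rw [G_one, one_mul, ← Complex.sub_im]
    exact Complex.abs_im_le_norm _
  have h0 : MemLp (fun z => G (f z) 0) 2 (volume.restrict U) := (hα.2 0).1
  have m1 : MemLp (fun z => (f z 0).re) 2 (volume.restrict U) := by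
    refine h0.mono (lip_aemeas (L := fun S : Fin 1 → ℂ => (S 0).re) zero_le_one L1
      fun T => (hα.2 T).1.1.aemeasurable).aestronglyMeasurable (Eventually.of_forall fun z => ?_)
    rw [G_one, Real.norm_eq_abs, Real.norm_of_nonneg (norm_nonneg _)]
    simpa using Complex.abs_re_le_norm (f z 0)
  have m2 : MemLp (fun z => (f z 0).im) 2 (volume.restrict U) := by
    refine h0.mono (lip_aemeas (L := fun S : Fin 1 → ℂ => (S 0).im) zero_le_one L2
      fun T => (hα.2 T).1.1.aemeasurable).aestronglyMeasurable (Eventually.of_forall fun z => ?_)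
    rw [G_one, Real.norm_eq_abs, Real.norm_of_nonneg (norm_nonneg _)]
    simpa using Complex.abs_im_le_norm (f z 0)
  obtain ⟨d1, e1, w1⟩ := lip_weak hU p1 p4 hb zero_le_one L1 (memLp_locInt m1)
  obtain ⟨d2, e2, w2⟩ := lip_weak hU p1 p4 hb zero_le_one L2 (memLp_locInt m2)
  refine ⟨fun z => ⟨d1 z, d2 z⟩, ⟨m1, m2, e1.restrict _, e2.restrict _, w1, w2⟩⟩

theorem v_bound {U : Set ℂ} (hU : IsOpen U) {f : ℂ → Fin 1 → ℂ} {α : Fin 2 → ℂ → ℝ}
    (hα : Dominates U f α) (j : Fin 2) {v' : ℂ → ℂ} (cv : CW U (dir j) (fun z => f z 0) v') :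
    ∀ᵐ z, z ∈ U → ‖v' z‖ ^ 2 ≤ α j z ^ 2 := by
  obtain ⟨Φ, p1, p2, p3, p4, p5⟩ := dom_bound hU.measurableSet hα j
  have hb := (dom_sob p1 p5).hb
  apply ae_of_local
  intro z₀ hz₀
  obtain ⟨V, K, t, a1, a2, a3, a4, a5, a6, a7, a8, a9⟩ := good_seq2 (n := 1) hU (dir j)
    (fun _ z => f z 0) (fun _ => v') (fun _ => cv) p1 p2 p4 hz₀
  refine ⟨V, a1, a5, ?_⟩
  have hk : ∀ᵐ z, ∀ k : ℕ, z ∈ V → ENNReal.ofReal (G (f (z + t k • dir j)) (f z)) ≤
      ∫⁻ s in Ioc 0 (t k), Φ (z + s • dir j) := by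
    rw [ae_all_iff]
    intro k
    exact hb V K a1 a2 a3 (t k) (a6 k).le (a8 k)
  filter_upwards [a9, hk, p3] with z h1 h2 h3 hzV
  obtain ⟨b1, r, b2, b3⟩ := h1 hzV
  have c1 := (b1 0).norm
  have hev : ∀ᶠ k in atTop, r k < ⊤ := b2.eventually (gt_mem_nhds (lt_top_iff_ne_top.2 (p2 z)))
  have h5 : ‖v' z‖ ≤ (Φ z).toReal := by
    refine le_of_tendsto_of_tendsto c1 ((ENNReal.tendsto_toReal (p2 z)).comp b2) ?_
    filter_upwards [hev] with k hk
    have h3 := (h2 k hzV).trans (b3 k)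
    rw [ENNReal.ofReal_le_iff_le_toReal (ENNReal.mul_ne_top ENNReal.ofReal_ne_top hk.ne),
      ENNReal.toReal_mul, ENNReal.toReal_ofReal (a6 k).le, G_one] at h3
    rw [norm_smul, Real.norm_of_nonneg (inv_pos.2 (a6 k)).le, inv_mul_le_iff₀ (a6 k)]
    exact h3
  rw [h3 (a3 (a4 hzV)), toReal_enorm, Real.norm_eq_abs] at h5
  rw [← sq_abs (α j z)]
  exact pow_le_pow_left₀ (norm_nonneg _) h5 2

end Pool.Agent.TH300
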