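import Pool.Agent.TH300.Cmp2

/-! The calibration argument. -/

set_option autoImplicit false

open MeasureTheory Metric Set Filter Topology
open scoped ContDiff ENNReal RealInnerProductSpace

namespace Pool.Agent.TH300

theorem CW.congr {U : Set ℂ} (hU : MeasurableSet U) {e : ℂ} {w w₂ d : ℂ → ℂ} (h : CW U e w d)
    (hw : ∀ z ∈ U, w z = w₂ z) : CW U e w₂ d := by
  have hae : ∀ P : ℂ → ℝ, (fun z => P (w z)) =ᵐ[volume.restrict U] fun z => P (w₂ z) := by
    intro P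
    rw [EventuallyEq, ae_restrict_iff' hU]
    exact Eventually.of_forall fun z hz => by rw [hw z hz]
  refine ⟨h.wr.ae_eq (hae Complex.re), h.wi.ae_eq (hae Complex.im), h.dr, h.di, ?_, ?_⟩
  · intro ψ hψ
    rw [← h.hr ψ hψ]
    exact setIntegral_congr_fun hU fun z hz => by simp only [hw z hz]
  · intro ψ hψ
    rw [← h.hi ψ hψ]
    exact setIntegral_congr_fun hU fun z hz => by simp only [hw z hz]

/-- weak derivatives of the two symmetric functions -/
structure HatData (f : ℂ → Fin 2 → ℂ) (s' e' : Fin 2 → ℂ → ℂ) : Prop where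
  cs : ∀ j, CW (ball 0 1) (dir j) (fun z => sm (f z)) (s' j)
  ce : ∀ j, CW (ball 0 1) (dir j) (fun z => et (f z)) (e' j)

/-- regularity of the boundary datum -/
structure Datum (φ φ' : ℝ → ℂ) : Prop where
  hd : ∀ x, HasDerivAt φ (φ' x) x
  ex : ∃ M B : ℝ, 0 ≤ M ∧ (∀ x ∈ Ioo (-1:ℝ) 1, ∀ y ∈ Ioo (-1:ℝ) 1, ‖φ x - φ y‖ ≤ M * |x - y|) ∧
    ∀ x ∈ Ioo (-1:ℝ) 1, ‖φ x‖ ≤ B

variable {φ φ' : ℝ → ℂ}

theorem hatData (hφ : Datum φ φ') {hp : ℂ → Fin 2 → ℂ} {hm : ℂ → Fin 1 → ℂ}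
    (h : IsHalfValued 1 (ball 0 1) φ hp hm) : ∃ s' e', HatData (hat φ hp hm) s' e' := by
  obtain ⟨M, B, hM, hL, hB⟩ := hφ.ex
  have hc : Continuous φ := continuous_iff_continuousAt.2 fun x => (hφ.hd x).continuousAt
  have l1 : ∀ S T : Fin 2 → ℂ, |(sm S).re - (sm T).re| ≤ 2 * G S T := fun S T => by
    rw [← Complex.sub_re]
    exact (Complex.abs_re_le_norm _).trans (sm_lip S T)
  have l2 : ∀ S T : Fin 2 → ℂ, |(sm S).im - (sm T).im| ≤ 2 * G S T := fun S T => by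
    rw [← Complex.sub_im]
    exact (Complex.abs_im_le_norm _).trans (sm_lip S T)
  have l3 : ∀ S T : Fin 2 → ℂ, |(et S).re - (et T).re| ≤ 3 * G S T := fun S T => by
    rw [← Complex.sub_re]
    exact (Complex.abs_re_le_norm _).trans (et_lip S T)
  have l4 : ∀ S T : Fin 2 → ℂ, |(et S).im - (et T).im| ≤ 3 * G S T := fun S T => by
    rw [← Complex.sub_im]
    exact (Complex.abs_im_le_norm _).trans (et_lip S T)
  have w1 := hat_weak hM hL hc hB h (L := fun S => (sm S).re) (by norm_num) l1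
  have w2 := hat_weak hM hL hc hB h (L := fun S => (sm S).im) (by norm_num) l2
  have w3 := hat_weak hM hL hc hB h (L := fun S => (et S).re) (by norm_num) l3
  have w4 := hat_weak hM hL hc hB h (L := fun S => (et S).im) (by norm_num) l4
  have m1 := hat_memLp hc hB h (L := fun S => (sm S).re) (by norm_num) l1
  have m2 := hat_memLp hc hB h (L := fun S => (sm S).im) (by norm_num) l2
  have m3 := hat_memLp hc hB h (L := fun S => (et S).re) (by norm_num) l3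
  have m4 := hat_memLp hc hB h (L := fun S => (et S).im) (by norm_num) l4
  choose d1 a1 b1 using w1
  choose d2 a2 b2 using w2
  choose d3 a3 b3 using w3
  choose d4 a4 b4 using w4
  exact ⟨fun j z => ⟨d1 j z, d2 j z⟩, fun j z => ⟨d3 j z, d4 j z⟩,
    ⟨fun j => ⟨m1, m2, a1 j, a2 j, b1 j, b2 j⟩, fun j => ⟨m3, m4, a3 j, a4 j, b3 j, b4 j⟩⟩⟩

/-- the calibrating integrand -/
noncomputable def jac (s' e' : Fin 2 → ℂ → ℂ) (z : ℂ) : ℝ :=
  dt (s' 0 z) (s' 1 z) + 1 / 2 * dt (e' 0 z) (e' 1 z)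

theorem dt_int {U : Set ℂ} {w d d' : ℂ → ℂ} {e e' : ℂ} (h : CW U e w d) (h' : CW U e' w d') :
    Integrable (fun z => dt (d z) (d' z)) (volume.restrict U) := by
  unfold dt
  exact isub (intMul h.dr h'.di) (intMul h.di h'.dr)

theorem jac_int {f : ℂ → Fin 2 → ℂ} {s' e' : Fin 2 → ℂ → ℂ} (h : HatData f s' e') :
    Integrable (jac s' e') (volume.restrict (ball 0 1)) :=
  (dt_int (h.cs 0) (h.cs 1)).add ((dt_int (h.ce 0) (h.ce 1)).const_mul _)

theorem int_dt_eq {C : Set ℂ} (hC : IsCompact C) (hCU : C ⊆ ball 0 1) {w w₂ : ℂ → ℂ}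
    {d d₂ : Fin 2 → ℂ → ℂ} (h : ∀ j, CW (ball 0 1) (dir j) w (d j))
    (h₂ : ∀ j, CW (ball 0 1) (dir j) w₂ (d₂ j))
    (he : ∀ᵐ z, z ∈ ball (0:ℂ) 1 → z ∉ C → w₂ z = w z) :
    ∫ z in ball 0 1, dt (d₂ 0 z) (d₂ 1 z) = ∫ z in ball 0 1, dt (d 0 z) (d 1 z) := by
  have key := det_eq isOpen_ball hC hCU (e := dir) (h 0).wr (h 0).wi (h₂ 0).wr (h₂ 0).wi
    (fun j => (h j).dr) (fun j => (h j).di) (fun j => (h₂ j).dr) (fun j => (h₂ j).di)
    (fun j => (h j).hr) (fun j => (h j).hi) (fun j => (h₂ j).hr) (fun j => (h₂ j).hi)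
    (by filter_upwards [he] with z a b c; rw [a b c])
    (by filter_upwards [he] with z a b c; rw [a b c])
  have e1 : ∀ a b : ℂ, dt a b = a.re * b.im - b.re * a.im := fun a b => by
    unfold dt; ring
  simp only [e1]
  exact key

theorem jac_eq {C : Set ℂ} (hC : IsCompact C) (hCU : C ⊆ ball 0 1) {hp gp : ℂ → Fin 2 → ℂ}
    {hm gm : ℂ → Fin 1 → ℂ} {s₁ e₁ s₂ e₂ : Fin 2 → ℂ → ℂ}
    (h1 : HatData (hat φ gp gm) s₁ e₁) (h2 : HatData (hat φ hp hm) s₂ e₂)
    (ep : ∀ᵐ z ∂(volume.restrict (side (ball 0 1) 1)), z ∉ C → G (hp z) (gp z) = 0)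
    (em : ∀ᵐ z ∂(volume.restrict (side (ball 0 1) (-1))), z ∉ C → G (hm z) (gm z) = 0) :
    ∫ z in ball 0 1, jac s₂ e₂ z = ∫ z in ball 0 1, jac s₁ e₁ z := by
  rw [ae_restrict_iff' (isOpen_side isOpen_ball _).measurableSet] at ep em
  have hG : ∀ᵐ z, z ∈ ball (0:ℂ) 1 → z ∉ C → G (hat φ hp hm z) (hat φ gp gm z) = 0 := by
    filter_upwards [ep, em, ae_im_ne] with z h1 h2 h3 hz hzC
    rcases lt_or_gt_of_ne h3 with hneg | hpos
    · rw [hat, hat, if_neg (by linarith), if_neg (by linarith)]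
      apply le_antisymm _ (G_nonneg _ _)
      refine (G_cons _ _ _ _).trans ?_
      rw [sub_self, norm_zero, zero_add, h2 ⟨hz, by linarith⟩ hzC]
    · rw [hat, hat, if_pos hpos, if_pos hpos]
      exact h1 ⟨hz, by linarith⟩ hzC
  have es : ∀ᵐ z, z ∈ ball (0:ℂ) 1 → z ∉ C → sm (hat φ hp hm z) = sm (hat φ gp gm z) := by
    filter_upwards [hG] with z h1 hz hzC
    have := sm_lip (hat φ hp hm z) (hat φ gp gm z)
    rw [h1 hz hzC, mul_zero] at this
    exact sub_eq_zero.1 (norm_le_zero_iff.1 this)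
  have ee : ∀ᵐ z, z ∈ ball (0:ℂ) 1 → z ∉ C → et (hat φ hp hm z) = et (hat φ gp gm z) := by
    filter_upwards [hG] with z h1 hz hzC
    have := et_lip (hat φ hp hm z) (hat φ gp gm z)
    rw [h1 hz hzC, mul_zero] at this
    exact sub_eq_zero.1 (norm_le_zero_iff.1 this)
  unfold jac
  rw [integral_add (dt_int (h2.cs 0) (h2.cs 1)) ((dt_int (h2.ce 0) (h2.ce 1)).const_mul _),
    integral_add (dt_int (h1.cs 0) (h1.cs 1)) ((dt_int (h1.ce 0) (h1.ce 1)).const_mul _),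
    integral_const_mul, integral_const_mul, int_dt_eq hC hCU h1.cs h2.cs es,
    int_dt_eq hC hCU h1.ce h2.ce ee]

theorem hat_side1 {hp : ℂ → Fin 2 → ℂ} {hm : ℂ → Fin 1 → ℂ} {z : ℂ}
    (hz : z ∈ side (ball 0 1) 1) : hat φ hp hm z = hp z := by
  rw [hat, if_pos (by have := hz.2; linarith)]

theorem hat_side2 {hp : ℂ → Fin 2 → ℂ} {hm : ℂ → Fin 1 → ℂ} {z : ℂ}
    (hz : z ∈ side (ball 0 1) (-1)) : hat φ hp hm z = Fin.cons (φ z.re) (hm z) := by
  rw [hat, if_neg (by have := hz.2; linarith)]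

/-- on the side with one value -/
theorem minus_jac (hφ : Datum φ φ') {hp : ℂ → Fin 2 → ℂ} {hm : ℂ → Fin 1 → ℂ}
    {s' e' v' : Fin 2 → ℂ → ℂ} (h : HatData (hat φ hp hm) s' e')
    (cv : ∀ j, CW (side (ball 0 1) (-1)) (dir j) (fun z => hm z 0) (v' j)) :
    ∀ᵐ z, z ∈ side (ball 0 1) (-1) → jac s' e' z = 2 * dt (v' 0 z) (v' 1 z) := by
  have ho : IsOpen (side (ball (0:ℂ) 1) (-1)) := isOpen_side isOpen_ball _
  refine minus_id ho hφ.hd cv (fun j => ((h.cs j).mono (side_subset _ _)).congr ho.measurableSet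
    fun z hz => ?_) fun j => ((h.ce j).mono (side_subset _ _)).congr ho.measurableSet fun z hz => ?_
  · rw [hat_side2 hz]; rfl
  · rw [hat_side2 hz]; rfl

theorem lower_bound (hφ : Datum φ φ') {hp : ℂ → Fin 2 → ℂ} {hm : ℂ → Fin 1 → ℂ}
    {s' e' : Fin 2 → ℂ → ℂ} (h : HatData (hat φ hp hm) s' e') {α β : Fin 2 → ℂ → ℝ}
    (hα : Dominates (side (ball 0 1) 1) hp α) (hβ : Dominates (side (ball 0 1) (-1)) hm β) :
    ENNReal.ofReal (∫ z in ball 0 1, jac s' e' z) ≤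
      (∑ j, ∫⁻ z in side (ball 0 1) 1, ENNReal.ofReal (α j z ^ 2)) +
        ∑ j, ∫⁻ z in side (ball 0 1) (-1), ENNReal.ofReal (β j z ^ 2) := by
  have ho : ∀ σ, IsOpen (side (ball (0:ℂ) 1) σ) := fun σ => isOpen_side isOpen_ball _
  have b1 : ∀ᵐ z, z ∈ side (ball 0 1) 1 → jac s' e' z ≤ α 0 z ^ 2 + α 1 z ^ 2 := by
    refine lower_plus (ho 1) hα (fun j => ((h.cs j).mono (side_subset _ _)).congr
      (ho 1).measurableSet fun z hz => ?_) fun j => ((h.ce j).mono (side_subset _ _)).congr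
      (ho 1).measurableSet fun z hz => ?_
    · rw [hat_side1 hz]
    · rw [hat_side1 hz]
  have hv : ∀ j, ∃ v', CW (side (ball 0 1) (-1)) (dir j) (fun z => hm z 0) v' := fun j =>
    v_exists (ho _) hβ j
  choose v' cv using hv
  have b2 : ∀ᵐ z, z ∈ side (ball 0 1) (-1) → jac s' e' z ≤ β 0 z ^ 2 + β 1 z ^ 2 := by
    filter_upwards [minus_jac hφ h cv, v_bound (ho _) hβ 0 (cv 0), v_bound (ho _) hβ 1 (cv 1)]
      with z h1 h2 h3 hz
    rw [h1 hz]
    have := dt_le (v' 0 z) (v' 1 z)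
    linarith [h2 hz, h3 hz]
  have hint : ∀ (σ : ℝ) (γ : Fin 2 → ℂ → ℝ),
      (∀ j, MemLp (γ j) 2 (volume.restrict (side (ball 0 1) σ))) →
      (∀ᵐ z, z ∈ side (ball 0 1) σ → jac s' e' z ≤ γ 0 z ^ 2 + γ 1 z ^ 2) →
      ENNReal.ofReal (∫ z in side (ball 0 1) σ, jac s' e' z) ≤
        ∑ j, ∫⁻ z in side (ball 0 1) σ, ENNReal.ofReal (γ j z ^ 2) := by
    intro σ γ hγ hb
    have hi : ∀ j, Integrable (fun z => γ j z ^ 2) (volume.restrict (side (ball 0 1) σ)) :=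
      fun j => (hγ j).integrable_sq
    have e1 : ∀ j, ∫⁻ z in side (ball 0 1) σ, ENNReal.ofReal (γ j z ^ 2) =
        ENNReal.ofReal (∫ z in side (ball 0 1) σ, γ j z ^ 2) := fun j =>
      (ofReal_integral_eq_lintegral_ofReal (hi j) (Eventually.of_forall fun z => sq_nonneg _)).symm
    rw [Fin.sum_univ_two, e1, e1, ← ENNReal.ofReal_add (integral_nonneg fun z => sq_nonneg _)
      (integral_nonneg fun z => sq_nonneg _), ← integral_add (hi 0) (hi 1)]
    apply ENNReal.ofReal_le_ofReal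
    refine integral_mono_ae ((jac_int h).mono_measure (Measure.restrict_mono (side_subset _ _) le_rfl))
      ((hi 0).add (hi 1)) ?_
    rw [EventuallyLE, ae_restrict_iff' (ho σ).measurableSet]
    exact hb
  rw [int_sides isOpen_ball (Or.inl rfl) (jac_int h)]
  refine (ENNReal.ofReal_add_le).trans (add_le_add (hint 1 α hα.1 b1) (hint (-1) β hβ.1 b2))

theorem calib (hφ : Datum φ φ') {gp : ℂ → Fin 2 → ℂ} {gm : ℂ → Fin 1 → ℂ}
    {F₁ F₂ F₁' F₂' v v' : ℂ → ℂ} (hg : IsHalfValued 1 (ball 0 1) φ gp gm)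
    (h1 : ∀ z ∈ side (ball 0 1) 1, HasDerivAt F₁ (F₁' z) z)
    (h2 : ∀ z ∈ side (ball 0 1) 1, HasDerivAt F₂ (F₂' z) z)
    (h3 : ∀ z ∈ side (ball 0 1) (-1), HasDerivAt v (v' z) z)
    (hne : ∀ z ∈ side (ball 0 1) 1, F₁ z ≠ F₂ z)
    (hgp : ∀ z, gp z = ![F₁ z, F₂ z]) (hgm : ∀ z, gm z = ![v z])
    (E1 : Dir (side (ball 0 1) 1) gp ≤
      ∫⁻ z in side (ball 0 1) 1, ENNReal.ofReal (2 * ‖F₁' z‖ ^ 2 + 2 * ‖F₂' z‖ ^ 2))
    (E2 : Dir (side (ball 0 1) (-1)) gm ≤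
      ∫⁻ z in side (ball 0 1) (-1), ENNReal.ofReal (2 * ‖v' z‖ ^ 2)) :
    IsDirMinimizing 1 (ball 0 1) φ gp gm := by
  refine ⟨hg, fun hp hm hh => ?_⟩
  rintro ⟨C, hC, hCU, ep, em⟩
  have ho : ∀ σ, IsOpen (side (ball (0:ℂ) 1) σ) := fun σ => isOpen_side isOpen_ball _
  obtain ⟨s₁, e₁, H1⟩ := hatData hφ hg
  obtain ⟨s₂, e₂, H2⟩ := hatData hφ hh
  have hJ := jac_eq hC hCU H1 H2 ep em
  have hlow : ENNReal.ofReal (∫ z in ball 0 1, jac s₂ e₂ z) ≤
      Dir (side (ball 0 1) 1) hp + Dir (side (ball 0 1) (-1)) hm := by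
    unfold Dir
    simp only [ENNReal.iInf_add, ENNReal.add_iInf]
    refine le_iInf₂ fun α hα => le_iInf₂ fun β hβ => ?_
    first
      | exact lower_bound hφ H2 hα hβ
      | exact lower_bound hφ H2 hβ hα
  refine le_trans ?_ hlow
  rw [hJ]
  -- the energy of `g`
  have j1 : ∀ᵐ z, z ∈ side (ball 0 1) 1 → jac s₁ e₁ z = 2 * ‖F₁' z‖ ^ 2 + 2 * ‖F₂' z‖ ^ 2 := by
    have c1 : ∀ j, ∀ᵐ z, z ∈ side (ball 0 1) 1 → s₁ j z = dir j * (F₁' z + F₂' z) := by
      intro j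
      have c : CW (side (ball 0 1) 1) (dir j) (fun z => F₁ z + F₂ z) (s₁ j) :=
        ((H1.cs j).mono (side_subset _ _)).congr (ho 1).measurableSet fun z hz => by
          rw [hat_side1 hz, hgp]; rfl
      exact c.classical (ho 1) fun z hz => hasDerivAt_right ((h1 z hz).add (h2 z hz)) _
    have c2 : ∀ j, ∀ᵐ z, z ∈ side (ball 0 1) 1 →
        e₁ j z = dN (F₁ z - F₂ z) (dir j * (F₁' z - F₂' z)) := by
      intro j
      have c : CW (side (ball 0 1) 1) (dir j) (fun z => N (F₁ z - F₂ z)) (e₁ j) :=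
        ((H1.ce j).mono (side_subset _ _)).congr (ho 1).measurableSet fun z hz => by
          rw [hat_side1 hz, hgp]; rfl
      exact c.classical (ho 1) fun z hz => N_right (F := fun z => F₁ z - F₂ z)
        (sub_ne_zero.2 (hne z hz)) (hasDerivAt_right ((h1 z hz).sub (h2 z hz)) _)
    filter_upwards [c1 0, c1 1, c2 0, c2 1] with z a b c d hz
    rw [jac, a hz, b hz, c hz, d hz, dt_dN (sub_ne_zero.2 (hne z hz))]
    have e0 : dir 0 = 1 := rfl
    have e1 : dir 1 = Complex.I := rfl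
    rw [e0, e1, one_mul, one_mul, dt_I, dt_I]
    have : ∀ p q : ℂ, ‖p + q‖ ^ 2 + ‖p - q‖ ^ 2 = 2 * ‖p‖ ^ 2 + 2 * ‖q‖ ^ 2 := by
      intro p q
      rw [← Complex.normSq_eq_norm_sq, ← Complex.normSq_eq_norm_sq, ← Complex.normSq_eq_norm_sq,
        ← Complex.normSq_eq_norm_sq, Complex.normSq_add, Complex.normSq_sub]
      ring
    linarith [this (F₁' z) (F₂' z)]
  have j2 : ∀ᵐ z, z ∈ side (ball 0 1) (-1) → jac s₁ e₁ z = 2 * ‖v' z‖ ^ 2 := by
    obtain ⟨-, ⟨β, hβ⟩, -⟩ := hg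
    have hv : ∀ j, ∃ v', CW (side (ball 0 1) (-1)) (dir j) (fun z => gm z 0) v' := fun j =>
      v_exists (ho _) hβ j
    choose w' cv using hv
    have c1 : ∀ j, ∀ᵐ z, z ∈ side (ball 0 1) (-1) → w' j z = dir j * v' z := by
      intro j
      have c : CW (side (ball 0 1) (-1)) (dir j) v (w' j) :=
        (cv j).congr (ho _).measurableSet fun z hz => by
          rw [hgm]; rfl
      exact c.classical (ho _) fun z hz => hasDerivAt_right (h3 z hz) _
    filter_upwards [minus_jac hφ H1 cv, c1 0, c1 1] with z a b c hz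
    rw [a hz, b hz, c hz]
    have e0 : dir 0 = 1 := rfl
    have e1 : dir 1 = Complex.I := rfl
    rw [e0, e1, one_mul, dt_I]
  have i1 : ∀ σ, Integrable (jac s₁ e₁) (volume.restrict (side (ball 0 1) σ)) := fun σ =>
    (jac_int H1).mono_measure (Measure.restrict_mono (side_subset _ _) le_rfl)
  have k1 : ∫⁻ z in side (ball 0 1) 1, ENNReal.ofReal (2 * ‖F₁' z‖ ^ 2 + 2 * ‖F₂' z‖ ^ 2) =
      ENNReal.ofReal (∫ z in side (ball 0 1) 1, jac s₁ e₁ z) := by
    rw [ofReal_integral_eq_lintegral_ofReal (i1 1)]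
    · refine setLIntegral_congr_fun_ae (ho 1).measurableSet ?_
      filter_upwards [j1] with z a hz
      rw [a hz]
    · rw [EventuallyLE, ae_restrict_iff' (ho 1).measurableSet]
      filter_upwards [j1] with z a hz
      rw [a hz]
      simp only [Pi.zero_apply]
      positivity
  have k2 : ∫⁻ z in side (ball 0 1) (-1), ENNReal.ofReal (2 * ‖v' z‖ ^ 2) =
      ENNReal.ofReal (∫ z in side (ball 0 1) (-1), jac s₁ e₁ z) := by
    rw [ofReal_integral_eq_lintegral_ofReal (i1 (-1))]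
    · refine setLIntegral_congr_fun_ae (ho _).measurableSet ?_
      filter_upwards [j2] with z a hz
      rw [a hz]
    · rw [EventuallyLE, ae_restrict_iff' (ho _).measurableSet]
      filter_upwards [j2] with z a hz
      rw [a hz]
      simp only [Pi.zero_apply]
      positivity
  rw [k1] at E1
  rw [k2] at E2
  refine (add_le_add E1 E2).trans ?_
  rw [int_sides isOpen_ball (Or.inl rfl) (jac_int H1), ENNReal.ofReal_add]
  · refine integral_nonneg_of_ae ?_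
    rw [EventuallyLE, ae_restrict_iff' (ho _).measurableSet]
    filter_upwards [j1] with z a hz
    rw [a hz]
    simp only [Pi.zero_apply]
    positivity
  · refine integral_nonneg_of_ae ?_
    rw [EventuallyLE, ae_restrict_iff' (ho _).measurableSet]
    filter_upwards [j2] with z a hz
    rw [a hz]
    simp only [Pi.zero_apply]
    positivity

end Pool.Agent.TH300
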