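import Mathlib

/-! The Cantor set. -/

set_option autoImplicit false

open MeasureTheory Metric Set Filter Topology
open scoped ContDiff ENNReal

namespace Pool.Agent.TH300

/-- the ratio -/
noncomputable def la : ℝ := 1 / 256

theorem la_pos : 0 < la := by norm_num [la]
theorem la_lt : la < 1 := by norm_num [la]

/-- the points of the Cantor set -/
noncomputable def cc (w : ℕ → Bool) : ℝ := ∑' k, if w k then la ^ (k + 1) else 0

/-- finite sums -/
noncomputable def xx (A : Finset ℕ) : ℝ := ∑ k ∈ A, la ^ (k + 1)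

/-- the Cantor set -/
def KK : Set ℝ := range cc

theorem geo_sum (n : ℕ) : HasSum (fun k : ℕ => la ^ (k + n + 1)) (la ^ n / 255) := by
  have h := (hasSum_geometric_of_lt_one la_pos.le la_lt).mul_left (la ^ (n + 1))
  have e1 : la ^ (n + 1) * (1 - la)⁻¹ = la ^ n / 255 := by
    rw [pow_succ]; norm_num [la]; ring
  rw [e1] at h
  refine h.congr_fun fun k => ?_
  rw [← pow_add]
  congr 1
  ring

theorem term_bound (w : ℕ → Bool) (k : ℕ) :
    0 ≤ (if w k then la ^ (k + 1) else 0) ∧ (if w k then la ^ (k + 1) else 0) ≤ la ^ (k + 1) := by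
  have := pow_pos la_pos (k + 1)
  split_ifs
  · exact ⟨this.le, le_rfl⟩
  · exact ⟨le_rfl, this.le⟩

theorem cc_summable (w : ℕ → Bool) : Summable fun k => if w k then la ^ (k + 1) else 0 := by
  refine Summable.of_nonneg_of_le (fun k => (term_bound w k).1) (fun k => (term_bound w k).2) ?_
  simpa using (geo_sum 0).summable

theorem cc_split (w : ℕ → Bool) (n : ℕ) :
    cc w = xx ((Finset.range n).filter fun k => w k = true) +
      ∑' k, if w (k + n) then la ^ (k + n + 1) else 0 := by
  rw [cc, ← (cc_summable w).sum_add_tsum_nat_add n, xx, Finset.sum_filter]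

theorem tail_bound (w : ℕ → Bool) (n : ℕ) :
    0 ≤ (∑' k, if w (k + n) then la ^ (k + n + 1) else 0) ∧
      (∑' k, if w (k + n) then la ^ (k + n + 1) else 0) ≤ la ^ n / 255 := by
  have hs : Summable fun k => if w (k + n) then la ^ (k + n + 1) else 0 :=
    (summable_nat_add_iff n).2 (cc_summable w)
  refine ⟨tsum_nonneg fun k => (term_bound w (k + n)).1, ?_⟩
  rw [← (geo_sum n).tsum_eq]
  exact hs.tsum_le_tsum (fun k => (term_bound w (k + n)).2) (geo_sum n).summable

theorem cc_cont : Continuous cc := by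
  refine continuous_tsum (u := fun k => la ^ (k + 1)) (fun k => ?_) ?_ fun k w => ?_
  · have : (fun w : ℕ → Bool => if w k then la ^ (k + 1) else 0) =
        (fun b : Bool => if b then la ^ (k + 1) else 0) ∘ fun w : ℕ → Bool => w k := rfl
    rw [this]
    exact continuous_of_discreteTopology.comp (continuous_apply k)
  · simpa using (geo_sum 0).summable
  · rw [Real.norm_of_nonneg (term_bound w k).1]
    exact (term_bound w k).2

theorem KK_compact : IsCompact KK := isCompact_range cc_cont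

theorem xx_mem (A : Finset ℕ) : xx A ∈ KK := by
  refine ⟨fun k => decide (k ∈ A), ?_⟩
  rw [cc, xx, tsum_eq_sum (s := A)]
  · refine Finset.sum_congr rfl fun k hk => ?_
    simp [hk]
  · intro k hk
    simp [hk]

theorem xx_mem' {n : ℕ} {A : Finset ℕ} (hA : A ⊆ Finset.range n) : xx A + la ^ n / 255 ∈ KK := by
  refine ⟨fun k => decide (k ∈ A ∨ n ≤ k), ?_⟩
  rw [cc_split _ n]
  congr 1
  · congr 1
    ext k
    simp only [Finset.mem_filter, Finset.mem_range, decide_eq_true_eq]
    constructor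
    · rintro ⟨h1, h2 | h2⟩
      · exact h2
      · omega
    · intro h
      exact ⟨Finset.mem_range.1 (hA h), Or.inl h⟩
  · rw [← (geo_sum n).tsum_eq]
    congr 1
    ext k
    simp

theorem near (w : ℕ → Bool) (n : ℕ) :
    xx ((Finset.range n).filter fun k => w k = true) ≤ cc w ∧
      cc w ≤ xx ((Finset.range n).filter fun k => w k = true) + la ^ n / 255 := by
  rw [cc_split w n]
  have := tail_bound w n
  constructor <;> linarith

/-- the `n`-th approximation -/
def DD (n : ℕ) : Set ℝ :=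
  ⋃ A ∈ (Finset.range n).powerset, Icc (xx A) (xx A + la ^ n / 255)

theorem mem_DD {n : ℕ} {t : ℝ} :
    t ∈ DD n ↔ ∃ A ⊆ Finset.range n, xx A ≤ t ∧ t ≤ xx A + la ^ n / 255 := by
  simp only [DD, mem_iUnion, Finset.mem_powerset, mem_Icc, exists_prop]

theorem DD_closed (n : ℕ) : IsClosed (DD n) :=
  isClosed_biUnion_finset fun _ _ => isClosed_Icc

theorem DD_succ (n : ℕ) : DD (n + 1) ⊆ DD n := by
  intro t ht
  rw [mem_DD] at ht ⊢
  obtain ⟨A, hA, h1, h2⟩ := ht
  have hp := pow_pos la_pos n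
  have hs : la ^ (n + 1) = la ^ n / 256 := by rw [pow_succ]; simp [la]; ring
  by_cases hn : n ∈ A
  · refine ⟨A.erase n, fun k hk => ?_, ?_, ?_⟩
    · have hk1 := Finset.mem_of_mem_erase hk
      have hk2 := Finset.ne_of_mem_erase hk
      have hk3 := Finset.mem_range.1 (hA hk1)
      exact Finset.mem_range.2 (by omega)
    · have e1 : xx A = xx (A.erase n) + la ^ (n + 1) := by
        rw [xx, xx, Finset.sum_erase_add A _ hn]
      rw [e1] at h1
      have := pow_pos la_pos (n + 1)
      linarith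
    · have e1 : xx A = xx (A.erase n) + la ^ (n + 1) := by
        rw [xx, xx, Finset.sum_erase_add A _ hn]
      rw [e1, hs] at h2
      linarith
  · refine ⟨A, fun k hk => ?_, h1, ?_⟩
    · have hk3 := Finset.mem_range.1 (hA hk)
      have hk2 : k ≠ n := fun h => hn (h ▸ hk)
      exact Finset.mem_range.2 (by omega)
    · rw [hs] at h2
      linarith

theorem DD_anti {m n : ℕ} (h : m ≤ n) : DD n ⊆ DD m := by
  induction n, h using Nat.le_induction with
  | base => exact subset_rfl
  | succ n _ ih => exact (DD_succ n).trans ih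

theorem KK_sub (n : ℕ) : KK ⊆ DD n := by
  rintro _ ⟨w, rfl⟩
  rw [mem_DD]
  exact ⟨_, Finset.filter_subset _ _, near w n⟩

theorem la_pow_tendsto : Tendsto (fun n : ℕ => la ^ n / 255) atTop (𝓝 0) := by
  have := (tendsto_pow_atTop_nhds_zero_of_lt_one la_pos.le la_lt).div_const 255
  rwa [zero_div] at this

theorem mem_KK_of {t : ℝ} (h : ∀ n, t ∈ DD n) : t ∈ KK := by
  have hc : IsClosed KK := KK_compact.isClosed
  rw [← hc.closure_eq]
  rw [Metric.mem_closure_iff]
  intro ε hε
  obtain ⟨n, hn⟩ := (la_pow_tendsto.eventually (gt_mem_nhds hε)).exists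
  obtain ⟨A, hA, h1, h2⟩ := mem_DD.1 (h n)
  refine ⟨xx A, xx_mem A, ?_⟩
  rw [Real.dist_eq, abs_lt]
  constructor <;> linarith

/-- level of a point outside the Cantor set -/
noncomputable def lev (t : ℝ) : ℕ := sInf {n | t ∉ DD n}

theorem lev_spec {t : ℝ} (ht : t ∉ KK) : t ∉ DD (lev t) := by
  have hne : {n | t ∉ DD n}.Nonempty := by
    by_contra h
    apply ht
    apply mem_KK_of
    intro n
    by_contra h2
    exact h ⟨n, h2⟩
  exact Nat.sInf_mem hne

theorem lev_lt {t : ℝ} {m : ℕ} (h : m < lev t) : t ∈ DD m := by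
  by_contra h2
  have : lev t ≤ m := Nat.sInf_le h2
  omega

theorem lev_eq {t : ℝ} {m : ℕ} (h1 : t ∉ DD m) (h2 : ∀ k < m, t ∈ DD k) : lev t = m := by
  apply le_antisymm
  · exact Nat.sInf_le h1
  · by_contra h3
    rw [not_le] at h3
    have h4 : ({n | t ∉ DD n} : Set ℕ).Nonempty := ⟨m, h1⟩
    have h5 : lev t ∈ {n | t ∉ DD n} := Nat.sInf_mem h4
    exact h5 (h2 _ h3)

theorem lev_loc {t : ℝ} (ht : t ∉ KK) : ∀ᶠ s in 𝓝 t, lev s = lev t := by
  have h1 : ∀ᶠ s in 𝓝 t, s ∉ DD (lev t) :=
    (DD_closed _).isOpen_compl.mem_nhds (lev_spec ht)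
  have h2 : ∀ᶠ s in 𝓝 t, ∀ k < lev t, s ∈ DD k := by
    by_cases h0 : lev t = 0
    · refine Eventually.of_forall fun s k hk => ?_
      omega
    · have h3 : t ∈ DD (lev t - 1) := lev_lt (by omega)
      obtain ⟨A, hA, a1, a2⟩ := mem_DD.1 h3
      have b1 : xx A < t := lt_of_le_of_ne a1 fun h => ht (h ▸ xx_mem A)
      have b2 : t < xx A + la ^ (lev t - 1) / 255 :=
        lt_of_le_of_ne a2 fun h => ht (by rw [h]; exact xx_mem' hA)
      filter_upwards [Ioo_mem_nhds b1 b2] with s hs k hk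
      have : s ∈ DD (lev t - 1) := mem_DD.2 ⟨A, hA, hs.1.le, hs.2.le⟩
      exact DD_anti (by omega) this
  filter_upwards [h1, h2] with s a b
  exact lev_eq a b

theorem xx_int {n : ℕ} {A : Finset ℕ} (hA : A ⊆ Finset.range n) :
    ∃ N : ℤ, xx A = N * la ^ n := by
  refine ⟨∑ k ∈ A, (256 : ℤ) ^ (n - (k + 1)), ?_⟩
  rw [xx]
  push_cast
  rw [Finset.sum_mul]
  refine Finset.sum_congr rfl fun k hk => ?_
  have hk' := Finset.mem_range.1 (hA hk)
  have e1 : la ^ n = la ^ (n - (k + 1)) * la ^ (k + 1) := by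
    rw [← pow_add]; congr 1; omega
  rw [e1, ← mul_assoc, ← mul_pow]
  have : (256 : ℝ) * la = 1 := by norm_num [la]
  rw [this, one_pow, one_mul]

/-- gap points near a point of the Cantor set -/
theorem gap (w : ℕ → Bool) (m : ℕ) :
    ∃ t : ℝ, t ∉ KK ∧ lev t = m + 1 ∧ |t - cc w| ≤ 2 * la ^ m := by
  set A := (Finset.range m).filter fun k => w k = true with hA
  have hAm : A ⊆ Finset.range m := Finset.filter_subset _ _
  have hp := pow_pos la_pos m
  have hs : la ^ (m + 1) = la ^ m / 256 := by rw [pow_succ]; simp [la]; ring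
  set t := xx A + la ^ (m + 1) / 2 with ht
  have h1 : t ∈ DD m := by
    refine mem_DD.2 ⟨A, hAm, ?_, ?_⟩
    · rw [ht, hs]; linarith
    · rw [ht, hs]; linarith
  have h2 : t ∉ DD (m + 1) := by
    intro h
    obtain ⟨B, hB, b1, b2⟩ := mem_DD.1 h
    obtain ⟨NB, hNB⟩ := xx_int hB
    obtain ⟨NA, hNA⟩ := xx_int (n := m + 1) (hAm.trans (Finset.range_subset_range.2 (by omega)))
    have hp1 := pow_pos la_pos (m + 1)
    rw [hNB] at b1 b2
    rw [ht, hNA] at b1 b2
    have c1 : (NB : ℝ) ≤ NA + 1 / 2 := by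
      by_contra hcon
      rw [not_le] at hcon
      nlinarith
    have c2 : (NA : ℝ) + 1 / 2 ≤ NB + 1 / 255 := by
      by_contra hcon
      rw [not_le] at hcon
      nlinarith
    have c3 : NB ≤ NA := by
      have : (NB : ℝ) < NA + 1 := by linarith
      have : NB < NA + 1 := by exact_mod_cast this
      omega
    have c4 : NA < NB := by
      have : (NA : ℝ) < NB := by linarith
      exact_mod_cast this
    omega
  refine ⟨t, fun h => h2 (KK_sub _ h), lev_eq h2 fun k hk => DD_anti (by omega) h1, ?_⟩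
  have := near w m
  rw [← hA] at this
  rw [abs_le, ht, hs]
  constructor <;> linarith

theorem KK_Icc : KK ⊆ Icc 0 (1 / 255) := by
  intro t ht
  obtain ⟨A, hA, h1, h2⟩ := mem_DD.1 (KK_sub 0 ht)
  have : A = ∅ := by simpa using hA
  subst this
  simp [xx] at h1 h2
  exact ⟨h1, by simpa using h2⟩

theorem lev_out {t : ℝ} (ht : t ∉ Icc (0:ℝ) (1 / 255)) : lev t = 0 := by
  refine lev_eq (fun h => ht ?_) fun k hk => by omega
  obtain ⟨A, hA, h1, h2⟩ := mem_DD.1 h
  have : A = ∅ := by simpa using hA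
  subst this
  simp [xx] at h1 h2
  exact ⟨h1, by simpa using h2⟩

end Pool.Agent.TH300
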