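import Pool.Agent.TH300.Cn1

/-! The function `q`. -/

set_option autoImplicit false

open MeasureTheory Metric Set Filter Topology
open scoped ContDiff ENNReal

namespace Pool.Agent.TH300

/-- `(-iu)^{-1/2}` -/
noncomputable def Bk (u : ℂ) : ℂ := (-Complex.I * u) ^ (-(1 / 2) : ℂ)

theorem zre (u : ℂ) : (-Complex.I * u).re = u.im := by simp
theorem znorm (u : ℂ) : ‖-Complex.I * u‖ = ‖u‖ := by simp

theorem z_slit {u : ℂ} (hu : u ≠ 0) (h : -‖u‖ / 2 ≤ u.im) : -Complex.I * u ∈ Complex.slitPlane := by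
  rw [Complex.mem_slitPlane_iff]
  by_contra hcon
  push Not at hcon
  obtain ⟨h1, h2⟩ := hcon
  have h3 : ‖-Complex.I * u‖ = |(-Complex.I * u).re| := by
    rw [← Complex.abs_re_eq_norm.2 h2]
  rw [znorm, zre] at h3
  rw [zre] at h1
  rw [abs_of_nonpos h1] at h3
  have : 0 < ‖u‖ := norm_pos_iff.2 hu
  linarith

theorem Bk_diff {u : ℂ} (hu : u ≠ 0) (h : -‖u‖ / 2 ≤ u.im) : DifferentiableAt ℂ Bk u := by
  unfold Bk
  exact (differentiableAt_id.const_mul _).cpow (differentiableAt_const _) (z_slit hu h)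

theorem Bk_sq {u : ℂ} : Bk u ^ 2 = (-Complex.I * u)⁻¹ := by
  unfold Bk
  rw [← Complex.cpow_nat_mul]
  have : ((2 : ℕ) : ℂ) * (-(1 / 2) : ℂ) = -1 := by norm_num
  rw [this, Complex.cpow_neg_one]

theorem Bk_norm (u : ℂ) : ‖Bk u‖ ^ 2 = ‖u‖⁻¹ := by
  rw [← norm_pow, Bk_sq, norm_inv, znorm]

theorem Bk_re_nonneg {u : ℂ} (hu : u ≠ 0) : 0 ≤ (Bk u).re := by
  have h0 : -Complex.I * u ≠ 0 := mul_ne_zero (neg_ne_zero.2 Complex.I_ne_zero) hu
  unfold Bk
  rw [Complex.cpow_def_of_ne_zero h0, Complex.exp_re]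
  refine mul_nonneg (Real.exp_pos _).le ?_
  have e1 : (Complex.log (-Complex.I * u) * (-(1 / 2) : ℂ)).im = -(Complex.arg (-Complex.I * u) / 2) := by
    rw [Complex.mul_im, Complex.log_im]
    simp
    ring
  rw [e1, Real.cos_neg]
  refine Real.cos_nonneg_of_neg_pi_div_two_le_of_le ?_ ?_
  · have := Complex.neg_pi_lt_arg (-Complex.I * u)
    linarith
  · have := Complex.arg_le_pi (-Complex.I * u)
    linarith

theorem Bk_re_sq {u : ℂ} (hu : u ≠ 0) (h : -‖u‖ / 2 ≤ u.im) : ‖u‖⁻¹ / 4 ≤ (Bk u).re ^ 2 := by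
  have h0 : 0 < ‖u‖ := norm_pos_iff.2 hu
  have h1 : (Bk u).re ^ 2 + (Bk u).im ^ 2 = ‖u‖⁻¹ := by
    rw [← Bk_norm, ← Complex.normSq_eq_norm_sq, Complex.normSq_apply]; ring
  have h2 : (Bk u).re ^ 2 - (Bk u).im ^ 2 = u.im * (‖u‖⁻¹) ^ 2 := by
    have h3 : (Bk u ^ 2).re = (Bk u).re ^ 2 - (Bk u).im ^ 2 := by
      rw [pow_two, Complex.mul_re]; ring
    rw [← h3, Bk_sq, Complex.inv_re, Complex.normSq_eq_norm_sq, znorm, zre]
    field_simp
  have h4 : -(‖u‖⁻¹) / 2 ≤ u.im * (‖u‖⁻¹) ^ 2 := by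
    have h5 : 0 < ‖u‖⁻¹ := inv_pos.2 h0
    have h6 := mul_le_mul_of_nonneg_right h (by positivity : 0 ≤ (‖u‖⁻¹) ^ 2)
    have h7 : -‖u‖ / 2 * (‖u‖⁻¹) ^ 2 = -(‖u‖⁻¹) / 2 := by field_simp
    linarith
  linarith

/-- the Cantor set in the plane -/
def KC : Set ℂ := (fun x : ℝ => (x : ℂ)) '' KK

theorem KC_compact : IsCompact KC := KK_compact.image Complex.continuous_ofReal

theorem KC_ne : KC.Nonempty := ⟨_, ⟨_, ⟨fun _ => false, rfl⟩, rfl⟩⟩

theorem mem_KC {x : ℝ} : (x : ℂ) ∈ KC ↔ x ∈ KK := by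
  constructor
  · rintro ⟨y, hy, h⟩
    have : y = x := Complex.ofReal_injective h
    exact this ▸ hy
  · intro h
    exact ⟨x, h, rfl⟩

theorem KC_im {k : ℂ} (h : k ∈ KC) : k.im = 0 := by
  obtain ⟨x, -, rfl⟩ := h
  simp

/-- distance to the Cantor set -/
noncomputable def dk (z : ℂ) : ℝ := infDist z KC

theorem dk_cont : Continuous dk := continuous_infDist_pt _

theorem dk_nonneg (z : ℂ) : 0 ≤ dk z := infDist_nonneg

theorem dk_le {z k : ℂ} (hk : k ∈ KC) : dk z ≤ ‖z - k‖ := by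
  rw [← dist_eq_norm]
  exact infDist_le_dist_of_mem hk

theorem dk_exists (z : ℂ) : ∃ w : ℕ → Bool, dk z = ‖z - (cc w : ℂ)‖ := by
  obtain ⟨k, hk, h⟩ := KC_compact.exists_infDist_eq_dist KC_ne z
  obtain ⟨x, ⟨w, rfl⟩, rfl⟩ := hk
  exact ⟨w, by rw [dk, h, dist_eq_norm]⟩

theorem dk_pos {z : ℂ} (h : z ∉ KC) : 0 < dk z := by
  obtain ⟨w, hw⟩ := dk_exists z
  rw [hw]
  refine norm_pos_iff.2 fun h0 => h ?_
  rw [sub_eq_zero.1 h0]
  exact mem_KC.2 ⟨w, rfl⟩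

theorem dk_tri (z w : ℂ) : dk z ≤ dk w + ‖z - w‖ := by
  rw [← dist_eq_norm]
  exact infDist_le_infDist_add_dist

/-- the domain of `q` -/
def RR : Set ℂ := {z | -2 * z.im < dk z}

theorem RR_open : IsOpen RR := isOpen_lt (continuous_const.mul Complex.continuous_im) dk_cont

theorem im_le_dk {z : ℂ} (h : 0 ≤ z.im) : z.im ≤ dk z := by
  obtain ⟨w, hw⟩ := dk_exists z
  rw [hw]
  have h1 := Complex.abs_im_le_norm (z - (cc w : ℂ))
  rw [Complex.sub_im, Complex.ofReal_im, sub_zero, abs_of_nonneg h] at h1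
  exact h1

theorem RR_pos {z : ℂ} (h : z ∈ RR) : 0 < dk z := by
  have h1 : -2 * z.im < dk z := h
  rcases lt_trichotomy z.im 0 with h2 | h2 | h2
  · linarith
  · rw [h2] at h1; linarith
  · linarith [im_le_dk h2.le]

theorem RR_notMem {z : ℂ} (h : z ∈ RR) : z ∉ KC := by
  intro hk
  have h1 := RR_pos h
  have h2 := dk_le (z := z) hk
  simp at h2
  linarith

theorem mem_RR {z : ℂ} (h : 0 ≤ z.im) (hk : z ∉ KC) : z ∈ RR := by
  show -2 * z.im < dk z
  have := dk_pos hk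
  linarith

theorem good {z k : ℂ} (h : z ∈ RR) (hk : k ∈ KC) : z - k ≠ 0 ∧ -‖z - k‖ / 2 ≤ (z - k).im := by
  have h1 : -2 * z.im < dk z := h
  have h2 := dk_le (z := z) hk
  refine ⟨fun h0 => ?_, ?_⟩
  · have h3 := RR_pos h
    rw [h0, norm_zero] at h2
    linarith
  · rw [Complex.sub_im, KC_im hk, sub_zero]
    linarith

theorem ball_RR {z : ℂ} (h : 0 ≤ z.im) {w : ℂ} (hw : ‖w - z‖ ≤ dk z / 4) (hk : z ∉ KC) :
    w ∈ RR ∧ dk w ≤ 5 / 4 * dk z := by
  have h1 := dk_tri z w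
  rw [norm_sub_rev] at h1
  have h2 := dk_tri w z
  have h3 := Complex.abs_im_le_norm (w - z)
  rw [Complex.sub_im] at h3
  have h4 := (abs_le.1 h3).1
  have h5 := dk_pos hk
  refine ⟨?_, by linarith⟩
  show -2 * w.im < dk w
  linarith

/-- level sums -/
noncomputable def TT (n : ℕ) (z : ℂ) : ℂ :=
  (1 / 4 : ℂ) ^ n * ∑ A ∈ (Finset.range n).powerset, Bk (z - (xx A : ℂ))

/-- the exponent -/
noncomputable def SS (z : ℂ) : ℂ := ∑' n, TT n z

theorem xxC (A : Finset ℕ) : (xx A : ℂ) ∈ KC := mem_KC.2 (xx_mem A)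

theorem Bk_le {z k : ℂ} {δ : ℝ} (hδ : 0 < δ) (h : δ ≤ ‖z - k‖) : ‖Bk (z - k)‖ ≤ Real.sqrt (δ⁻¹) := by
  apply Real.le_sqrt_of_sq_le
  rw [Bk_norm]
  exact inv_anti₀ hδ h

theorem TT_le {n : ℕ} {z : ℂ} {δ : ℝ} (hδ : 0 < δ) (h : δ ≤ dk z) :
    ‖TT n z‖ ≤ (1 / 2) ^ n * Real.sqrt (δ⁻¹) := by
  unfold TT
  rw [norm_mul]
  have h1 : ‖∑ A ∈ (Finset.range n).powerset, Bk (z - (xx A : ℂ))‖ ≤ 2 ^ n * Real.sqrt (δ⁻¹) := by
    refine (norm_sum_le _ _).trans ?_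
    refine (Finset.sum_le_card_nsmul _ _ (Real.sqrt (δ⁻¹)) fun A _ => ?_).trans (le_of_eq ?_)
    · exact Bk_le hδ (h.trans (dk_le (xxC A)))
    · rw [Finset.card_powerset, Finset.card_range, nsmul_eq_mul]
      push_cast
      ring
  have h2 : ‖((1 / 4 : ℂ)) ^ n‖ = (1 / 4) ^ n := by
    rw [norm_pow]; norm_num
  rw [h2]
  calc (1 / 4 : ℝ) ^ n * ‖∑ A ∈ (Finset.range n).powerset, Bk (z - (xx A : ℂ))‖ ≤
        (1 / 4 : ℝ) ^ n * (2 ^ n * Real.sqrt (δ⁻¹)) := by gcongr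
    _ = (1 / 2) ^ n * Real.sqrt (δ⁻¹) := by
      rw [← mul_assoc, ← mul_pow]; norm_num

theorem TT_summable {z : ℂ} (h : 0 < dk z) : Summable fun n => TT n z := by
  refine Summable.of_norm_bounded (g := fun n => (1 / 2 : ℝ) ^ n * Real.sqrt ((dk z)⁻¹)) ?_
    fun n => TT_le h le_rfl
  exact (summable_geometric_of_lt_one (by norm_num) (by norm_num)).mul_right _

theorem TT_diff (n : ℕ) {z : ℂ} (h : z ∈ RR) : DifferentiableAt ℂ (TT n) z := by
  unfold TT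
  refine DifferentiableAt.const_mul ?_ _
  refine DifferentiableAt.fun_sum fun A _ => ?_
  obtain ⟨h1, h2⟩ := good h (xxC A)
  exact (Bk_diff h1 h2).comp z (differentiableAt_id.sub_const _)

theorem SS_diff {z : ℂ} (h : z ∈ RR) : DifferentiableAt ℂ SS z := by
  set δ := dk z / 2 with hδ
  have hδ0 : 0 < δ := by have := RR_pos h; positivity
  have hU : IsOpen (RR ∩ {w | δ < dk w}) := RR_open.inter (isOpen_lt continuous_const dk_cont)
  have hz : z ∈ RR ∩ {w | δ < dk w} := ⟨h, by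
    have := RR_pos h
    show δ < dk z
    rw [hδ]; linarith⟩
  have hd : DifferentiableOn ℂ SS (RR ∩ {w | δ < dk w}) := by
    refine Complex.differentiableOn_tsum_of_summable_norm
      (u := fun n => (1 / 2 : ℝ) ^ n * Real.sqrt (δ⁻¹)) ?_ (fun n w hw => ?_) hU fun n w hw => ?_
    · exact (summable_geometric_of_lt_one (by norm_num) (by norm_num)).mul_right _
    · exact (TT_diff n hw.1).differentiableWithinAt
    · exact TT_le hδ0 hw.2.le
  exact (hd z hz).differentiableAt (hU.mem_nhds hz)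

theorem TT_re_nonneg (n : ℕ) {z : ℂ} (h : z ∈ RR) : 0 ≤ (TT n z).re := by
  unfold TT
  have e : ((1 / 4 : ℂ)) ^ n = (((1 / 4 : ℝ) ^ n : ℝ) : ℂ) := by push_cast; ring
  rw [e, Complex.re_ofReal_mul, Complex.re_sum]
  refine mul_nonneg (by positivity) (Finset.sum_nonneg fun A _ => ?_)
  exact Bk_re_nonneg (good h (xxC A)).1

theorem TT_re_ge {n : ℕ} {z : ℂ} (h : z ∈ RR) (hd : dk z ≤ la ^ n) : 4 ^ n / 3 ≤ (TT n z).re := by
  obtain ⟨w, hw⟩ := dk_exists z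
  set A := (Finset.range n).filter fun k => w k = true with hA
  have hAm : A ∈ (Finset.range n).powerset := Finset.mem_powerset.2 (Finset.filter_subset _ _)
  have hp := pow_pos la_pos n
  have h1 : ‖z - (xx A : ℂ)‖ ≤ 2 * la ^ n := by
    have h2 : ‖z - (xx A : ℂ)‖ ≤ ‖z - (cc w : ℂ)‖ + ‖((cc w - xx A : ℝ) : ℂ)‖ := by
      calc ‖z - (xx A : ℂ)‖ = ‖(z - (cc w : ℂ)) + ((cc w - xx A : ℝ) : ℂ)‖ := by
            congr 1; push_cast; ring
        _ ≤ _ := norm_add_le _ _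
    have h3 : ‖((cc w - xx A : ℝ) : ℂ)‖ ≤ la ^ n / 255 := by
      rw [Complex.norm_real, Real.norm_eq_abs, abs_le]
      have := near w n
      rw [← hA] at this
      constructor <;> linarith
    rw [← hw] at h2
    linarith
  obtain ⟨g1, g2⟩ := good h (xxC A)
  have h4 : (16 ^ n / 3 : ℝ) ≤ (Bk (z - (xx A : ℂ))).re := by
    have h5 := Bk_re_sq g1 g2
    have h6 : (16 ^ n / 3 : ℝ) ^ 2 ≤ (Bk (z - (xx A : ℂ))).re ^ 2 := by
      refine le_trans ?_ h5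
      have h7 : (2 * la ^ n)⁻¹ ≤ ‖z - (xx A : ℂ)‖⁻¹ := inv_anti₀ (norm_pos_iff.2 g1) h1
      have h8 : (la ^ n)⁻¹ = 256 ^ n := by
        rw [← inv_pow]; norm_num [la]
      have h9 : (2 * la ^ n)⁻¹ = 256 ^ n / 2 := by
        rw [mul_inv, h8]; ring
      have h10 : (16 ^ n / 3 : ℝ) ^ 2 = 256 ^ n / 9 := by
        rw [div_pow, ← pow_mul, mul_comm n 2, pow_mul]; norm_num
      rw [h9] at h7
      rw [h10]
      have : (0:ℝ) < 256 ^ n := by positivity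
      linarith
    exact le_of_sq_le_sq h6 (Bk_re_nonneg g1)
  unfold TT
  have e : ((1 / 4 : ℂ)) ^ n = (((1 / 4 : ℝ) ^ n : ℝ) : ℂ) := by push_cast; ring
  rw [e, Complex.re_ofReal_mul, Complex.re_sum]
  have h5 : (Bk (z - (xx A : ℂ))).re ≤
      ∑ A ∈ (Finset.range n).powerset, (Bk (z - (xx A : ℂ))).re :=
    Finset.single_le_sum (f := fun A => (Bk (z - (xx A : ℂ))).re)
      (fun B _ => Bk_re_nonneg (good h (xxC B)).1) hAm
  calc (4 ^ n / 3 : ℝ) = (1 / 4) ^ n * (16 ^ n / 3) := by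
        rw [← mul_div_assoc, ← mul_pow]; norm_num
    _ ≤ (1 / 4) ^ n * (Bk (z - (xx A : ℂ))).re := by gcongr
    _ ≤ _ := by gcongr

theorem SS_re {z : ℂ} (h : z ∈ RR) : (SS z).re = ∑' n, (TT n z).re :=
  Complex.re_tsum (TT_summable (RR_pos h))

theorem SS_re_nonneg {z : ℂ} (h : z ∈ RR) : 0 ≤ (SS z).re := by
  rw [SS_re h]
  exact tsum_nonneg fun n => TT_re_nonneg n h

theorem SS_re_ge {n : ℕ} {z : ℂ} (h : z ∈ RR) (hd : dk z ≤ la ^ n) : 4 ^ n / 3 ≤ (SS z).re := by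
  rw [SS_re h]
  refine (TT_re_ge h hd).trans ?_
  have hs : Summable fun n => (TT n z).re :=
    (Complex.hasSum_re (TT_summable (RR_pos h)).hasSum).summable
  exact hs.le_tsum n fun m _ => TT_re_nonneg m h

open Classical in
/-- the function `q` -/
noncomputable def qq (z : ℂ) : ℂ := if z ∈ RR then Complex.exp (-SS z) else 0

theorem qq_ne {z : ℂ} (h : z ∈ RR) : qq z ≠ 0 := by
  rw [qq, if_pos h]
  exact Complex.exp_ne_zero _

theorem qq_diff {z : ℂ} (h : z ∈ RR) : DifferentiableAt ℂ qq z := by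
  have h1 : DifferentiableAt ℂ (fun z => Complex.exp (-SS z)) z := (SS_diff h).neg.cexp
  refine h1.congr_of_eventuallyEq ?_
  filter_upwards [RR_open.mem_nhds h] with w hw
  rw [qq, if_pos hw]

theorem qq_norm {z : ℂ} (h : z ∈ RR) : ‖qq z‖ = Real.exp (-(SS z).re) := by
  rw [qq, if_pos h, Complex.norm_exp, Complex.neg_re]

theorem qq_bound (M : ℕ) : ∃ C : ℝ, 0 < C ∧ ∀ z ∈ RR, ‖qq z‖ ≤ C * dk z ^ M := by
  set C₀ : ℝ := (4 * M).factorial * 3 ^ (4 * M) * 256 ^ M with hC₀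
  have hC0 : 0 < C₀ := by positivity
  refine ⟨max C₀ 1, lt_max_of_lt_left hC0, fun z hz => ?_⟩
  have hd := RR_pos hz
  rw [qq_norm hz]
  by_cases h1 : 1 ≤ dk z
  · have h2 : Real.exp (-(SS z).re) ≤ 1 := Real.exp_le_one_iff.2 (by linarith [SS_re_nonneg hz])
    have h3 : 1 ≤ dk z ^ M := one_le_pow₀ h1
    have h4 : (1:ℝ) ≤ max C₀ 1 := le_max_right _ _
    nlinarith
  · rw [not_le] at h1
    obtain ⟨n, hn1, hn2⟩ := exists_nat_pow_near_of_lt_one hd h1.le la_pos la_lt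
    have h2 := SS_re_ge hz hn2
    set x : ℝ := 4 ^ n / 3 with hx
    have hx0 : 0 < x := by positivity
    have h3 : Real.exp (-(SS z).re) ≤ Real.exp (-x) := Real.exp_le_exp.2 (by linarith)
    have h4 := Real.pow_div_factorial_le_exp x hx0.le (4 * M)
    have h5 : Real.exp (-x) ≤ (4 * M).factorial / x ^ (4 * M) := by
      rw [Real.exp_neg, inv_le_comm₀ (Real.exp_pos _) (by positivity), inv_div]
      exact h4
    have h6 : ((4 * M).factorial : ℝ) / x ^ (4 * M) =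
        (4 * M).factorial * 3 ^ (4 * M) * (la ^ n) ^ M := by
      have e1 : x ^ (4 * M) = (256 ^ n) ^ M / 3 ^ (4 * M) := by
        rw [hx, div_pow]
        congr 1
        rw [← pow_mul, ← pow_mul, show n * (4 * M) = 4 * (n * M) by ring, pow_mul]
        norm_num
      have e2 : (la ^ n) ^ M = ((256 ^ n) ^ M)⁻¹ := by
        rw [← inv_pow, ← inv_pow]; norm_num [la]
      rw [e1, e2]
      field_simp
    have h7 : (la ^ n) ^ M ≤ 256 ^ M * dk z ^ M := by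
      rw [← mul_pow]
      refine pow_le_pow_left₀ (pow_pos la_pos n).le ?_ M
      have e3 : la ^ (n + 1) = la ^ n / 256 := by rw [pow_succ]; simp [la]; ring
      rw [e3] at hn1
      linarith
    calc Real.exp (-(SS z).re) ≤ (4 * M).factorial * 3 ^ (4 * M) * (la ^ n) ^ M := by
          rw [← h6]; exact h3.trans h5
      _ ≤ (4 * M).factorial * 3 ^ (4 * M) * (256 ^ M * dk z ^ M) := by gcongr
      _ = C₀ * dk z ^ M := by rw [hC₀]; ring
      _ ≤ _ := by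
        apply mul_le_mul_of_nonneg_right (le_max_left _ _) (by positivity)

end Pool.Agent.TH300
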