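import Pool.Agent.TH300.Cn2

/-! Derivatives of `q` and flatness on the Cantor set. -/

set_option autoImplicit false

open MeasureTheory Metric Set Filter Topology
open scoped ContDiff ENNReal

namespace Pool.Agent.TH300

theorem qq_deriv_bound (n m : ℕ) : ∃ C : ℝ, 0 < C ∧ ∀ z : ℂ, 0 ≤ z.im → z ∉ KC →
    ‖iteratedDeriv n qq z‖ ≤ C * dk z ^ m := by
  obtain ⟨C₀, hC0, hC⟩ := qq_bound (n + m)
  refine ⟨n.factorial * C₀ * (5 / 4) ^ (n + m) * 4 ^ n, by positivity, fun z hz hk => ?_⟩
  have hd := dk_pos hk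
  have hin : ∀ w, ‖w - z‖ ≤ dk z / 4 → w ∈ RR ∧ dk w ≤ 5 / 4 * dk z := fun w hw => ball_RR hz hw hk
  have h := Complex.norm_iteratedDeriv_le_of_forall_mem_sphere_norm_le (f := qq) (c := z)
    (R := dk z / 4) (C := C₀ * (5 / 4 * dk z) ^ (n + m)) n (by positivity) ?_ ?_
  · refine h.trans (le_of_eq ?_)
    have h1 : dk z ≠ 0 := hd.ne'
    rw [mul_pow, pow_add (dk z)]
    field_simp
    rw [← mul_pow]
    congr 1
    ring
  · have hcl : closure (ball z (dk z / 4)) ⊆ RR := by
      intro w hw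
      have := closure_ball_subset_closedBall hw
      rw [mem_closedBall, dist_eq_norm] at this
      exact (hin w this).1
    exact DifferentiableOn.diffContOnCl fun w hw => (qq_diff (hcl hw)).differentiableWithinAt
  · intro w hw
    rw [mem_sphere, dist_eq_norm] at hw
    obtain ⟨a, b⟩ := hin w hw.le
    refine (hC w a).trans ?_
    exact mul_le_mul_of_nonneg_left (pow_le_pow_left₀ (dk_nonneg w) b _) hC0.le

theorem qq_zero {z : ℂ} (h : z ∈ KC) : qq z = 0 := by
  rw [qq, if_neg fun h2 => RR_notMem h2 h]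

theorem qq_up {z : ℂ} (hz : 0 ≤ z.im) :
    Tendsto (fun ε : ℝ => qq (z + ε * Complex.I)) (𝓝[>] 0) (𝓝 (qq z)) := by
  have hc : Tendsto (fun ε : ℝ => z + ε * Complex.I) (𝓝[>] 0) (𝓝 z) := by
    have : Continuous fun ε : ℝ => z + ε * Complex.I := by fun_prop
    have h0 := this.tendsto 0
    rw [Complex.ofReal_zero, zero_mul, add_zero] at h0
    exact h0.mono_left nhdsWithin_le_nhds
  by_cases hk : z ∈ KC
  · rw [qq_zero hk]
    obtain ⟨C, hC0, hC⟩ := qq_bound 1
    have hlim : Tendsto (fun ε : ℝ => C * ε) (𝓝[>] 0) (𝓝 0) := by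
      have := (continuous_const_mul C).tendsto (0:ℝ)
      rw [mul_zero] at this
      exact this.mono_left nhdsWithin_le_nhds
    refine squeeze_zero_norm' ?_ hlim
    filter_upwards [self_mem_nhdsWithin] with ε hε
    have hε' : 0 < ε := hε
    have him : (z + ε * Complex.I).im = ε := by simp [KC_im hk]
    have hR : z + ε * Complex.I ∈ RR := by
      refine mem_RR (by rw [him]; exact hε'.le) fun h => ?_
      have := KC_im h
      rw [him] at this
      linarith
    refine (hC _ hR).trans ?_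
    rw [pow_one]
    refine mul_le_mul_of_nonneg_left ?_ hC0.le
    refine (dk_le hk).trans (le_of_eq ?_)
    simp [abs_of_pos hε']
  · exact (qq_diff (mem_RR hz hk)).continuousAt.tendsto.comp hc

theorem qq_lip : ∃ L : ℝ, 0 ≤ L ∧ ∀ z w : ℂ, 0 ≤ z.im → 0 ≤ w.im → ‖qq z - qq w‖ ≤ L * ‖z - w‖ := by
  obtain ⟨C, hC0, hC⟩ := qq_deriv_bound 1 0
  have hne : ∀ z : ℂ, 0 < z.im → z ∉ KC := fun z hz h => by
    rw [KC_im h] at hz; exact lt_irrefl _ hz
  have hopen : ∀ z w : ℂ, 0 < z.im → 0 < w.im → ‖qq z - qq w‖ ≤ C * ‖z - w‖ := by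
    intro z w hz hw
    have hc : Convex ℝ {z : ℂ | 0 < z.im} := convex_halfSpace_im_gt 0
    refine hc.norm_image_sub_le_of_norm_deriv_le (𝕜 := ℂ) (f := qq) (fun x hx => ?_)
      (fun x hx => ?_) hw hz
    · have hx' : 0 < x.im := hx
      exact qq_diff (mem_RR hx'.le (hne x hx'))
    · have hx' : 0 < x.im := hx
      have := hC x hx'.le (hne x hx')
      rwa [iteratedDeriv_one, pow_zero, mul_one] at this
  refine ⟨C, hC0.le, fun z w hz hw => ?_⟩
  have h1 : Tendsto (fun ε : ℝ => ‖qq (z + ε * Complex.I) - qq (w + ε * Complex.I)‖) (𝓝[>] 0)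
      (𝓝 ‖qq z - qq w‖) := ((qq_up hz).sub (qq_up hw)).norm
  refine le_of_tendsto h1 ?_
  filter_upwards [self_mem_nhdsWithin] with ε hε
  have hε' : 0 < ε := hε
  have h2 := hopen (z + ε * Complex.I) (w + ε * Complex.I) (by simp; linarith) (by simp; linarith)
  have h3 : z + ε * Complex.I - (w + ε * Complex.I) = z - w := by ring
  rwa [h3] at h2

/-- a criterion for smoothness -/
theorem flat {K : Set ℝ} (f : ℕ → ℝ → ℂ) (h0 : ∀ n, ∀ t ∈ K, f n t = 0)
    (h1 : ∀ n, ∀ t ∉ K, HasDerivAt (f n) (f (n + 1) t) t)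
    (h2 : ∀ n, ∃ C : ℝ, ∀ s, ∀ t ∈ K, ‖f n s‖ ≤ C * ‖s - t‖ ^ 2) : ContDiff ℝ ∞ (f 0) := by
  have h3 : ∀ n t, HasDerivAt (f n) (f (n + 1) t) t := by
    intro n t
    by_cases ht : t ∈ K
    · obtain ⟨C, hC⟩ := h2 n
      have h4 : f n =O[𝓝 t] fun s => ‖s - t‖ ^ 2 := by
        refine Asymptotics.IsBigO.of_bound C (Eventually.of_forall fun s => ?_)
        rw [norm_pow, norm_norm]
        exact hC s t ht
      have h5 := h4.hasFDerivAt (𝕜 := ℝ) (by norm_num)
      have h6 := h5.hasDerivAt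
      rw [h0 (n + 1) t ht]
      simpa using h6
    · exact h1 n t ht
  have h4 : ∀ n, iteratedDeriv n (f 0) = f n := by
    intro n
    induction n with
    | zero => rw [iteratedDeriv_zero]
    | succ n ih =>
      rw [iteratedDeriv_succ, ih]
      ext t
      exact (h3 n t).deriv
  refine contDiff_of_differentiable_iteratedDeriv fun m _ => ?_
  rw [h4]
  exact fun t => (h3 m t).differentiableAt

theorem qq_iter {n : ℕ} {z : ℂ} (h : z ∈ RR) :
    HasDerivAt (iteratedDeriv n qq) (iteratedDeriv (n + 1) qq z) z := by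
  have h1 : AnalyticAt ℂ qq z := by
    have : DifferentiableOn ℂ qq RR := fun w hw => (qq_diff hw).differentiableWithinAt
    exact this.analyticAt (RR_open.mem_nhds h)
  have h2 := h1.iterated_deriv n
  rw [← iteratedDeriv_eq_iterate] at h2
  rw [iteratedDeriv_succ]
  exact h2.differentiableAt.hasDerivAt

open Classical in
theorem chi_smooth {χ : ℝ → ℝ} (hχ : ∀ t, |χ t| ≤ 1) (hloc : ∀ t ∉ KK, ∀ᶠ s in 𝓝 t, χ s = χ t) :
    ContDiff ℝ ∞ fun t : ℝ => (χ t : ℂ) * qq t := by
  set f : ℕ → ℝ → ℂ := fun n t => if t ∈ KK then 0 else (χ t : ℂ) * iteratedDeriv n qq t with hf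
  have key : ContDiff ℝ ∞ (f 0) := by
    refine flat (K := KK) f (fun n t ht => by simp only [hf, if_pos ht]) (fun n t ht => ?_)
      fun n => ?_
    · have hR : (t : ℂ) ∈ RR := mem_RR (by simp) fun h => ht (mem_KC.1 h)
      have h1 : HasDerivAt (fun s : ℝ => iteratedDeriv n qq s) (iteratedDeriv (n + 1) qq t) t :=
        (qq_iter hR).comp_ofReal
      have h2 : HasDerivAt (fun s : ℝ => (χ t : ℂ) * iteratedDeriv n qq s)
          ((χ t : ℂ) * iteratedDeriv (n + 1) qq t) t := h1.const_mul _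
      have e : f (n + 1) t = (χ t : ℂ) * iteratedDeriv (n + 1) qq t := by
        simp only [hf, if_neg ht]
      rw [e]
      refine h2.congr_of_eventuallyEq ?_
      filter_upwards [hloc t ht, KK_compact.isClosed.isOpen_compl.mem_nhds ht] with s hs hsK
      have hsK' : s ∉ KK := hsK
      simp only [hf, if_neg hsK', hs]
    · obtain ⟨C, hC0, hC⟩ := qq_deriv_bound n 2
      refine ⟨C, fun s t ht => ?_⟩
      by_cases hs : s ∈ KK
      · simp only [hf, if_pos hs, norm_zero]
        positivity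
      · simp only [hf, if_neg hs]
        rw [norm_mul, Complex.norm_real, Real.norm_eq_abs]
        have h1 := hC (s : ℂ) (by simp) fun h => hs (mem_KC.1 h)
        have h2 : dk (s : ℂ) ≤ ‖s - t‖ := by
          refine (dk_le (mem_KC.2 ht)).trans (le_of_eq ?_)
          rw [← Complex.ofReal_sub, Complex.norm_real]
        calc |χ s| * ‖iteratedDeriv n qq (s : ℂ)‖ ≤ 1 * (C * dk (s : ℂ) ^ 2) := by
              gcongr
              exact hχ s
          _ ≤ C * ‖s - t‖ ^ 2 := by
              rw [one_mul]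
              have := dk_nonneg (s : ℂ)
              gcongr
  have e : (fun t : ℝ => (χ t : ℂ) * qq t) = f 0 := by
    ext t
    symm
    by_cases ht : t ∈ KK
    · simp only [hf, if_pos ht, qq_zero (mem_KC.2 ht), mul_zero]
    · simp only [hf, if_neg ht, iteratedDeriv_zero]
  rw [e]
  exact key

end Pool.Agent.TH300
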