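import Pool.Agent.TH300.Cn1

/-! The Cantor set has positive dimension. -/

set_option autoImplicit false

open MeasureTheory Metric Set Filter Topology
open scoped ContDiff ENNReal NNReal

namespace Pool.Agent.TH300

theorem xx_congr {w w' : ℕ → Bool} {n : ℕ} (h : ∀ k < n, w k = w' k) :
    ((Finset.range n).filter fun k => w k = true) = (Finset.range n).filter fun k => w' k = true := by
  ext k
  simp only [Finset.mem_filter, Finset.mem_range]
  constructor
  · rintro ⟨a, b⟩
    exact ⟨a, by rw [← h k a]; exact b⟩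
  · rintro ⟨a, b⟩
    exact ⟨a, by rw [h k a]; exact b⟩

theorem cc_sep' {w w' : ℕ → Bool} {n : ℕ} (h : ∀ k < n, w k = w' k) (h1 : w n = true)
    (h2 : w' n = false) : la ^ (n + 1) / 2 ≤ cc w - cc w' := by
  have a1 := near w (n + 1)
  have a2 := near w' (n + 1)
  have e1 : xx ((Finset.range (n + 1)).filter fun k => w k = true) =
      xx ((Finset.range n).filter fun k => w k = true) + la ^ (n + 1) := by
    rw [Finset.range_add_one, Finset.filter_insert, if_pos h1, xx, xx, Finset.sum_insert (by simp)]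
    ring
  have e2 : xx ((Finset.range (n + 1)).filter fun k => w' k = true) =
      xx ((Finset.range n).filter fun k => w k = true) := by
    rw [Finset.range_add_one, Finset.filter_insert, if_neg (by rw [h2]; simp), xx_congr h]
  rw [e1] at a1
  rw [e2] at a2
  have := pow_pos la_pos (n + 1)
  linarith

theorem cc_sep {w w' : ℕ → Bool} {n : ℕ} (h : ∀ k < n, w k = w' k) (h1 : w n ≠ w' n) :
    la ^ (n + 1) / 2 ≤ |cc w - cc w'| := by
  by_cases h2 : w n = true
  · have h3 : w' n = false := by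
      rw [h2] at h1
      exact Bool.eq_false_of_not_eq_true fun h => h1 h.symm
    exact (cc_sep' h h2 h3).trans (le_abs_self _)
  · have h2' : w n = false := Bool.eq_false_of_not_eq_true h2
    have h3 : w' n = true := by
      rw [h2'] at h1
      by_contra h4
      exact h1 (Bool.eq_false_of_not_eq_true h4).symm
    rw [abs_sub_comm]
    exact (cc_sep' (fun k hk => (h k hk).symm) h3 h2').trans (le_abs_self _)

theorem first_diff {w w' : ℕ → Bool} (h : w ≠ w') : ∃ n, (∀ k < n, w k = w' k) ∧ w n ≠ w' n := by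
  classical
  have hex : ∃ n, w n ≠ w' n := by
    by_contra hcon
    push Not at hcon
    exact h (funext hcon)
  refine ⟨Nat.find hex, fun k hk => ?_, Nat.find_spec hex⟩
  have := Nat.find_min hex hk
  simpa using this

theorem cc_inj : Function.Injective cc := by
  intro w w' h
  by_contra hne
  obtain ⟨n, h1, h2⟩ := first_diff hne
  have := cc_sep h1 h2
  rw [h, sub_self, abs_zero] at this
  have := pow_pos la_pos (n + 1)
  linarith

/-- the binary value -/
noncomputable def yy (w : ℕ → Bool) : ℝ :=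
  Real.ofDigits (b := 2) fun k => if w k then 1 else 0

theorem yy_holder (w w' : ℕ → Bool) : |yy w - yy w'| ≤ 4 * |cc w - cc w'| ^ (1 / 8 : ℝ) := by
  by_cases h : w = w'
  · subst h
    simp
  obtain ⟨n, h1, h2⟩ := first_diff h
  have h3 := cc_sep h1 h2
  have h4 : |yy w - yy w'| ≤ ((2 : ℝ) ^ n)⁻¹ := by
    have := Real.abs_ofDigits_sub_ofDigits_le (b := 2) (n := n)
      (x := fun k => if w k then 1 else 0) (y := fun k => if w' k then 1 else 0)
      (fun i hi => by simp only [h1 i hi])
    exact_mod_cast this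
  have h5 : ((2 : ℝ) ^ n)⁻¹ / 4 ≤ |cc w - cc w'| ^ (1 / 8 : ℝ) := by
    have h6 : (((2 : ℝ) ^ n)⁻¹ / 4) ^ (8 : ℕ) ≤ |cc w - cc w'| := by
      refine le_trans ?_ h3
      have e1 : (((2 : ℝ) ^ n)⁻¹ / 4) ^ (8 : ℕ) = (la ^ n) / 65536 := by
        rw [div_pow, ← inv_pow, ← pow_mul, mul_comm n 8, pow_mul]
        norm_num [la]
      have hl : la ^ (n + 1) / 2 = la ^ n / 512 := by
        rw [pow_succ, show (la : ℝ) = 1 / 256 from rfl]; ring
      rw [e1, hl]
      have := pow_pos la_pos n
      linarith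
    have h7 : ((2 : ℝ) ^ n)⁻¹ / 4 = ((((2 : ℝ) ^ n)⁻¹ / 4) ^ (8 : ℕ)) ^ (1 / 8 : ℝ) := by
      have := Real.pow_rpow_inv_natCast (x := ((2 : ℝ) ^ n)⁻¹ / 4) (n := 8) (by positivity)
        (by norm_num)
      have e8 : (1 / 8 : ℝ) = ((8 : ℕ) : ℝ)⁻¹ := by norm_num
      rw [e8]
      exact this.symm
    rw [h7]
    exact Real.rpow_le_rpow (by positivity) h6 (by norm_num)
  linarith

open Classical in
/-- binary value of a point of the Cantor set -/
noncomputable def ff (t : ℝ) : ℝ := if h : ∃ w, cc w = t then yy h.choose else 0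

theorem ff_cc (w : ℕ → Bool) : ff (cc w) = yy w := by
  have hex : ∃ w', cc w' = cc w := ⟨w, rfl⟩
  rw [ff, dif_pos hex]
  congr 1
  exact cc_inj hex.choose_spec

theorem ff_holder : HolderOnWith 4 (1 / 8) ff KK := by
  rintro _ ⟨w, rfl⟩ _ ⟨w', rfl⟩
  rw [ff_cc, ff_cc, edist_dist, edist_dist, Real.dist_eq, Real.dist_eq]
  have h := yy_holder w w'
  have h1 : ENNReal.ofReal |yy w - yy w'| ≤ ENNReal.ofReal (4 * |cc w - cc w'| ^ (1 / 8 : ℝ)) :=
    ENNReal.ofReal_le_ofReal h
  refine h1.trans (le_of_eq ?_)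
  rw [ENNReal.ofReal_mul (by norm_num), ENNReal.ofReal_rpow_of_nonneg (abs_nonneg _) (by norm_num)]
  congr 1
  norm_num

theorem Ico_sub : Ico (0:ℝ) 1 ⊆ ff '' KK := by
  intro x hx
  set w : ℕ → Bool := fun k => decide (Real.digits x 2 k = 1) with hw
  refine ⟨cc w, ⟨w, rfl⟩, ?_⟩
  rw [ff_cc, yy]
  have h1 : (fun k => if w k then (1 : Fin 2) else 0) = Real.digits x 2 := by
    ext k
    simp only [hw, decide_eq_true_eq]
    have : ∀ a : Fin 2, (if a = 1 then (1 : Fin 2) else 0) = a := by decide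
    rw [this]
  rw [h1]
  exact Real.ofDigits_digits (by norm_num) hx

theorem dim_pos : 0 < dimH KK := by
  have h1 := ff_holder.dimH_image_le (by norm_num)
  have h2 : dimH (Ico (0:ℝ) 1) ≤ dimH (ff '' KK) := dimH_mono Ico_sub
  have h3 : dimH (Ico (0:ℝ) 1) = 1 := by
    have := Real.dimH_of_nonempty_interior (E := ℝ) (s := Ico (0:ℝ) 1) (by
      rw [interior_Ico]
      exact ⟨1 / 2, by norm_num, by norm_num⟩)
    simpa using this
  rw [h3] at h2
  by_contra h4
  have h5 : dimH KK = 0 := by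
    simpa using h4
  rw [h5, ENNReal.zero_div] at h1
  have := h2.trans h1
  simp at this

theorem dim_pos' : 0 < dimH ((fun x : ℝ => (x : ℂ)) '' KK) := by
  rw [Isometry.dimH_image (f := fun x : ℝ => (x : ℂ)) Complex.isometry_ofReal]
  exact dim_pos

end Pool.Agent.TH300
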