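import Mathlib

/-!
# Definitions for MP_e2f52c_an

Planar case `m = n = 2` of the theory of `(Q - 1/2)`-valued functions, `Q = K + 1`.
The plane `ℝ²` (domain and target) is identified with `ℂ`.
Unordered `Q`-tuples of points are represented by ordered ones, `Fin Q → ℂ`; every notion below
depends on them only through Almgren's distance `G`.
-/

set_option autoImplicit false

open MeasureTheory Metric Set
open scoped ContDiff ENNReal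

namespace Pool.Agent.TH300

/-- Almgren's distance on unordered `Q`-tuples:
`G(∑ [[S i]], ∑ [[T i]]) = min_σ (∑ |S i - T (σ i)|²)^{1/2}`. -/
noncomputable def G {Q : ℕ} (S T : Fin Q → ℂ) : ℝ :=
  ⨅ σ : Equiv.Perm (Fin Q), Real.sqrt (∑ i, ‖S i - T (σ i)‖ ^ 2)

/-- Test functions: `ψ ∈ C_c^∞(U)`. -/
def Test (U : Set ℂ) (ψ : ℂ → ℝ) : Prop :=
  ContDiff ℝ ∞ ψ ∧ HasCompactSupport ψ ∧ tsupport ψ ⊆ U

/-- `d` is the weak derivative of the real function `w` on `U` in the direction `e`. -/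
def IsWeakDeriv (U : Set ℂ) (e : ℂ) (w d : ℂ → ℝ) : Prop :=
  ∀ ψ : ℂ → ℝ, Test U ψ → ∫ z in U, w z * fderiv ℝ ψ z e = - ∫ z in U, d z * ψ z

/-- The two coordinate directions of the plane. -/
noncomputable def dir : Fin 2 → ℂ := ![1, Complex.I]

/-- `f : U → A_Q(ℝ²)` is such that all functions `G(f, T)`, `T ∈ A_Q(ℝ²)`, belong to `W^{1,2}(U)`
and `φ 0, φ 1 ∈ L²(U)` bound their two weak derivatives: `|∂_j G(f, T)| ≤ φ j` a.e. in `U`. -/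
def Dominates {Q : ℕ} (U : Set ℂ) (f : ℂ → Fin Q → ℂ) (φ : Fin 2 → ℂ → ℝ) : Prop :=
  (∀ j, MemLp (φ j) 2 (volume.restrict U)) ∧
  ∀ T : Fin Q → ℂ, MemLp (fun z => G (f z) T) 2 (volume.restrict U) ∧
    ∀ j, ∃ d : ℂ → ℝ, MemLp d 2 (volume.restrict U) ∧
      IsWeakDeriv U (dir j) (fun z => G (f z) T) d ∧ ∀ᵐ z ∂(volume.restrict U), |d z| ≤ φ j z

/-- `f ∈ W^{1,2}(U, A_Q(ℝ²))` (De Lellis and Spadaro's intrinsic definition). -/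
def MemW12 {Q : ℕ} (U : Set ℂ) (f : ℂ → Fin Q → ℂ) : Prop := ∃ φ, Dominates U f φ

/-- The Dirichlet energy of `f` on `U`: the infimum (attained by `φ j = |∂_j f|`, the smallest
bounds) of `∫_U ((φ 0)² + (φ 1)²)` over all pairs `φ` as in `Dominates`. -/
noncomputable def Dir {Q : ℕ} (U : Set ℂ) (f : ℂ → Fin Q → ℂ) : ℝ≥0∞ :=
  ⨅ (φ : Fin 2 → ℂ → ℝ) (_ : Dominates U f φ), ∑ j, ∫⁻ z in U, ENNReal.ofReal (φ j z ^ 2)

/-- The part of `Ω` above (`σ = 1`) or below (`σ = -1`) the real axis. -/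
def side (Ω : Set ℂ) (σ : ℝ) : Set ℂ := {z | z ∈ Ω ∧ 0 < σ * z.im}

/-- The flat interface `γ = Ω ∩ ℝ`. -/
def seg (Ω : Set ℂ) : Set ℝ := {x | (x : ℂ) ∈ Ω}

/-- The real function `w ∈ W^{1,2}(side Ω σ)` has the trace `w₀ ∈ L²(γ)` on `γ = Ω ∩ ℝ`:
the Gauss-Green formula in the direction orthogonal to `γ` holds for all `ψ ∈ C_c^∞(Ω)`. -/
def IsTrace (Ω : Set ℂ) (σ : ℝ) (w : ℂ → ℝ) (w₀ : ℝ → ℝ) : Prop :=
  MemLp w₀ 2 (volume.restrict (seg Ω)) ∧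
  ∃ d : ℂ → ℝ, MemLp d 2 (volume.restrict (side Ω σ)) ∧ ∀ ψ : ℂ → ℝ, Test Ω ψ →
    ∫ z in side Ω σ, (w z * fderiv ℝ ψ z Complex.I + d z * ψ z) =
      - σ * ∫ x in seg Ω, w₀ x * ψ x

/-- `(gp, gm)` is a `(K + 1/2)`-valued function (that is `(Q - 1/2)`-valued, `Q = K + 1`) on `Ω`
with interface `(Ω ∩ ℝ, φ)`: `gp ∈ W^{1,2}(Ω⁺, A_{K+1})`, `gm ∈ W^{1,2}(Ω⁻, A_K)` and the traces on
`Ω ∩ ℝ` satisfy `gp = gm + [[φ]]`; `τ` is the trace of `gm`. -/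
def IsHalfValued (K : ℕ) (Ω : Set ℂ) (φ : ℝ → ℂ) (gp : ℂ → Fin (K + 1) → ℂ)
    (gm : ℂ → Fin K → ℂ) : Prop :=
  MemW12 (side Ω 1) gp ∧ MemW12 (side Ω (-1)) gm ∧
  ∃ τ : ℝ → Fin K → ℂ,
    (∀ T, IsTrace Ω (-1) (fun z => G (gm z) T) (fun x => G (τ x) T)) ∧
    ∀ T, IsTrace Ω 1 (fun z => G (gp z) T) (fun x => G (Fin.cons (φ x) (τ x)) T)

/-- The pair `(gp, gm)` with interface `(Ω ∩ ℝ, φ)` is Dir-minimizing in `Ω`. -/
def IsDirMinimizing (K : ℕ) (Ω : Set ℂ) (φ : ℝ → ℂ) (gp : ℂ → Fin (K + 1) → ℂ)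
    (gm : ℂ → Fin K → ℂ) : Prop :=
  IsHalfValued K Ω φ gp gm ∧
  ∀ (hp : ℂ → Fin (K + 1) → ℂ) (hm : ℂ → Fin K → ℂ), IsHalfValued K Ω φ hp hm →
    (∃ C : Set ℂ, IsCompact C ∧ C ⊆ Ω ∧
      (∀ᵐ z ∂(volume.restrict (side Ω 1)), z ∉ C → G (hp z) (gp z) = 0) ∧
      ∀ᵐ z ∂(volume.restrict (side Ω (-1))), z ∉ C → G (hm z) (gm z) = 0) →
    Dir (side Ω 1) gp + Dir (side Ω (-1)) gm ≤ Dir (side Ω 1) hp + Dir (side Ω (-1)) hm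

/-- `p ∈ Ω ∩ ℝ` is a genuine boundary singularity of `(gp, gm)`: for no ball `B = B_r(p) ⊆ Ω` are
there continuous `u_i : B → ℝ²` (`i < K`) and `u₁ : B⁺ → ℝ²` with
(i) `gp = [[u₁]] + ∑ [[u_i]]` on `B⁺` and `gm = ∑ [[u_i]]` on `B⁻` (almost everywhere);
(ii) for all `i, j` the graphs of `u_i` and `u_j` are disjoint or equal. -/
def IsGenuine (K : ℕ) (Ω : Set ℂ) (gp : ℂ → Fin (K + 1) → ℂ) (gm : ℂ → Fin K → ℂ) (p : ℂ) :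
    Prop :=
  p ∈ Ω ∧ p.im = 0 ∧ ¬ ∃ r : ℝ, 0 < r ∧ ball p r ⊆ Ω ∧
    ∃ (u : Fin K → ℂ → ℂ) (u₁ : ℂ → ℂ), (∀ i, ContinuousOn (u i) (ball p r)) ∧
      ContinuousOn u₁ (side (ball p r) 1) ∧
      (∀ᵐ z ∂(volume.restrict (side (ball p r) 1)),
        G (gp z) (Fin.cons (u₁ z) (fun i => u i z)) = 0) ∧
      (∀ᵐ z ∂(volume.restrict (side (ball p r) (-1))), G (gm z) (fun i => u i z) = 0) ∧
      ∀ i j, (∀ z ∈ ball p r, u i z = u j z) ∨ ∀ z ∈ ball p r, u i z ≠ u j z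

end Pool.Agent.TH300
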