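import Mathlib

/-! Decomposition of a test function into boundary values of holomorphic functions. -/

set_option autoImplicit false

open MeasureTheory Metric Set Filter Topology
open scoped ContDiff ENNReal RealInnerProductSpace FourierTransform SchwartzMap

namespace Pool.Agent.TH300

theorem exp_lip {a b : ℂ} (ha : a.re ≤ 0) (hb : b.re ≤ 0) :
    ‖Complex.exp a - Complex.exp b‖ ≤ ‖a - b‖ := by
  have hc : Convex ℝ {z : ℂ | z.re ≤ 0} := convex_halfSpace_re_le 0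
  have h := hc.norm_image_sub_le_of_norm_deriv_le (𝕜 := ℂ) (f := Complex.exp) (C := 1)
    (fun x _ => Complex.differentiableAt_exp) (fun x hx => by
      rw [Complex.deriv_exp, Complex.norm_exp]
      exact Real.exp_le_one_iff.2 hx) (show b ∈ {z : ℂ | z.re ≤ 0} from hb)
      (show a ∈ {z : ℂ | z.re ≤ 0} from ha)
  rwa [one_mul] at h

/-- one half of the Fourier integral -/
noncomputable def Fs (σ : ℝ) (g : ℝ → ℂ) (z : ℂ) : ℂ :=
  ∫ ξ in {ξ : ℝ | 0 < σ * ξ}, g ξ * Complex.exp (2 * Real.pi * Complex.I * ξ * z)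

theorem exp_re (ξ : ℝ) (z : ℂ) : (2 * Real.pi * Complex.I * ξ * z).re = -(2 * Real.pi * (ξ * z.im)) := by
  simp [Complex.mul_re, Complex.mul_im]
  ring

theorem arg_re {σ : ℝ} (hσ : σ = 1 ∨ σ = -1) {ξ : ℝ} (hξ : 0 < σ * ξ) {z : ℂ} (hz : 0 ≤ σ * z.im) :
    (2 * Real.pi * Complex.I * ξ * z).re ≤ 0 := by
  rw [exp_re]
  have h1 : 0 ≤ ξ * z.im := by
    have : ξ * z.im = (σ * ξ) * (σ * z.im) := by rcases hσ with rfl | rfl <;> ring
    rw [this]
    positivity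
  have := Real.pi_pos
  have : 0 ≤ 2 * Real.pi * (ξ * z.im) := by positivity
  linarith

theorem half_meas (σ : ℝ) : MeasurableSet {ξ : ℝ | 0 < σ * ξ} :=
  measurableSet_lt measurable_const (measurable_const.mul measurable_id)

variable {σ : ℝ} {g : ℝ → ℂ}

theorem Fs_int (hσ : σ = 1 ∨ σ = -1) (hg : Integrable g) {z : ℂ} (hz : 0 ≤ σ * z.im) :
    Integrable (fun ξ : ℝ => g ξ * Complex.exp (2 * Real.pi * Complex.I * ξ * z))
      (volume.restrict {ξ : ℝ | 0 < σ * ξ}) := by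
  refine Integrable.mono' hg.norm.restrict ?_ ?_
  · exact hg.aestronglyMeasurable.restrict.mul (Continuous.aestronglyMeasurable (by fun_prop))
  · rw [ae_restrict_iff' (half_meas σ)]
    refine Eventually.of_forall fun ξ hξ => ?_
    rw [norm_mul, Complex.norm_exp]
    have := Real.exp_le_one_iff.2 (arg_re hσ hξ hz)
    exact mul_le_of_le_one_right (norm_nonneg _) this

theorem Fs_lip (hσ : σ = 1 ∨ σ = -1) (hg : Integrable g) (hg1 : Integrable fun ξ => ‖ξ‖ * ‖g ξ‖)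
    {z w : ℂ} (hz : 0 ≤ σ * z.im) (hw : 0 ≤ σ * w.im) :
    ‖Fs σ g z - Fs σ g w‖ ≤ (∫ ξ : ℝ, 2 * Real.pi * (‖ξ‖ * ‖g ξ‖)) * ‖z - w‖ := by
  unfold Fs
  rw [← integral_sub (Fs_int hσ hg hz) (Fs_int hσ hg hw)]
  refine (norm_integral_le_integral_norm _).trans ?_
  have h1 : Integrable fun ξ : ℝ => 2 * Real.pi * (‖ξ‖ * ‖g ξ‖) * ‖z - w‖ :=
    (hg1.const_mul _).mul_const _
  rw [← integral_mul_const]
  refine le_trans ?_ (setIntegral_le_integral (s := {ξ : ℝ | 0 < σ * ξ}) h1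
    (Eventually.of_forall fun ξ => by positivity))
  refine setIntegral_mono_on ?_ h1.integrableOn (half_meas σ) fun ξ hξ => ?_
  · exact ((Fs_int hσ hg hz).sub (Fs_int hσ hg hw)).norm
  · rw [← mul_sub, norm_mul]
    have h2 := exp_lip (arg_re hσ hξ hz) (arg_re hσ hξ hw)
    rw [← mul_sub, norm_mul] at h2
    have h3 : ‖(2 * Real.pi * Complex.I * ξ : ℂ)‖ = 2 * Real.pi * ‖ξ‖ := by
      simp [abs_of_pos Real.pi_pos]
    rw [h3] at h2
    calc ‖g ξ‖ * ‖Complex.exp (2 * Real.pi * Complex.I * ξ * z) -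
          Complex.exp (2 * Real.pi * Complex.I * ξ * w)‖ ≤ ‖g ξ‖ * (2 * Real.pi * ‖ξ‖ * ‖z - w‖) :=
          mul_le_mul_of_nonneg_left h2 (norm_nonneg _)
      _ = _ := by ring

theorem Fs_deriv (hσ : σ = 1 ∨ σ = -1) (hg : Integrable g)
    (hg1 : Integrable fun ξ => ‖ξ‖ * ‖g ξ‖) {z : ℂ} (hz : 0 < σ * z.im) :
    ∃ F', HasDerivAt (Fs σ g) F' z := by
  have hopen : IsOpen {w : ℂ | 0 < σ * w.im} :=
    isOpen_lt continuous_const (continuous_const.mul Complex.continuous_im)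
  have h := hasDerivAt_integral_of_dominated_loc_of_deriv_le (𝕜 := ℂ)
    (μ := volume.restrict {ξ : ℝ | 0 < σ * ξ}) (s := {w : ℂ | 0 < σ * w.im}) (x₀ := z)
    (F := fun w ξ => g ξ * Complex.exp (2 * Real.pi * Complex.I * ξ * w))
    (F' := fun w ξ => g ξ * (Complex.exp (2 * Real.pi * Complex.I * ξ * w) *
      (2 * Real.pi * Complex.I * ξ)))
    (bound := fun ξ => 2 * Real.pi * (‖ξ‖ * ‖g ξ‖)) (hopen.mem_nhds hz) ?_ (Fs_int hσ hg hz.le) ?_ ?_
    (hg1.const_mul _).restrict ?_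
  · exact ⟨_, h.2⟩
  · exact Eventually.of_forall fun w => hg.aestronglyMeasurable.restrict.mul
      (Continuous.aestronglyMeasurable (by fun_prop))
  · exact hg.aestronglyMeasurable.restrict.mul
      (Continuous.aestronglyMeasurable (by fun_prop))
  · rw [ae_restrict_iff' (half_meas σ)]
    refine Eventually.of_forall fun ξ hξ w hw => ?_
    have hw' : 0 < σ * w.im := hw
    rw [norm_mul, norm_mul, Complex.norm_exp]
    have h2 := Real.exp_le_one_iff.2 (arg_re hσ hξ hw'.le)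
    have h3 : ‖(2 * Real.pi * Complex.I * ξ : ℂ)‖ = 2 * Real.pi * ‖ξ‖ := by
      simp [abs_of_pos Real.pi_pos]
    rw [h3]
    have h4 : Real.exp (2 * Real.pi * Complex.I * ξ * w).re * (2 * Real.pi * ‖ξ‖) ≤
        2 * Real.pi * ‖ξ‖ := mul_le_of_le_one_left (by positivity) h2
    calc ‖g ξ‖ * (Real.exp (2 * Real.pi * Complex.I * ξ * w).re * (2 * Real.pi * ‖ξ‖)) ≤
          ‖g ξ‖ * (2 * Real.pi * ‖ξ‖) := mul_le_mul_of_nonneg_left h4 (norm_nonneg _)
      _ = _ := by ring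
  · refine Eventually.of_forall fun ξ w _ => ?_
    have h5 : HasDerivAt (fun w : ℂ => 2 * Real.pi * Complex.I * ξ * w)
        (2 * Real.pi * Complex.I * ξ) w := by
      simpa using (hasDerivAt_id w).const_mul (2 * Real.pi * Complex.I * ξ)
    exact (h5.cexp).const_mul _

theorem Fs_smooth (hgm : AEStronglyMeasurable g) (hg : ∀ n : ℕ, Integrable fun ξ => ‖ξ‖ ^ n * ‖g ξ‖) :
    ContDiff ℝ ∞ fun x : ℝ => Fs σ g x := by
  have h1 : ContDiff ℝ ((⊤ : ℕ∞) : WithTop ℕ∞) (𝓕 ({ξ : ℝ | 0 < σ * ξ}.indicator g)) := by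
    refine Real.contDiff_fourier fun n _ => ?_
    refine (hg n).mono ?_ (Eventually.of_forall fun ξ => ?_)
    · exact (continuous_norm.pow n).aestronglyMeasurable.mul
        (hgm.indicator (half_meas σ)).norm
    · rw [norm_mul, norm_mul, norm_norm, norm_norm]
      exact mul_le_mul_of_nonneg_left (norm_indicator_le_norm_self _ _) (norm_nonneg _)
  have h2 : (fun x : ℝ => Fs σ g x) = fun x => 𝓕 ({ξ : ℝ | 0 < σ * ξ}.indicator g) (-x) := by
    ext x
    rw [Fs, ← integral_indicator (half_meas σ), Real.fourier_eq']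
    congr 1
    ext ξ
    by_cases hξ : ξ ∈ {ξ : ℝ | 0 < σ * ξ}
    · rw [indicator_of_mem hξ, indicator_of_mem hξ, smul_eq_mul, mul_comm]
      congr 2
      simp
      ring
    · rw [indicator_of_notMem hξ, indicator_of_notMem hξ, smul_zero]
  rw [h2]
  exact h1.comp contDiff_neg

theorem fourier_decomp {h : ℝ → ℂ} (hs : ContDiff ℝ ∞ h) (hc : HasCompactSupport h) :
    ∃ (Fp Fm Fp' Fm' : ℂ → ℂ) (L : ℝ), 0 ≤ L ∧
      (∀ z w, 0 ≤ 1 * z.im → 0 ≤ 1 * w.im → ‖Fp z - Fp w‖ ≤ L * ‖z - w‖) ∧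
      (∀ z w, 0 ≤ -1 * z.im → 0 ≤ -1 * w.im → ‖Fm z - Fm w‖ ≤ L * ‖z - w‖) ∧
      (∀ z, 0 < 1 * z.im → HasDerivAt Fp (Fp' z) z) ∧
      (∀ z, 0 < -1 * z.im → HasDerivAt Fm (Fm' z) z) ∧
      ContDiff ℝ ∞ (fun x : ℝ => Fp x) ∧ ∀ x : ℝ, Fp x - Fm x = h x := by
  set H : 𝓢(ℝ, ℂ) := hc.toSchwartzMap hs with hH
  set gS : 𝓢(ℝ, ℂ) := 𝓕 H with hgS
  set g : ℝ → ℂ := ⇑gS with hg
  have hgi : ∀ n : ℕ, Integrable fun ξ => ‖ξ‖ ^ n * ‖g ξ‖ := fun n => gS.integrable_pow_mul volume n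
  have hg0 : Integrable g := gS.integrable
  have hg1 : Integrable fun ξ => ‖ξ‖ * ‖g ξ‖ := by simpa using hgi 1
  have hd : ∀ σ : ℝ, (σ = 1 ∨ σ = -1) → ∀ z, 0 < σ * z.im → ∃ F', HasDerivAt (Fs σ g) F' z :=
    fun σ hσ z hz => Fs_deriv hσ hg0 hg1 hz
  refine ⟨Fs 1 g, fun z => -Fs (-1) g z, fun z => deriv (Fs 1 g) z,
    fun z => -deriv (Fs (-1) g) z, ∫ ξ : ℝ, 2 * Real.pi * (‖ξ‖ * ‖g ξ‖), ?_, ?_, ?_, ?_, ?_, ?_, ?_⟩
  · exact integral_nonneg fun ξ => by positivity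
  · intro z w hz hw
    exact Fs_lip (Or.inl rfl) hg0 hg1 hz hw
  · intro z w hz hw
    have := Fs_lip (Or.inr rfl) hg0 hg1 hw hz
    rw [neg_sub_neg]
    rwa [norm_sub_rev w z] at this
  · intro z hz
    obtain ⟨F', hF'⟩ := hd 1 (Or.inl rfl) z hz
    exact hF'.differentiableAt.hasDerivAt
  · intro z hz
    obtain ⟨F', hF'⟩ := hd (-1) (Or.inr rfl) z hz
    exact hF'.differentiableAt.hasDerivAt.neg
  · exact Fs_smooth hg0.aestronglyMeasurable hgi
  · intro x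
    have h1 : 𝓕⁻ g x = h x := by
      have h2 : 𝓕⁻ (𝓕 (H : ℝ → ℂ)) = (H : ℝ → ℂ) := by
        refine Continuous.fourierInv_fourier_eq H.continuous H.integrable ?_
        rw [← SchwartzMap.fourier_coe]
        exact hg0
      have h3 : g = 𝓕 (H : ℝ → ℂ) := by
        rw [hg, hgS, SchwartzMap.fourier_coe]
      rw [h3, h2]
      rfl
    rw [sub_neg_eq_add, ← h1, Real.fourierInv_eq']
    have h4 : ∀ ξ : ℝ, Complex.exp (((2 * Real.pi * ⟪ξ, x⟫ : ℝ) : ℂ) * Complex.I) • g ξ =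
        g ξ * Complex.exp (2 * Real.pi * Complex.I * ξ * (x : ℂ)) := by
      intro ξ
      rw [smul_eq_mul, mul_comm]
      congr 2
      simp
      ring
    simp only [h4]
    have hint : Integrable fun ξ : ℝ => g ξ * Complex.exp (2 * Real.pi * Complex.I * ξ * (x : ℂ)) := by
      refine hg0.mono (hg0.aestronglyMeasurable.mul
        (Continuous.aestronglyMeasurable (by fun_prop))) (Eventually.of_forall fun ξ => ?_)
      rw [norm_mul, Complex.norm_exp, exp_re]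
      simp
    have e1 : {ξ : ℝ | 0 < 1 * ξ} = Ioi 0 := by ext; simp
    have e2 : {ξ : ℝ | 0 < -1 * ξ} = Iio 0 := by ext; simp
    rw [Fs, Fs, e1, e2, add_comm, ← integral_Iic_eq_integral_Iio]
    exact intervalIntegral.integral_Iic_add_Ioi hint.integrableOn hint.integrableOn

end Pool.Agent.TH300
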