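import Pool.Agent.TH300.Gl4

/-! Lipschitz multivalued functions on a half disc. -/

set_option autoImplicit false

open MeasureTheory Metric Set Filter Topology
open scoped ContDiff ENNReal RealInnerProductSpace NNReal

namespace Pool.Agent.TH300

/-- projection to the closed half plane -/
noncomputable def pj (σ : ℝ) (z : ℂ) : ℂ := ⟨z.re, σ * max (σ * z.im) 0⟩

theorem pj_im {σ : ℝ} (hσ : σ = 1 ∨ σ = -1) (z : ℂ) : 0 ≤ σ * (pj σ z).im := by
  have : σ * (σ * max (σ * z.im) 0) = max (σ * z.im) 0 := by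
    rcases hσ with rfl | rfl <;> ring
  show 0 ≤ σ * (σ * max (σ * z.im) 0)
  rw [this]
  exact le_max_right _ _

theorem pj_of {σ : ℝ} (hσ : σ = 1 ∨ σ = -1) {z : ℂ} (hz : 0 ≤ σ * z.im) : pj σ z = z := by
  apply Complex.ext
  · rfl
  · show σ * max (σ * z.im) 0 = z.im
    rw [max_eq_left hz]
    rcases hσ with rfl | rfl <;> ring

theorem pj_of_neg {σ : ℝ} {z : ℂ} (hz : σ * z.im ≤ 0) : pj σ z = (z.re : ℂ) := by
  apply Complex.ext
  · rfl
  · show σ * max (σ * z.im) 0 = 0
    rw [max_eq_right hz, mul_zero]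

theorem pj_lip {σ : ℝ} (hσ : σ = 1 ∨ σ = -1) (z w : ℂ) : ‖pj σ z - pj σ w‖ ≤ ‖z - w‖ := by
  have h1 : (pj σ z - pj σ w).re = (z - w).re := rfl
  have h2 : |(pj σ z - pj σ w).im| ≤ |(z - w).im| := by
    show |σ * max (σ * z.im) 0 - σ * max (σ * w.im) 0| ≤ |z.im - w.im|
    rw [← mul_sub, abs_mul]
    have e1 : |σ| = 1 := by rcases hσ with rfl | rfl <;> simp
    rw [e1, one_mul]
    refine (abs_max_sub_max_le_abs _ _ _).trans ?_
    rw [← mul_sub, abs_mul, e1, one_mul]
  have h3 : ‖pj σ z - pj σ w‖ ^ 2 ≤ ‖z - w‖ ^ 2 := by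
    rw [normsq_eq, normsq_eq, h1]
    have := sq_le_sq.2 h2
    linarith
  exact le_of_sq_le_sq h3 (norm_nonneg _)

theorem lineDeriv_lim {w : ℂ → ℝ} {z e : ℂ} {B : ℝ} (hB : 0 ≤ B)
    (h : ∃ b : ℝ → ℝ, Tendsto b (𝓝[>] 0) (𝓝 B) ∧
      ∀ᶠ t in 𝓝[>] (0:ℝ), |w (z + t • e) - w z| ≤ t * b t) :
    |lineDeriv ℝ w z e| ≤ B := by
  by_cases hd : LineDifferentiableAt ℝ w z e
  · obtain ⟨b, hb, hev⟩ := h
    have h1 : HasLineDerivAt ℝ w (lineDeriv ℝ w z e) z e := hd.hasLineDerivAt
    have h2 := (HasDerivAt.tendsto_slope_zero_right h1)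
    simp only [zero_add, zero_smul, add_zero] at h2
    have h3 := h2.norm
    refine le_of_tendsto_of_tendsto h3 hb ?_
    filter_upwards [hev, self_mem_nhdsWithin] with t ht ht0
    have ht0' : 0 < t := ht0
    rw [norm_smul, Real.norm_of_nonneg (inv_pos.2 ht0').le, inv_mul_le_iff₀ ht0']
    exact ht
  · rw [lineDeriv_zero_of_not_lineDifferentiableAt hd, abs_zero]
    exact hB

theorem lemT {Q : ℕ} {σ : ℝ} (hσ : σ = 1 ∨ σ = -1) {u u' : Fin Q → ℂ → ℂ} {L : ℝ} (hL : 0 ≤ L)
    (hu : ∀ i z w, 0 ≤ σ * z.im → 0 ≤ σ * w.im → ‖u i z - u i w‖ ≤ L * ‖z - w‖)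
    (hd : ∀ i, ∀ z ∈ side (ball 0 1) σ, HasDerivAt (u i) (u' i z) z) :
    Dominates (side (ball 0 1) σ) (fun z i => u i z)
      (fun _ z => Real.sqrt (∑ i, ‖u' i z‖ ^ 2)) ∧
    ∀ T, IsTrace (ball 0 1) σ (fun z => G (fun i => u i z) T) (fun x => G (fun i => u i x) T) := by
  have ho : IsOpen (side (ball (0:ℂ) 1) σ) := isOpen_side isOpen_ball _
  have hsm := ho.measurableSet
  have hfin : IsFiniteMeasure (volume.restrict (side (ball (0:ℂ) 1) σ)) :=
    ⟨by
      rw [Measure.restrict_apply_univ]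
      exact (measure_mono (side_subset _ _)).trans_lt measure_ball_lt_top⟩
  have hfinB : IsFiniteMeasure (volume.restrict (ball (0:ℂ) 1)) :=
    ⟨by
      rw [Measure.restrict_apply_univ]
      exact measure_ball_lt_top⟩
  -- bound of the derivatives
  have hbd : ∀ i, ∀ z ∈ side (ball 0 1) σ, ‖u' i z‖ ≤ L := by
    intro i z hz
    have h1 := (hd i z hz).le_of_lip' hL (f := u i) (x₀ := z) ?_
    · exact h1
    · filter_upwards [ho.mem_nhds hz] with y hy
      exact hu i y z hy.2.le hz.2.le
  set D : ℂ → ℝ := fun z => Real.sqrt (∑ i, ‖u' i z‖ ^ 2) with hD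
  have hDm : AEStronglyMeasurable D (volume.restrict (side (ball 0 1) σ)) := by
    have h1 : Measurable fun z => Real.sqrt (∑ i, ‖deriv (u i) z‖ ^ 2) := by
      refine Measurable.sqrt ?_
      exact Finset.measurable_sum _ fun i _ => ((measurable_deriv (u i)).norm.pow_const 2)
    refine h1.aestronglyMeasurable.congr ?_
    rw [EventuallyEq, ae_restrict_iff' hsm]
    refine Eventually.of_forall fun z hz => ?_
    simp only [hD]
    congr 1
    exact Finset.sum_congr rfl fun i _ => by rw [(hd i z hz).deriv]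
  have hDb : ∀ z ∈ side (ball 0 1) σ, ‖D z‖ ≤ Real.sqrt (∑ _i : Fin Q, L ^ 2) := by
    intro z hz
    rw [Real.norm_of_nonneg (Real.sqrt_nonneg _)]
    apply Real.sqrt_le_sqrt
    exact Finset.sum_le_sum fun i _ => pow_le_pow_left₀ (norm_nonneg _) (hbd i z hz) 2
  have hDL : MemLp D 2 (volume.restrict (side (ball 0 1) σ)) := by
    refine MemLp.of_bound hDm (Real.sqrt (∑ _i : Fin Q, L ^ 2)) ?_
    rw [ae_restrict_iff' hsm]
    exact Eventually.of_forall hDb
  set C : ℝ := Real.sqrt (∑ _i : Fin Q, L ^ 2) with hC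
  have hC0 : 0 ≤ C := Real.sqrt_nonneg _
  have hGl : ∀ z w, 0 ≤ σ * z.im → 0 ≤ σ * w.im →
      G (fun i => u i z) (fun i => u i w) ≤ C * ‖z - w‖ := by
    intro z w hz hw
    refine (G_le_nr _ _).trans ?_
    have e1 : C * ‖z - w‖ = Real.sqrt (∑ _i : Fin Q, (L * ‖z - w‖) ^ 2) := by
      have : ∑ _i : Fin Q, (L * ‖z - w‖) ^ 2 = (∑ _i : Fin Q, L ^ 2) * ‖z - w‖ ^ 2 := by
        rw [Finset.sum_mul]
        exact Finset.sum_congr rfl fun i _ => by ring
      rw [this, Real.sqrt_mul' _ (by positivity), Real.sqrt_sq (norm_nonneg _)]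
    rw [e1]
    apply Real.sqrt_le_sqrt
    exact Finset.sum_le_sum fun i _ => pow_le_pow_left₀ (norm_nonneg _) (hu i z w hz hw) 2
  -- for every `T`
  have main : ∀ T : Fin Q → ℂ, ∃ w : ℂ → ℝ, Continuous w ∧
      (∀ z, 0 ≤ σ * z.im → w z = G (fun i => u i z) T) ∧
      (∀ z, σ * z.im ≤ 0 → w z = G (fun i => u i (z.re : ℂ)) T) ∧
      ∀ j, ∃ d : ℂ → ℝ, MemLp d 2 (volume.restrict (ball 0 1)) ∧
        IsWeakDeriv (ball 0 1) (dir j) w d ∧ (∀ z ∈ side (ball 0 1) σ, |d z| ≤ D z) ∧
        (j = 1 → ∀ z, σ * z.im < 0 → d z = 0) := by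
    intro T
    set w : ℂ → ℝ := fun z => G (fun i => u i (pj σ z)) T with hw
    have hwl : LipschitzWith (Real.toNNReal C) w := by
      refine LipschitzWith.of_dist_le_mul fun z z' => ?_
      rw [Real.coe_toNNReal _ hC0, Real.dist_eq, dist_eq_norm]
      refine (G_abs_sub_le _ _ _).trans ((hGl _ _ (pj_im hσ z) (pj_im hσ z')).trans ?_)
      exact mul_le_mul_of_nonneg_left (pj_lip hσ z z') hC0
    refine ⟨w, hwl.continuous, fun z hz => by rw [hw]; simp only [pj_of hσ hz],
      fun z hz => by rw [hw]; simp only [pj_of_neg hz], fun j => ?_⟩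
    refine ⟨fun z => lineDeriv ℝ w z (dir j), ?_, ?_, ?_, ?_⟩
    · refine MemLp.of_bound (measurable_lineDeriv hwl.continuous).aestronglyMeasurable
        ((Real.toNNReal C : ℝ) * ‖dir j‖) (Eventually.of_forall fun z => ?_)
      exact norm_lineDeriv_le_of_lipschitz ℝ hwl
    · intro ψ hψ
      obtain ⟨Dψ, hDψ⟩ := ContDiff.lipschitzWith_of_hasCompactSupport hψ.2.1 hψ.1 (by simp)
      have h1 := LipschitzWith.integral_lineDeriv_mul_eq (μ := volume) hwl hDψ hψ.2.1 (dir j)
      rw [setInt_deriv hψ, setInt_test hψ, h1, ← integral_neg]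
      congr 1
      ext z
      rw [(hψ.1.differentiable (by simp) z).lineDeriv_eq_fderiv]
      simp only [map_neg]
      ring
    · intro z hz
      apply lineDeriv_lim (Real.sqrt_nonneg _)
      refine ⟨fun t => Real.sqrt (∑ i, ‖t⁻¹ • (u i (z + t • dir j) - u i z)‖ ^ 2), ?_, ?_⟩
      · have h1 : ∀ i, Tendsto (fun t : ℝ => ‖t⁻¹ • (u i (z + t • dir j) - u i z)‖ ^ 2) (𝓝[>] 0)
            (𝓝 (‖u' i z‖ ^ 2)) := by
          intro i
          have h2 : HasFDerivAt (u i) ((ContinuousLinearMap.toSpanSingleton ℂ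
              (u' i z)).restrictScalars ℝ) z := (hd i z hz).hasFDerivAt.restrictScalars ℝ
          have h3 : HasDerivAt (fun t : ℝ => z + t • dir j) (dir j) 0 := by
            have := ((hasDerivAt_id (0:ℝ)).smul_const (dir j)).const_add z
            simpa using this
          have h4 : HasDerivAt (fun t : ℝ => u i (z + t • dir j)) (dir j * u' i z) 0 := by
            have h2' : HasFDerivAt (u i) ((ContinuousLinearMap.toSpanSingleton ℂ
              (u' i z)).restrictScalars ℝ) (z + (0:ℝ) • dir j) := by simpa using h2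
            have := h2'.comp_hasDerivAt (0:ℝ) h3
            simpa [Function.comp_def] using this
          have h5 := h4.tendsto_slope_zero_right
          have h6 := (h5.norm).pow 2
          have h7 : ‖dir j * u' i z‖ = ‖u' i z‖ := by
            rw [norm_mul]
            have : ‖dir j‖ = 1 := by fin_cases j <;> simp [dir]
            rw [this, one_mul]
          rw [h7] at h6
          simpa using h6
        exact ((Real.continuous_sqrt.tendsto _).comp (tendsto_finsetSum _ fun i _ => h1 i))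
      · have hc : Tendsto (fun t : ℝ => z + t • dir j) (𝓝[>] 0) (𝓝 z) := by
          have : Continuous fun t : ℝ => z + t • dir j := by fun_prop
          have h0 := this.tendsto 0
          rw [zero_smul, add_zero] at h0
          exact h0.mono_left nhdsWithin_le_nhds
        filter_upwards [hc (ho.mem_nhds hz), self_mem_nhdsWithin] with t ht ht0
        have ht0' : (0:ℝ) < t := ht0
        have hzt : z + t • dir j ∈ side (ball 0 1) σ := ht
        rw [hw]
        simp only [pj_of hσ hzt.2.le, pj_of hσ hz.2.le]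
        refine (G_abs_sub_le _ _ _).trans ((G_le_nr _ _).trans (le_of_eq ?_))
        have e1 : t * Real.sqrt (∑ i, ‖t⁻¹ • (u i (z + t • dir j) - u i z)‖ ^ 2) =
            Real.sqrt (t ^ 2 * ∑ i, ‖t⁻¹ • (u i (z + t • dir j) - u i z)‖ ^ 2) := by
          rw [Real.sqrt_mul (by positivity), Real.sqrt_sq ht0'.le]
        rw [e1, nr, Finset.mul_sum]
        congr 1
        refine Finset.sum_congr rfl fun i _ => ?_
        rw [norm_smul, mul_pow, Real.norm_of_nonneg (inv_pos.2 ht0').le]
        simp only [Pi.sub_apply]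
        field_simp
    · intro hj z hz
      subst hj
      have h0 : |lineDeriv ℝ w z (dir 1)| ≤ 0 := by
        apply lineDeriv_lim le_rfl
        refine ⟨fun _ => 0, tendsto_const_nhds, ?_⟩
        have hc : Tendsto (fun t : ℝ => σ * (z + t • dir 1).im) (𝓝[>] 0) (𝓝 (σ * z.im)) := by
          have : Continuous fun t : ℝ => σ * (z + t • dir 1).im :=
            continuous_const.mul (Complex.continuous_im.comp (by fun_prop))
          have h0 := this.tendsto 0
          rw [zero_smul, add_zero] at h0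
          exact h0.mono_left nhdsWithin_le_nhds
        filter_upwards [hc.eventually (gt_mem_nhds hz)] with t ht
        rw [hw]
        simp only [pj_of_neg ht.le, pj_of_neg hz.le]
        have : (z + t • dir 1).re = z.re := by simp [dir]
        rw [this]
        simp
      exact abs_nonpos_iff.1 h0
  refine ⟨⟨fun j => hDL, fun T => ?_⟩, fun T => ?_⟩
  · obtain ⟨w, hwc, hw1, hw2, hw3⟩ := main T
    have heq : ∀ z ∈ side (ball 0 1) σ, w z = G (fun i => u i z) T := fun z hz => hw1 z hz.2.le
    refine ⟨?_, fun j => ?_⟩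
    · have h1 : MemLp w 2 (volume.restrict (side (ball 0 1) σ)) := by
        obtain ⟨B, hB⟩ := (isCompact_closedBall (0:ℂ) 1).exists_bound_of_continuousOn
          hwc.continuousOn
        refine MemLp.of_bound hwc.aestronglyMeasurable B ?_
        rw [ae_restrict_iff' hsm]
        exact Eventually.of_forall fun z hz => hB z (ball_subset_closedBall hz.1)
      refine h1.ae_eq ?_
      rw [EventuallyEq, ae_restrict_iff' hsm]
      exact Eventually.of_forall fun z hz => heq z hz
    · obtain ⟨d, hd1, hd2, hd3, -⟩ := hw3 j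
      refine ⟨d, hd1.mono_measure (Measure.restrict_mono (side_subset _ _) le_rfl), ?_, ?_⟩
      · intro ψ hψ
        have h1 := isWeakDeriv_iff.1 hd2 ψ (hψ.mono (side_subset _ _))
        rw [setInt_test hψ, ← h1, ← setInt_deriv hψ]
        exact setIntegral_congr_fun hsm fun z hz => by simp only [heq z hz]
      · rw [ae_restrict_iff' hsm]
        exact Eventually.of_forall hd3
  · obtain ⟨w, hwc, hw1, hw2, hw3⟩ := main T
    obtain ⟨d, hd1, hd2, -, hd4⟩ := hw3 1
    have hw0 : MemLp (fun x : ℝ => G (fun i => u i (x:ℂ)) T) 2 (volume.restrict (Ioo (-1) 1)) := by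
      have h1 : (fun x : ℝ => G (fun i => u i (x:ℂ)) T) = fun x : ℝ => w x := by
        ext x
        rw [hw1 x (by simp)]
      rw [h1]
      obtain ⟨B, hB⟩ := (isCompact_closedBall (0:ℂ) 1).exists_bound_of_continuousOn
        hwc.continuousOn
      refine MemLp.of_bound (hwc.comp Complex.continuous_ofReal).aestronglyMeasurable B ?_
      rw [ae_restrict_iff' measurableSet_Ioo]
      refine Eventually.of_forall fun x hx => hB x ?_
      rw [mem_closedBall_zero_iff, Complex.norm_real, Real.norm_eq_abs]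
      exact (abs_lt.2 hx).le
    refine ⟨by rw [seg_ball]; exact hw0, d,
      hd1.mono_measure (Measure.restrict_mono (side_subset _ _) le_rfl), fun ψ hψ => ?_⟩
    have hσ' : -σ = 1 ∨ -σ = -1 := by
      rcases hσ with rfl | rfl
      · right; rfl
      · left; norm_num
    have e3 := fub hσ' hw0 hψ
    have hwL : MemLp w 2 (volume.restrict (ball 0 1)) := by
      obtain ⟨B, hB⟩ := (isCompact_closedBall (0:ℂ) 1).exists_bound_of_continuousOn
        hwc.continuousOn
      refine MemLp.of_bound hwc.aestronglyMeasurable B ?_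
      rw [ae_restrict_iff' isOpen_ball.measurableSet]
      exact Eventually.of_forall fun z hz => hB z (ball_subset_closedBall hz)
    have hψL : MemLp (fun z => fderiv ℝ ψ z Complex.I) 2 (volume.restrict (ball 0 1)) :=
      ((hψ.dcont _).memLp_of_hasCompactSupport (hψ.2.1.fderiv_apply (𝕜 := ℝ) _)).restrict _
    have hψM : MemLp ψ 2 (volume.restrict (ball 0 1)) := hψ.memLp.restrict _
    have key := hd2 ψ hψ
    have hdir : dir 1 = Complex.I := rfl
    rw [hdir] at key
    rw [int_sides isOpen_ball hσ (intMul hwL hψL), int_sides isOpen_ball hσ (intMul hd1 hψM)] at key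
    have f1 : ∫ z in side (ball 0 1) (-σ), d z * ψ z = 0 := by
      rw [setIntegral_congr_fun (isOpen_side isOpen_ball _).measurableSet
        (g := fun _ => (0:ℝ)) fun z hz => by
          have : σ * z.im < 0 := by have := hz.2; linarith
          simp only [hd4 rfl z this, zero_mul]]
      simp
    have f2 : ∫ z in side (ball 0 1) (-σ), w z * fderiv ℝ ψ z Complex.I =
        σ * ∫ x in Ioo (-1:ℝ) 1, G (fun i => u i (x:ℂ)) T * ψ x := by
      rw [neg_neg] at e3
      rw [← e3]
      refine setIntegral_congr_fun (isOpen_side isOpen_ball _).measurableSet fun z hz => ?_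
      have : σ * z.im ≤ 0 := by have := hz.2; linarith
      simp only [hw2 z this]
    have f3 : ∫ z in side (ball 0 1) σ, w z * fderiv ℝ ψ z Complex.I =
        ∫ z in side (ball 0 1) σ, G (fun i => u i z) T * fderiv ℝ ψ z Complex.I :=
      setIntegral_congr_fun hsm fun z hz => by simp only [hw1 z hz.2.le]
    have hm := Measure.restrict_mono (side_subset (ball (0:ℂ) 1) σ) (le_refl (volume : Measure ℂ))
    have g1 : Integrable (fun z => G (fun i => u i z) T * fderiv ℝ ψ z Complex.I)
        (volume.restrict (side (ball 0 1) σ)) := by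
      refine (intMul (hwL.mono_measure hm) (hψL.mono_measure hm)).congr ?_
      rw [EventuallyEq, ae_restrict_iff' hsm]
      exact Eventually.of_forall fun z hz => by simp only [hw1 z hz.2.le]
    rw [integral_add g1 (intMul (hd1.mono_measure hm) (hψM.mono_measure hm)), seg_ball, ← f3]
    rw [f1, f2] at key
    linarith

end Pool.Agent.TH300
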