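import Pool.Agent.TH300.Cn4
import Pool.Agent.TH300.Cn3
import Pool.Agent.TH300.LT
import Pool.Agent.TH300.Cmp3
import Pool.Agent.TH300.Fo

/-! The example. -/

set_option autoImplicit false

open MeasureTheory Metric Set Filter Topology
open scoped ContDiff ENNReal

namespace Pool.Agent.TH300

/-- indicator of the odd gaps -/
noncomputable def chi (t : ℝ) : ℝ := if Odd (lev t) then 1 else 0

theorem chi_loc : ∀ t ∉ KK, ∀ᶠ s in 𝓝 t, chi s = chi t := by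
  intro t ht
  filter_upwards [lev_loc ht] with s hs
  rw [chi, chi, hs]

theorem chi_cases (t : ℝ) : chi t = 0 ∨ chi t = 1 := by
  unfold chi
  split_ifs
  · exact Or.inr rfl
  · exact Or.inl rfl

theorem chi_abs (t : ℝ) : |chi t| ≤ 1 := by
  rcases chi_cases t with h | h <;> rw [h] <;> norm_num

theorem h_smooth : ContDiff ℝ ∞ fun t : ℝ => (chi t : ℂ) * qq t := chi_smooth chi_abs chi_loc

theorem h_smooth' : ContDiff ℝ ∞ fun t : ℝ => ((1 - chi t : ℝ) : ℂ) * qq t := by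
  refine chi_smooth (χ := fun t => 1 - chi t) (fun t => ?_) fun t ht => ?_
  · rcases chi_cases t with h | h <;> rw [h] <;> norm_num
  · filter_upwards [chi_loc t ht] with s hs
    rw [hs]

theorem h_supp : HasCompactSupport fun t : ℝ => (chi t : ℂ) * qq t := by
  refine HasCompactSupport.intro (isCompact_Icc (a := (0:ℝ)) (b := 1 / 255)) fun t ht => ?_
  rw [chi, lev_out ht]
  simp

theorem G_perm {Q : ℕ} (S T : Fin Q → ℂ) (σ : Equiv.Perm (Fin Q)) : G (S ∘ σ) T = G S T := by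
  have h1 : ∀ (S : Fin Q → ℂ) (σ : Equiv.Perm (Fin Q)), G (S ∘ σ) T ≤ G S T := by
    intro S σ
    obtain ⟨ρ, h⟩ := G_exists S T
    rw [h]
    refine (G_le (S ∘ σ) T (ρ * σ)).trans (le_of_eq ?_)
    rw [← nr_comp (S - T ∘ ρ) σ]
    rfl
  apply le_antisymm (h1 S σ)
  have := h1 (S ∘ σ) σ⁻¹
  have e : (S ∘ σ) ∘ (σ⁻¹ : Equiv.Perm (Fin Q)) = S := by
    ext i; simp
  rwa [e] at this

theorem G_swap (a b : ℂ) (T : Fin 2 → ℂ) : G ![a, b] T = G ![b, a] T := by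
  rw [← G_perm ![b, a] T (Equiv.swap 0 1)]
  congr 1
  ext i
  fin_cases i <;> simp

theorem datum {φ : ℝ → ℂ} (hφ : ContDiff ℝ ∞ φ) : Datum φ (deriv φ) := by
  have hd : ∀ x, HasDerivAt φ (deriv φ x) x := fun x =>
    (hφ.differentiable (by simp) x).hasDerivAt
  have hc : Continuous (deriv φ) := hφ.continuous_deriv (by simp)
  obtain ⟨M, hM⟩ := (isCompact_Icc (a := (-1:ℝ)) (b := 1)).exists_bound_of_continuousOn
    hc.continuousOn
  obtain ⟨B, hB⟩ := (isCompact_Icc (a := (-1:ℝ)) (b := 1)).exists_bound_of_continuousOn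
    hφ.continuous.continuousOn
  have hM0 : 0 ≤ M := (norm_nonneg _).trans (hM 0 ⟨by norm_num, by norm_num⟩)
  refine ⟨hd, M, B, hM0, fun x hx y hy => ?_, fun x hx => hB x (Ioo_subset_Icc_self hx)⟩
  have := (convex_Ioo (-1:ℝ) 1).norm_image_sub_le_of_norm_deriv_le (𝕜 := ℝ) (f := φ) (C := M)
    (fun z _ => (hd z).differentiableAt) (fun z hz => hM z (Ioo_subset_Icc_self hz)) hy hx
  rwa [Real.norm_eq_abs] at this

/-- the data of the example -/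
structure Ex (φ : ℝ → ℂ) (Fp Fm Fp' Fm' : ℂ → ℂ) (L : ℝ) : Prop where
  hL : 0 ≤ L
  lp : ∀ z w : ℂ, 0 ≤ 1 * z.im → 0 ≤ 1 * w.im → ‖Fp z - Fp w‖ ≤ L * ‖z - w‖
  lm : ∀ z w : ℂ, 0 ≤ -1 * z.im → 0 ≤ -1 * w.im → ‖Fm z - Fm w‖ ≤ L * ‖z - w‖
  lq : ∀ z w : ℂ, 0 ≤ 1 * z.im → 0 ≤ 1 * w.im → ‖(Fp z - qq z) - (Fp w - qq w)‖ ≤ L * ‖z - w‖
  dp : ∀ z : ℂ, 0 < 1 * z.im → HasDerivAt Fp (Fp' z) z
  dm : ∀ z : ℂ, 0 < -1 * z.im → HasDerivAt Fm (Fm' z) z
  sm : ContDiff ℝ ∞ φ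
  eφ : ∀ x : ℝ, φ x = Fp x - ((1 - chi x : ℝ) : ℂ) * qq x
  eh : ∀ x : ℝ, Fp x - Fm x = (chi x : ℂ) * qq x

theorem ex_exists : ∃ φ Fp Fm Fp' Fm' L, Ex φ Fp Fm Fp' Fm' L := by
  obtain ⟨Fp, Fm, Fp', Fm', L, hL, a1, a2, a3, a4, a5, a6⟩ := fourier_decomp h_smooth h_supp
  obtain ⟨Lq, hLq, b1⟩ := qq_lip
  refine ⟨fun x => Fp x - ((1 - chi x : ℝ) : ℂ) * qq x, Fp, Fm, Fp', Fm', L + Lq,
    ⟨by positivity, fun z w hz hw => ?_, fun z w hz hw => ?_, fun z w hz hw => ?_, a3, a4,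
    a5.sub h_smooth', fun x => rfl, a6⟩⟩
  · refine (a1 z w hz hw).trans ?_
    exact mul_le_mul_of_nonneg_right (by linarith) (norm_nonneg _)
  · refine (a2 z w hz hw).trans ?_
    exact mul_le_mul_of_nonneg_right (by linarith) (norm_nonneg _)
  · have e : (Fp z - qq z) - (Fp w - qq w) = (Fp z - Fp w) - (qq z - qq w) := by ring
    rw [e]
    refine (norm_sub_le _ _).trans ?_
    have h1 := a1 z w hz hw
    have h2 := b1 z w (by linarith) (by linarith)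
    linarith

variable {φ : ℝ → ℂ} {Fp Fm Fp' Fm' : ℂ → ℂ} {L : ℝ}

theorem up_RR {z : ℂ} (hz : 0 < 1 * z.im) : z ∈ RR := by
  have hz' : 0 < z.im := by linarith
  exact mem_RR hz'.le fun h => by rw [KC_im h] at hz'; exact lt_irrefl _ hz'

theorem Ex.lemP (h : Ex φ Fp Fm Fp' Fm' L) :
    Dominates (side (ball 0 1) 1) (fun z => (![Fp z, Fp z - qq z] : Fin 2 → ℂ))
      (fun _ z => Real.sqrt (‖Fp' z‖ ^ 2 + ‖Fp' z - deriv qq z‖ ^ 2)) ∧
    ∀ T, IsTrace (ball 0 1) 1 (fun z => G (![Fp z, Fp z - qq z] : Fin 2 → ℂ) T)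
      (fun x => G (![Fp x, Fp x - qq x] : Fin 2 → ℂ) T) := by
  have key := lemT (Q := 2) (σ := 1) (Or.inl rfl) (u := ![Fp, fun z => Fp z - qq z])
    (u' := ![Fp', fun z => Fp' z - deriv qq z]) h.hL (by
      intro i z w hz hw
      fin_cases i
      · exact h.lp z w hz hw
      · exact h.lq z w hz hw) (by
      intro i z hz
      fin_cases i
      · exact h.dp z hz.2
      · exact (h.dp z hz.2).sub (qq_diff (up_RR hz.2)).hasDerivAt)
  have e1 : ∀ z : ℂ, (fun i => (![Fp, fun z => Fp z - qq z] : Fin 2 → ℂ → ℂ) i z) =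
      (![Fp z, Fp z - qq z] : Fin 2 → ℂ) := by
    intro z; ext i; fin_cases i <;> rfl
  have e2 : ∀ z : ℂ, ∑ i, ‖(![Fp', fun z => Fp' z - deriv qq z] : Fin 2 → ℂ → ℂ) i z‖ ^ 2 =
      ‖Fp' z‖ ^ 2 + ‖Fp' z - deriv qq z‖ ^ 2 := by
    intro z; rw [Fin.sum_univ_two]; rfl
  simp only [e1, e2] at key
  exact key

theorem Ex.lemM (h : Ex φ Fp Fm Fp' Fm' L) :
    Dominates (side (ball 0 1) (-1)) (fun z => (![Fm z] : Fin 1 → ℂ))
      (fun _ z => Real.sqrt (‖Fm' z‖ ^ 2)) ∧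
    ∀ T, IsTrace (ball 0 1) (-1) (fun z => G (![Fm z] : Fin 1 → ℂ) T)
      (fun x => G (![Fm x] : Fin 1 → ℂ) T) := by
  have key := lemT (Q := 1) (σ := -1) (Or.inr rfl) (u := ![Fm])
    (u' := ![Fm']) h.hL (by
      intro i z w hz hw
      fin_cases i
      exact h.lm z w hz hw) (by
      intro i z hz
      fin_cases i
      exact h.dm z hz.2)
  have e1 : ∀ z : ℂ, (fun i => (![Fm] : Fin 1 → ℂ → ℂ) i z) = (![Fm z] : Fin 1 → ℂ) := by
    intro z; ext i; fin_cases i; rfl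
  have e2 : ∀ z : ℂ, ∑ i, ‖(![Fm'] : Fin 1 → ℂ → ℂ) i z‖ ^ 2 = ‖Fm' z‖ ^ 2 := by
    intro z; rw [Fin.sum_univ_one]; rfl
  simp only [e1, e2] at key
  exact key

theorem Ex.trace_eq (h : Ex φ Fp Fm Fp' Fm' L) (x : ℝ) (T : Fin 2 → ℂ) :
    G (![Fp x, Fp x - qq x] : Fin 2 → ℂ) T = G (Fin.cons (φ x) ![Fm x]) T := by
  have e0 : (Fin.cons (φ x) ![Fm x] : Fin 2 → ℂ) = ![φ x, Fm x] := rfl
  rw [e0]
  have h1 := h.eφ x
  have h2 := h.eh x
  rcases chi_cases x with hc | hc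
  · rw [hc] at h1 h2
    simp only [Complex.ofReal_zero, zero_mul, sub_zero, Complex.ofReal_one, one_mul] at h1 h2
    rw [h1, ← sub_eq_zero.1 h2, G_swap]
  · rw [hc] at h1 h2
    simp only [sub_self, Complex.ofReal_zero, zero_mul, sub_zero, Complex.ofReal_one,
      one_mul] at h1 h2
    rw [h1]
    have h3 : Fm x = Fp x - qq x := by
      rw [← h2]; ring
    rw [h3]

theorem Ex.half (h : Ex φ Fp Fm Fp' Fm' L) :
    IsHalfValued 1 (ball 0 1) φ (fun z => ![Fp z, Fp z - qq z]) (fun z => ![Fm z]) := by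
  refine ⟨⟨_, h.lemP.1⟩, ⟨_, h.lemM.1⟩, fun x => ![Fm x], h.lemM.2, fun T => ?_⟩
  have h1 := h.lemP.2 T
  have e : (fun x : ℝ => G (![Fp x, Fp x - qq x] : Fin 2 → ℂ) T) =
      fun x : ℝ => G (Fin.cons (φ x) ![Fm x]) T := by
    ext x
    exact h.trace_eq x T
  rw [e] at h1
  exact h1

theorem dir_le {Q : ℕ} {U : Set ℂ} {f : ℂ → Fin Q → ℂ} {P : ℂ → ℝ} (hP : ∀ z, 0 ≤ P z)
    (h : Dominates U f (fun _ z => Real.sqrt (P z))) :
    Dir U f ≤ ∫⁻ z in U, ENNReal.ofReal (2 * P z) := by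
  unfold Dir
  refine (iInf₂_le _ h).trans ?_
  rw [Fin.sum_univ_two]
  simp only [Real.sq_sqrt (hP _)]
  have e : ∀ z, ENNReal.ofReal (2 * P z) = 2 * ENNReal.ofReal (P z) := by
    intro z
    rw [ENNReal.ofReal_mul (by norm_num)]
    simp
  simp only [e]
  rw [lintegral_const_mul' _ _ (by norm_num), two_mul]

theorem Ex.minimizing (h : Ex φ Fp Fm Fp' Fm' L) :
    IsDirMinimizing 1 (ball 0 1) φ (fun z => ![Fp z, Fp z - qq z]) (fun z => ![Fm z]) := by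
  refine calib (datum h.sm) (F₁ := Fp) (F₂ := fun z => Fp z - qq z) (F₁' := Fp')
    (F₂' := fun z => Fp' z - deriv qq z) (v := Fm) (v' := Fm') h.half (fun z hz => h.dp z hz.2)
    (fun z hz => (h.dp z hz.2).sub (qq_diff (up_RR hz.2)).hasDerivAt) (fun z hz => h.dm z hz.2)
    (fun z hz => ?_) (fun z => rfl) (fun z => rfl) ?_ ?_
  · intro h0
    have : qq z = 0 := by
      have h1 : Fp z - (Fp z - qq z) = 0 := sub_eq_zero.2 h0
      rwa [sub_sub_cancel] at h1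
    exact qq_ne (up_RR hz.2) this
  · have := dir_le (P := fun z => ‖Fp' z‖ ^ 2 + ‖Fp' z - deriv qq z‖ ^ 2)
      (fun z => by positivity) h.lemP.1
    simpa only [mul_add] using this
  · exact dir_le (P := fun z => ‖Fm' z‖ ^ 2) (fun z => by positivity) h.lemM.1

end Pool.Agent.TH300
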