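import Pool.Agent.TH300.Fi

/-! Genuine singularities of the example. -/

set_option autoImplicit false

open MeasureTheory Metric Set Filter Topology
open scoped ContDiff ENNReal

namespace Pool.Agent.TH300

variable {φ : ℝ → ℂ} {Fp Fm Fp' Fm' : ℂ → ℂ} {L : ℝ}

theorem G_zero {Q : ℕ} {S T : Fin Q → ℂ} (h : G S T = 0) :
    ∃ σ : Equiv.Perm (Fin Q), S = T ∘ σ := by
  obtain ⟨σ, hσ⟩ := G_exists S T
  refine ⟨σ, ?_⟩
  rw [h] at hσ
  have h1 : ∑ i, ‖(S - T ∘ σ) i‖ ^ 2 = 0 := by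
    have := (Real.sqrt_eq_zero (Finset.sum_nonneg fun i _ => sq_nonneg _)).1 hσ.symm
    exact this
  ext i
  have h2 := (Finset.sum_eq_zero_iff_of_nonneg fun i _ => sq_nonneg _).1 h1 i (Finset.mem_univ i)
  have h3 : ‖(S - T ∘ σ) i‖ = 0 := by
    simpa using h2
  have h4 := norm_eq_zero.1 h3
  exact sub_eq_zero.1 h4

theorem lim_up {f : ℂ → ℂ} {C : ℝ} (hf : ∀ z w : ℂ, 0 ≤ 1 * z.im → 0 ≤ 1 * w.im →
    ‖f z - f w‖ ≤ C * ‖z - w‖) (x : ℝ) :
    Tendsto (fun ε : ℝ => f (x + ε * Complex.I)) (𝓝[>] 0) (𝓝 (f x)) := by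
  rw [tendsto_iff_norm_sub_tendsto_zero]
  have h1 : Tendsto (fun ε : ℝ => C * ε) (𝓝[>] 0) (𝓝 0) := by
    have := (continuous_const_mul C).tendsto (0:ℝ)
    rw [mul_zero] at this
    exact this.mono_left nhdsWithin_le_nhds
  refine squeeze_zero' (Eventually.of_forall fun _ => norm_nonneg _) ?_ h1
  filter_upwards [self_mem_nhdsWithin] with ε hε
  have hε' : 0 < ε := hε
  refine (hf _ _ (by simp; linarith) (by simp)).trans (le_of_eq ?_)
  congr 1
  simp [abs_of_pos hε']

theorem lim_down {f : ℂ → ℂ} {C : ℝ} (hf : ∀ z w : ℂ, 0 ≤ -1 * z.im → 0 ≤ -1 * w.im →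
    ‖f z - f w‖ ≤ C * ‖z - w‖) (x : ℝ) :
    Tendsto (fun ε : ℝ => f (x - ε * Complex.I)) (𝓝[>] 0) (𝓝 (f x)) := by
  rw [tendsto_iff_norm_sub_tendsto_zero]
  have h1 : Tendsto (fun ε : ℝ => C * ε) (𝓝[>] 0) (𝓝 0) := by
    have := (continuous_const_mul C).tendsto (0:ℝ)
    rw [mul_zero] at this
    exact this.mono_left nhdsWithin_le_nhds
  refine squeeze_zero' (Eventually.of_forall fun _ => norm_nonneg _) ?_ h1
  filter_upwards [self_mem_nhdsWithin] with ε hε
  have hε' : 0 < ε := hε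
  refine (hf _ _ (by simp; linarith) (by simp)).trans (le_of_eq ?_)
  congr 1
  simp [abs_of_pos hε']

theorem Ex.genuine (h : Ex φ Fp Fm Fp' Fm' L) (w₀ : ℕ → Bool) :
    IsGenuine 1 (ball 0 1) (fun z => ![Fp z, Fp z - qq z]) (fun z => ![Fm z]) (cc w₀ : ℂ) := by
  set p : ℂ := (cc w₀ : ℂ) with hp
  have hI := KK_Icc (show cc w₀ ∈ KK from ⟨w₀, rfl⟩)
  refine ⟨?_, by simp [hp], ?_⟩
  · rw [mem_ball_zero_iff, hp, Complex.norm_real, Real.norm_eq_abs, abs_lt]
    constructor <;> linarith [hI.1, hI.2]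
  rintro ⟨r, hr, hsub, u, u₁, hu, hu₁, a1, a2, -⟩
  set w : ℂ → ℂ := u 0 with hw
  have hwc : ContinuousOn w (ball p r) := hu 0
  have hS : ∀ σ, IsOpen (side (ball p r) σ) := fun σ => isOpen_side isOpen_ball σ
  have hFpc : ContinuousOn Fp (side (ball p r) 1) := fun z hz =>
    (h.dp z hz.2).continuousAt.continuousWithinAt
  have hFmc : ContinuousOn Fm (side (ball p r) (-1)) := fun z hz =>
    (h.dm z hz.2).continuousAt.continuousWithinAt
  have hqc : ContinuousOn qq (side (ball p r) 1) := fun z hz =>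
    (qq_diff (up_RR hz.2)).continuousAt.continuousWithinAt
  have hqne : ∀ z ∈ side (ball p r) 1, qq z ≠ 0 := fun z hz => qq_ne (up_RR hz.2)
  -- below
  have b1 : EqOn w Fm (side (ball p r) (-1)) := by
    refine Measure.eqOn_open_of_ae_eq (μ := volume) ?_ (hS _) (hwc.mono (side_subset _ _)) hFmc
    filter_upwards [a2] with z hz
    rw [G_one] at hz
    have := norm_eq_zero.1 hz
    exact (sub_eq_zero.1 this).symm
  -- above
  have b2 : EqOn (fun z => (w z - Fp z) * (w z - (Fp z - qq z))) (fun _ => 0)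
      (side (ball p r) 1) := by
    refine Measure.eqOn_open_of_ae_eq (μ := volume) ?_ (hS _)
      (((hwc.mono (side_subset _ _)).sub hFpc).mul
        ((hwc.mono (side_subset _ _)).sub (hFpc.sub hqc))) continuousOn_const
    filter_upwards [a1] with z hz
    rw [G_comm] at hz
    obtain ⟨σ, hσ⟩ := G_zero hz
    have e1 : w z = (![Fp z, Fp z - qq z] : Fin 2 → ℂ) (σ 1) := congrFun hσ 1
    have hF : ∀ a : Fin 2, a = 0 ∨ a = 1 := by decide
    rcases hF (σ 1) with h0 | h0
    · rw [h0] at e1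
      have e2 : w z = Fp z := e1
      simp only [e2, sub_self, zero_mul]
    · rw [h0] at e1
      have e2 : w z = Fp z - qq z := e1
      simp only [e2, sub_self, mul_zero]
  have b3 : (∀ z ∈ side (ball p r) 1, w z = Fp z) ∨ ∀ z ∈ side (ball p r) 1, w z = Fp z - qq z := by
    have hconv : Convex ℝ (side (ball p r) 1) := by
      have e : side (ball p r) 1 = ball p r ∩ {z : ℂ | 0 < z.im} := by
        ext z
        simp [side]
      rw [e]
      exact (convex_ball p r).inter (convex_halfSpace_im_gt 0)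
    have hfin : ({0, 1} : Set ℂ).Finite := by simp
    obtain ⟨y, hy, hy2⟩ := hconv.isPreconnected.eqOn_const_of_mapsTo (T := ({0, 1} : Set ℂ))
      hfin.isDiscrete (f := fun z => (Fp z - w z) / qq z)
      ((hFpc.sub (hwc.mono (side_subset _ _))).div hqc hqne) (by
        intro z hz
        rcases mul_eq_zero.1 (b2 hz) with h1 | h1
        · left
          show (Fp z - w z) / qq z = 0
          rw [sub_eq_zero.1 h1, sub_self, zero_div]
        · right
          show (Fp z - w z) / qq z = 1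
          rw [sub_eq_zero.1 h1, sub_sub_cancel, div_self (hqne z hz)]) ⟨0, by simp⟩
    rcases hy with h0 | h0
    · left
      intro z hz
      have := hy2 hz
      simp only [Function.const] at this
      rw [h0, div_eq_zero_iff] at this
      rcases this with h1 | h1
      · exact (sub_eq_zero.1 h1).symm
      · exact absurd h1 (hqne z hz)
    · right
      intro z hz
      have := hy2 hz
      simp only [Function.const] at this
      rw [show y = 1 from h0, div_eq_one_iff_eq (hqne z hz)] at this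
      rw [← this]
      ring
  -- limits at real points
  have lim_w : ∀ x : ℝ, (x : ℂ) ∈ ball p r →
      Tendsto (fun ε : ℝ => w (x + ε * Complex.I)) (𝓝[>] 0) (𝓝 (w x)) ∧
      Tendsto (fun ε : ℝ => w (x - ε * Complex.I)) (𝓝[>] 0) (𝓝 (w x)) ∧
      (∀ᶠ ε : ℝ in 𝓝[>] 0, (x + ε * Complex.I : ℂ) ∈ side (ball p r) 1) ∧
      (∀ᶠ ε : ℝ in 𝓝[>] 0, (x - ε * Complex.I : ℂ) ∈ side (ball p r) (-1)) := by
    intro x hx
    have hca : ContinuousAt w x := hwc.continuousAt (isOpen_ball.mem_nhds hx)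
    have c1 : Tendsto (fun ε : ℝ => (x + ε * Complex.I : ℂ)) (𝓝[>] 0) (𝓝 x) := by
      have : Continuous fun ε : ℝ => (x + ε * Complex.I : ℂ) := by fun_prop
      have h0 := this.tendsto 0
      rw [Complex.ofReal_zero, zero_mul, add_zero] at h0
      exact h0.mono_left nhdsWithin_le_nhds
    have c2 : Tendsto (fun ε : ℝ => (x - ε * Complex.I : ℂ)) (𝓝[>] 0) (𝓝 x) := by
      have : Continuous fun ε : ℝ => (x - ε * Complex.I : ℂ) := by fun_prop
      have h0 := this.tendsto 0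
      rw [Complex.ofReal_zero, zero_mul, sub_zero] at h0
      exact h0.mono_left nhdsWithin_le_nhds
    refine ⟨hca.tendsto.comp c1, hca.tendsto.comp c2, ?_, ?_⟩
    · filter_upwards [c1 (isOpen_ball.mem_nhds hx), self_mem_nhdsWithin] with ε h1 h2
      refine ⟨h1, ?_⟩
      have h2' : 0 < ε := h2
      simpa using h2'
    · filter_upwards [c2 (isOpen_ball.mem_nhds hx), self_mem_nhdsWithin] with ε h1 h2
      refine ⟨h1, ?_⟩
      have h2' : 0 < ε := h2
      simpa using h2'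
  have hwm : ∀ x : ℝ, (x : ℂ) ∈ ball p r → w x = Fm x := by
    intro x hx
    obtain ⟨-, l2, -, l4⟩ := lim_w x hx
    refine tendsto_nhds_unique l2 ((lim_down h.lm x).congr' ?_)
    filter_upwards [l4] with ε hε
    exact (b1 hε).symm
  -- the two cases
  have hgap : ∀ m : ℕ, ∃ t : ℝ, t ∉ KK ∧ lev t = m + 1 ∧ |t - cc w₀| ≤ 2 * la ^ m := gap w₀
  have hball : ∀ᶠ m : ℕ in atTop, 2 * la ^ m < r := by
    have : Tendsto (fun m : ℕ => 2 * la ^ m) atTop (𝓝 0) := by
      have := (tendsto_pow_atTop_nhds_zero_of_lt_one la_pos.le la_lt).const_mul 2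
      rwa [mul_zero] at this
    exact this.eventually (gt_mem_nhds hr)
  obtain ⟨m₀, hm₀⟩ := eventually_atTop.1 hball
  have hpt : ∀ m, m₀ ≤ m → ∃ t : ℝ, (t : ℂ) ∈ ball p r ∧ qq t ≠ 0 ∧ lev t = m + 1 := by
    intro m hm
    obtain ⟨t, t1, t2, t3⟩ := hgap m
    refine ⟨t, ?_, qq_ne (mem_RR (by simp) fun h => t1 (mem_KC.1 h)), t2⟩
    rw [mem_ball, dist_eq_norm, hp, ← Complex.ofReal_sub, Complex.norm_real, Real.norm_eq_abs]
    exact lt_of_le_of_lt t3 (hm₀ m hm)
  rcases b3 with hc | hc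
  · -- contradiction at an odd gap
    obtain ⟨t, t1, t2, t3⟩ := hpt (2 * m₀) (by omega)
    have hodd : chi t = 1 := by
      rw [chi, t3, if_pos ⟨m₀, rfl⟩]
    obtain ⟨l1, -, l3, -⟩ := lim_w t t1
    have e1 : w t = Fp t := by
      refine tendsto_nhds_unique l1 ((lim_up h.lp t).congr' ?_)
      filter_upwards [l3] with ε hε
      exact (hc _ hε).symm
    have e2 := h.eh t
    rw [hodd, ← e1, hwm t t1, sub_self] at e2
    apply t2
    simpa using e2.symm
  · obtain ⟨t, t1, t2, t3⟩ := hpt (2 * m₀ + 1) (by omega)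
    have heven : chi t = 0 := by
      rw [chi, t3, if_neg]
      intro ho
      rw [Nat.odd_iff] at ho
      omega
    obtain ⟨l1, -, l3, -⟩ := lim_w t t1
    have e1 : w t = Fp t - qq t := by
      refine tendsto_nhds_unique l1 ((lim_up h.lq t).congr' ?_)
      filter_upwards [l3] with ε hε
      exact (hc _ hε).symm
    have e2 := h.eh t
    rw [heven] at e2
    rw [hwm t t1] at e1
    apply t2
    rw [e1] at e2
    simpa using e2

/-- The disproof. -/
theorem main : ∃ (φ : ℝ → ℂ) (gp : ℂ → Fin 2 → ℂ) (gm : ℂ → Fin 1 → ℂ),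
    ContDiff ℝ ∞ φ ∧ IsDirMinimizing 1 (ball 0 1) φ gp gm ∧
      0 < dimH {p | IsGenuine 1 (ball 0 1) gp gm p} := by
  obtain ⟨φ, Fp, Fm, Fp', Fm', L, h⟩ := ex_exists
  refine ⟨φ, fun z => ![Fp z, Fp z - qq z], fun z => ![Fm z], h.sm, h.minimizing, ?_⟩
  refine lt_of_lt_of_le dim_pos' (dimH_mono ?_)
  rintro _ ⟨_, ⟨w, rfl⟩, rfl⟩
  exact h.genuine w

end Pool.Agent.TH300
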