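import Pool.Agent.TH300.An8
import Pool.Agent.TH300.Alg

/-! Fubini on the disc. -/

set_option autoImplicit false

open MeasureTheory Metric Set Filter Topology
open scoped ContDiff ENNReal RealInnerProductSpace

namespace Pool.Agent.TH300

theorem isOpen_side {U : Set ℂ} (hU : IsOpen U) (σ : ℝ) : IsOpen (side U σ) := by
  unfold side
  exact hU.inter (isOpen_lt continuous_const (continuous_const.mul Complex.continuous_im))

theorem seg_ball : seg (ball (0:ℂ) 1) = Ioo (-1) 1 := by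
  ext x
  simp only [seg, mem_setOf_eq, mem_ball_zero_iff, Complex.norm_real, Real.norm_eq_abs, mem_Ioo,
    abs_lt]

theorem re_mem {z : ℂ} (hz : z ∈ ball (0:ℂ) 1) : z.re ∈ Ioo (-1:ℝ) 1 := by
  rw [mem_ball_zero_iff] at hz
  have := Complex.abs_re_le_norm z
  rw [mem_Ioo, ← abs_lt]
  linarith

theorem im_mem {z : ℂ} (hz : z ∈ ball (0:ℂ) 1) : z.im ∈ Ioo (-1:ℝ) 1 := by
  rw [mem_ball_zero_iff] at hz
  have := Complex.abs_im_le_norm z
  rw [mem_Ioo, ← abs_lt]
  linarith

theorem hasDeriv_vert {ψ : ℂ → ℝ} (hψ : ContDiff ℝ ∞ ψ) (x y : ℝ) :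
    HasDerivAt (fun y : ℝ => ψ ⟨x, y⟩) (fderiv ℝ ψ ⟨x, y⟩ Complex.I) y := by
  have h1 : HasDerivAt (fun y : ℝ => (⟨x, y⟩ : ℂ)) Complex.I y := by
    have h2 : (fun y : ℝ => (⟨x, y⟩ : ℂ)) = fun y : ℝ => (x : ℂ) + (y : ℂ) * Complex.I := by
      ext y
      rw [← Complex.mk_eq_add_mul_I]
    rw [h2]
    have h3 := ((Complex.ofRealCLM.hasDerivAt (x := y)).mul_const Complex.I).const_add (x : ℂ)
    simpa using h3
  exact ((hψ.differentiable (by simp)) ⟨x, y⟩).hasFDerivAt.comp_hasDerivAt y h1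

theorem vert_int {σ : ℝ} (hσ : σ = 1 ∨ σ = -1) {ψ : ℂ → ℝ} (hψ : ContDiff ℝ ∞ ψ)
    (hψc : HasCompactSupport ψ) (x : ℝ) :
    ∫ y in {y : ℝ | 0 < σ * y}, fderiv ℝ ψ ⟨x, y⟩ Complex.I = -σ * ψ x := by
  have hemb : Topology.IsClosedEmbedding (fun y : ℝ => (⟨x, y⟩ : ℂ)) := by
    refine (Isometry.isClosedEmbedding ?_)
    refine Isometry.of_dist_eq fun a b => ?_
    exact Complex.dist_of_re_eq rfl
  have h1 : ContDiff ℝ 1 (fun y : ℝ => ψ ⟨x, y⟩) := by
    have h2 : (fun y : ℝ => ψ ⟨x, y⟩) = ψ ∘ fun y : ℝ => (x : ℂ) + (y : ℂ) * Complex.I := by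
      ext y
      simp only [Function.comp]
      rw [← Complex.mk_eq_add_mul_I]
    rw [h2]
    refine (hψ.of_le (by exact_mod_cast le_top)).comp ?_
    exact contDiff_const.add (Complex.ofRealCLM.contDiff.mul contDiff_const)
  have h2 : HasCompactSupport (fun y : ℝ => ψ ⟨x, y⟩) := hψc.comp_isClosedEmbedding hemb
  have h3 : ∀ y, fderiv ℝ ψ ⟨x, y⟩ Complex.I = deriv (fun y : ℝ => ψ ⟨x, y⟩) y := fun y =>
    (hasDeriv_vert hψ x y).deriv.symm
  simp only [h3]
  have h4 : (⟨x, 0⟩ : ℂ) = x := rfl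
  rcases hσ with rfl | rfl
  · have e : {y : ℝ | 0 < 1 * y} = Ioi 0 := by ext y; simp
    rw [e, h2.integral_Ioi_deriv_eq h1 0, h4]
    ring
  · have e : {y : ℝ | 0 < -1 * y} = Iio 0 := by ext y; simp
    rw [e, ← integral_Iic_eq_integral_Iio, h2.integral_Iic_deriv_eq h1 0, h4]
    ring

theorem fub {σ : ℝ} (hσ : σ = 1 ∨ σ = -1) {w0 : ℝ → ℝ}
    (hw : MemLp w0 2 (volume.restrict (Ioo (-1) 1))) {ψ : ℂ → ℝ} (hψ : Test (ball 0 1) ψ) :
    ∫ z in side (ball 0 1) σ, w0 z.re * fderiv ℝ ψ z Complex.I =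
      -σ * ∫ x in Ioo (-1:ℝ) 1, w0 x * ψ x := by
  have hsm : MeasurableSet (side (ball (0:ℂ) 1) σ) := (isOpen_side isOpen_ball σ).measurableSet
  set w1 : ℝ → ℝ := (Ioo (-1) 1).indicator w0 with hw1
  have hw1i : Integrable w1 := by
    rw [hw1, integrable_indicator_iff measurableSet_Ioo]
    exact hw.integrable (by norm_num)
  set S : Set ℝ := {y : ℝ | 0 < σ * y} with hS
  have hSm : MeasurableSet S := measurableSet_lt measurable_const (by fun_prop)
  let H : ℂ → ℝ := fun z => w1 z.re * S.indicator (fun y => fderiv ℝ ψ ⟨z.re, y⟩ Complex.I) z.im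
  have e1 : ∫ z in side (ball 0 1) σ, w0 z.re * fderiv ℝ ψ z Complex.I = ∫ z, H z := by
    rw [← integral_indicator hsm]
    congr 1
    ext z
    by_cases hz : z ∈ ball (0:ℂ) 1
    · by_cases hzs : 0 < σ * z.im
      · rw [indicator_of_mem (show z ∈ side (ball 0 1) σ from ⟨hz, hzs⟩)]
        show _ = w1 z.re * S.indicator _ z.im
        rw [indicator_of_mem (show z.im ∈ S from hzs), hw1, indicator_of_mem (re_mem hz)]
      · rw [indicator_of_notMem (show z ∉ side (ball 0 1) σ from fun h => hzs h.2)]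
        show _ = w1 z.re * S.indicator _ z.im
        rw [indicator_of_notMem (show z.im ∉ S from hzs), mul_zero]
    · rw [indicator_of_notMem (show z ∉ side (ball 0 1) σ from fun h => hz h.1)]
      show _ = w1 z.re * S.indicator _ z.im
      have : S.indicator (fun y => fderiv ℝ ψ ⟨z.re, y⟩ Complex.I) z.im = 0 := by
        by_cases hzs : z.im ∈ S
        · rw [indicator_of_mem hzs]
          show fderiv ℝ ψ z Complex.I = 0
          rw [hψ.fderiv_zero hz]; rfl
        · rw [indicator_of_notMem hzs]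
      rw [this, mul_zero]
  obtain ⟨B, hB⟩ := (hψ.2.1.fderiv_apply (𝕜 := ℝ) Complex.I).exists_bound_of_continuous
    (hψ.dcont Complex.I)
  let F : ℝ × ℝ → ℝ := fun p => w1 p.1 * S.indicator (fun y => fderiv ℝ ψ ⟨p.1, y⟩ Complex.I) p.2
  have e2 : ∫ z, H z = ∫ p : ℝ × ℝ, F p := by
    rw [← Complex.volume_preserving_equiv_real_prod.integral_comp'
      (g := F)]
    rfl
  have hDm : Measurable fun p : ℝ × ℝ => S.indicator (fun y => fderiv ℝ ψ ⟨p.1, y⟩ Complex.I) p.2 := by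
    have h1 : (fun p : ℝ × ℝ => S.indicator (fun y => fderiv ℝ ψ ⟨p.1, y⟩ Complex.I) p.2) =
        (Prod.snd ⁻¹' S).indicator fun p : ℝ × ℝ => fderiv ℝ ψ ⟨p.1, p.2⟩ Complex.I := by
      ext p
      by_cases hp : p.2 ∈ S
      · rw [indicator_of_mem hp, indicator_of_mem (show p ∈ Prod.snd ⁻¹' S from hp)]
      · rw [indicator_of_notMem hp, indicator_of_notMem (show p ∉ Prod.snd ⁻¹' S from hp)]
    rw [h1]
    refine Measurable.indicator ?_ (measurable_snd hSm)
    exact (hψ.dcont Complex.I).measurable.comp Complex.measurableEquivRealProd.symm.measurable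
  have hFi : Integrable F (volume.prod volume) := by
    have hmaj : Integrable (fun p : ℝ × ℝ => ‖w1 p.1‖ * (Icc (-1:ℝ) 1).indicator (fun _ => B) p.2)
        (volume.prod volume) :=
      hw1i.norm.mul_prod (g := (Icc (-1:ℝ) 1).indicator (fun _ => B)) (by
        rw [integrable_indicator_iff measurableSet_Icc]
        exact integrableOn_const (by simp))
    refine hmaj.mono' ?_ (Eventually.of_forall fun p => ?_)
    · exact (hw1i.aestronglyMeasurable.comp_fst).mul hDm.aestronglyMeasurable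
    · show ‖w1 p.1 * S.indicator (fun y => fderiv ℝ ψ ⟨p.1, y⟩ Complex.I) p.2‖ ≤ _
      rw [norm_mul]
      refine mul_le_mul_of_nonneg_left ?_ (norm_nonneg _)
      by_cases hp : p.2 ∈ Icc (-1:ℝ) 1
      · rw [indicator_of_mem hp]
        refine (norm_indicator_le_norm_self _ _).trans ?_
        exact hB _
      · rw [indicator_of_notMem hp]
        have h1 : (⟨p.1, p.2⟩ : ℂ) ∉ ball (0:ℂ) 1 := fun h => hp (Ioo_subset_Icc_self (im_mem h))
        have : S.indicator (fun y => fderiv ℝ ψ ⟨p.1, y⟩ Complex.I) p.2 = 0 := by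
          by_cases hzs : p.2 ∈ S
          · rw [indicator_of_mem hzs]
            rw [hψ.fderiv_zero h1]; rfl
          · rw [indicator_of_notMem hzs]
        rw [this, norm_zero]
  rw [e1, e2]
  have e3 : ∫ p : ℝ × ℝ, F p = ∫ x, ∫ y, F (x, y) := integral_prod F hFi
  rw [e3, ← integral_indicator measurableSet_Ioo, ← integral_const_mul]
  congr 1
  ext x
  show ∫ y, w1 x * S.indicator (fun y => fderiv ℝ ψ ⟨x, y⟩ Complex.I) y = _
  rw [integral_const_mul, integral_indicator hSm, vert_int hσ hψ.1 hψ.2.1]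
  by_cases hx : x ∈ Ioo (-1:ℝ) 1
  · rw [hw1, indicator_of_mem hx, indicator_of_mem hx]
    ring
  · rw [hw1, indicator_of_notMem hx, indicator_of_notMem hx]
    ring

theorem memLp_re {w0 : ℝ → ℝ} (hw : MemLp w0 2 (volume.restrict (Ioo (-1) 1))) :
    MemLp (fun z : ℂ => w0 z.re) 2 (volume.restrict (ball 0 1)) := by
  have h1 : MemLp (fun p : ℝ × ℝ => w0 p.1) 2
      ((volume.restrict (Ioo (-1:ℝ) 1)).prod (volume.restrict (Ioo (-1:ℝ) 1))) :=
    hw.comp_fst _
  rw [Measure.prod_restrict] at h1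
  have h2 := h1.comp_measurePreserving
    (Complex.volume_preserving_equiv_real_prod.restrict_preimage
      (measurableSet_Ioo.prod measurableSet_Ioo))
  refine h2.mono_measure (Measure.restrict_mono (fun z hz => ?_) le_rfl)
  exact ⟨re_mem hz, im_mem hz⟩

end Pool.Agent.TH300
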