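import Pool.Agent.TH300.Gl1

/-! Traces and gluing. -/

set_option autoImplicit false

open MeasureTheory Metric Set Filter Topology
open scoped ContDiff ENNReal RealInnerProductSpace

namespace Pool.Agent.TH300

theorem memLp_locInt {U : Set ℂ} {w : ℂ → ℝ} (hw : MemLp w 2 (volume.restrict U)) :
    LocallyIntegrableOn w U :=
  locallyIntegrableOn_of_locallyIntegrable_restrict (hw.locallyIntegrable (by norm_num))

theorem wd_unique {U : Set ℂ} (hU : IsOpen U) {e : ℂ} {w d d' : ℂ → ℝ}
    (hd : LocallyIntegrableOn d U) (hd' : LocallyIntegrableOn d' U)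
    (h : IsWeakDeriv U e w d) (h' : IsWeakDeriv U e w d') : ∀ᵐ z, z ∈ U → d z = d' z := by
  have h1 : ∀ᵐ z, z ∈ U → (d - d') z = 0 := by
    apply hU.ae_eq_zero_of_integral_contDiff_smul_eq_zero (hd.sub hd')
    intro g hg hgc hgU
    have hT : Test U g := ⟨hg, hgc, hgU⟩
    have h2 := isWeakDeriv_iff.1 h g hT
    have h3 := isWeakDeriv_iff.1 h' g hT
    have i1 := hT.int_test hd
    have i2 := hT.int_test hd'
    have e1 : ∫ z, g z • (d - d') z = (∫ z, d z * g z) - ∫ z, d' z * g z := by
      rw [← integral_sub i1 i2]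
      congr 1
      ext z
      simp only [Pi.sub_apply, smul_eq_mul]
      ring
    rw [e1]
    linarith
  filter_upwards [h1] with z hz hzU
  have := hz hzU
  simp only [Pi.sub_apply] at this
  linarith

theorem Test.mono {U V : Set ℂ} {ψ : ℂ → ℝ} (h : Test U ψ) (hUV : U ⊆ V) : Test V ψ :=
  ⟨h.1, h.2.1, h.2.2.trans hUV⟩

theorem side_subset (U : Set ℂ) (σ : ℝ) : side U σ ⊆ U := fun _ hz => hz.1

theorem ae_im_ne : ∀ᵐ z : ℂ, z.im ≠ 0 := by
  have h1 : ∀ᵐ p : ℝ × ℝ, p.2 ≠ 0 := by
    have : ∀ᵐ y : ℝ, y ≠ 0 := by simp [ae_iff, measure_singleton]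
    exact Measure.quasiMeasurePreserving_snd.ae this
  exact Complex.volume_preserving_equiv_real_prod.quasiMeasurePreserving.ae h1

theorem ae_im_ne' (c : ℝ) : ∀ᵐ z : ℂ, z.im ≠ c := by
  have := (measurePreserving_add_right volume (-(c:ℂ) * Complex.I)).quasiMeasurePreserving.ae
    ae_im_ne
  filter_upwards [this] with z hz h
  apply hz
  simp [h]

theorem int_sides {F : ℂ → ℝ} {U : Set ℂ} (hU : IsOpen U) {σ : ℝ} (hσ : σ = 1 ∨ σ = -1)
    (hF : Integrable F (volume.restrict U)) :
    ∫ z in U, F z = (∫ z in side U σ, F z) + ∫ z in side U (-σ), F z := by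
  have hm : ∀ σ, MeasurableSet (side U σ) := fun σ => (isOpen_side hU σ).measurableSet
  have h1 : Disjoint (side U σ) (side U (-σ)) := by
    rw [Set.disjoint_left]
    intro z h1 h2
    have h3 := h1.2
    have h4 := h2.2
    nlinarith
  have h2 : U =ᵐ[volume] (side U σ ∪ side U (-σ) : Set ℂ) := by
    filter_upwards [ae_im_ne] with z hz
    apply propext
    constructor
    · intro h
      by_cases h3 : 0 < σ * z.im
      · exact Or.inl ⟨h, h3⟩
      · refine Or.inr ⟨h, ?_⟩
        have h4 : σ * z.im ≠ 0 := by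
          rcases hσ with rfl | rfl <;> simpa using hz
        rw [neg_mul]
        have := lt_of_le_of_ne (not_lt.1 h3) h4
        linarith
    · rintro (h | h)
      · exact h.1
      · exact h.1
  rw [setIntegral_congr_set h2, setIntegral_union h1 (hm _) (IntegrableOn.mono_set hF (side_subset U σ))
    (IntegrableOn.mono_set hF (side_subset U _))]

/-- extension of `f` across the interface by its trace -/
noncomputable def ext {Q : ℕ} (σ : ℝ) (f : ℂ → Fin Q → ℂ) (τ : ℝ → Fin Q → ℂ) (z : ℂ) : Fin Q → ℂ :=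
  if 0 < σ * z.im then f z else τ z.re

theorem ext_sob {Q : ℕ} {σ : ℝ} (hσ : σ = 1 ∨ σ = -1) {f : ℂ → Fin Q → ℂ} {τ : ℝ → Fin Q → ℂ}
    {Φ : ℂ → ℝ≥0∞} (hΦ : Measurable Φ)
    (hdom : ∀ T, MemLp (fun z => G (f z) T) 2 (volume.restrict (side (ball 0 1) σ)) ∧
      ∃ d, MemLp d 2 (volume.restrict (side (ball 0 1) σ)) ∧
        IsWeakDeriv (side (ball 0 1) σ) Complex.I (fun z => G (f z) T) d ∧
        ∀ᵐ z, z ∈ side (ball 0 1) σ → ‖d z‖ₑ ≤ Φ z)
    (htr : ∀ T, IsTrace (ball 0 1) σ (fun z => G (f z) T) (fun x => G (τ x) T)) :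
    SobDir (ball 0 1) Complex.I (ext σ f τ) ((side (ball 0 1) σ).indicator Φ) := by
  have hside : IsOpen (side (ball (0:ℂ) 1) σ) := isOpen_side isOpen_ball σ
  have hsm : MeasurableSet (side (ball (0:ℂ) 1) σ) := hside.measurableSet
  refine ⟨hΦ.indicator hsm, fun T => ?_⟩
  obtain ⟨hw, d, hd, hWD, hdb⟩ := hdom T
  obtain ⟨hw0, d', hd', htr'⟩ := htr T
  rw [seg_ball] at hw0 htr'
  have hwL : MemLp (fun z => G (ext σ f τ z) T) 2 (volume.restrict (ball 0 1)) := by
    have h1 : MemLp ((side (ball 0 1) σ).indicator fun z => G (f z) T) 2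
        (volume.restrict (ball 0 1)) := by
      rw [memLp_indicator_iff_restrict hsm, Measure.restrict_restrict hsm,
        inter_eq_left.2 (side_subset _ _)]
      exact hw
    have h2 : MemLp ((side (ball 0 1) σ)ᶜ.indicator fun z : ℂ => G (τ z.re) T) 2
        (volume.restrict (ball 0 1)) := (memLp_re hw0).indicator hsm.compl
    refine (h1.add h2).ae_eq ?_
    rw [EventuallyEq, ae_restrict_iff' isOpen_ball.measurableSet]
    refine Eventually.of_forall fun z hz => ?_
    simp only [Pi.add_apply]
    by_cases h : 0 < σ * z.im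
    · have hz' : z ∈ side (ball 0 1) σ := ⟨hz, h⟩
      rw [indicator_of_mem hz', indicator_of_notMem (by simpa using hz'), add_zero]
      simp only [ext, if_pos h]
    · have hz' : z ∉ side (ball 0 1) σ := fun h' => h h'.2
      rw [indicator_of_notMem hz', indicator_of_mem (by simpa using hz'), zero_add]
      simp only [ext, if_neg h]
  have hdL : MemLp ((side (ball 0 1) σ).indicator d') 2 (volume.restrict (ball 0 1)) := by
    rw [memLp_indicator_iff_restrict hsm, Measure.restrict_restrict hsm,
      inter_eq_left.2 (side_subset _ _)]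
    exact hd'
  refine ⟨memLp_locInt hwL, (side (ball 0 1) σ).indicator d', memLp_locInt hdL, ?_, ?_⟩
  · intro ψ hψ
    have hψL : MemLp (fun z => fderiv ℝ ψ z Complex.I) 2 (volume.restrict (ball 0 1)) :=
      ((hψ.dcont _).memLp_of_hasCompactSupport (hψ.2.1.fderiv_apply (𝕜 := ℝ) _)).restrict _
    have hψM : MemLp ψ 2 (volume.restrict (ball 0 1)) := hψ.memLp.restrict _
    rw [int_sides isOpen_ball hσ (intMul hwL hψL)]
    have e1 : ∫ z in side (ball 0 1) σ, G (ext σ f τ z) T * fderiv ℝ ψ z Complex.I =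
        ∫ z in side (ball 0 1) σ, G (f z) T * fderiv ℝ ψ z Complex.I := by
      refine setIntegral_congr_fun hsm fun z hz => ?_
      simp only [ext, if_pos hz.2]
    have e2 : ∫ z in side (ball 0 1) (-σ), G (ext σ f τ z) T * fderiv ℝ ψ z Complex.I =
        ∫ z in side (ball 0 1) (-σ), G (τ z.re) T * fderiv ℝ ψ z Complex.I := by
      refine setIntegral_congr_fun (isOpen_side isOpen_ball _).measurableSet fun z hz => ?_
      have h1 : ¬ 0 < σ * z.im := by
        have := hz.2
        rw [neg_mul] at this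
        linarith
      simp only [ext, if_neg h1]
    have hσ' : -σ = 1 ∨ -σ = -1 := by
      rcases hσ with rfl | rfl
      · right; rfl
      · left; norm_num
    have e3 := fub hσ' hw0 hψ
    have e4 := htr' ψ hψ
    have hψL' : MemLp (fun z => fderiv ℝ ψ z Complex.I) 2 (volume.restrict (side (ball 0 1) σ)) :=
      hψL.mono_measure (Measure.restrict_mono (side_subset _ _) le_rfl)
    have hψM' : MemLp ψ 2 (volume.restrict (side (ball 0 1) σ)) :=
      hψM.mono_measure (Measure.restrict_mono (side_subset _ _) le_rfl)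
    rw [integral_add (intMul hw hψL') (intMul hd' hψM')] at e4
    have e5 : ∫ z in ball 0 1, (side (ball 0 1) σ).indicator d' z * ψ z =
        ∫ z in side (ball 0 1) σ, d' z * ψ z := by
      have : (fun z => (side (ball 0 1) σ).indicator d' z * ψ z) =
          (side (ball 0 1) σ).indicator fun z => d' z * ψ z := by
        ext z
        by_cases hz : z ∈ side (ball 0 1) σ
        · rw [indicator_of_mem hz, indicator_of_mem hz]
        · rw [indicator_of_notMem hz, indicator_of_notMem hz, zero_mul]
      rw [this, setIntegral_indicator hsm, inter_eq_right.2 (side_subset _ _)]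
    rw [e1, e2, e3, e5]
    linarith
  · -- uniqueness
    have hWD' : IsWeakDeriv (side (ball 0 1) σ) Complex.I (fun z => G (f z) T) d' := by
      intro ψ hψ
      have hψ' : Test (ball 0 1) ψ := hψ.mono (side_subset _ _)
      have e4 := htr' ψ hψ'
      have hψL' : MemLp (fun z => fderiv ℝ ψ z Complex.I) 2 (volume.restrict (side (ball 0 1) σ)) :=
        ((hψ.dcont _).memLp_of_hasCompactSupport (hψ.2.1.fderiv_apply (𝕜 := ℝ) _)).restrict _
      rw [integral_add (intMul hw hψL') (intMul hd' (hψ.memLp.restrict _))] at e4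
      have e6 : ∫ x in Ioo (-1:ℝ) 1, G (τ x) T * ψ x = 0 := by
        refine integral_eq_zero_of_ae (Eventually.of_forall fun x => ?_)
        have : (x : ℂ) ∉ side (ball 0 1) σ := fun h => by
          have := h.2
          simp at this
        show G (τ x) T * ψ x = 0
        rw [hψ.zero this, mul_zero]
      rw [e6] at e4
      linarith
    have hu := wd_unique hside (memLp_locInt hd) (memLp_locInt hd') hWD hWD'
    filter_upwards [hu, hdb] with z h1 h2 hz
    by_cases hz' : z ∈ side (ball 0 1) σ
    · rw [indicator_of_mem hz', indicator_of_mem hz', ← h1 hz']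
      exact h2 hz'
    · rw [indicator_of_notMem hz', indicator_of_notMem hz']
      simp

end Pool.Agent.TH300
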