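import Pool.Agent.TH300.Gl2

/-! Gluing the two sides. -/

set_option autoImplicit false

open MeasureTheory Metric Set Filter Topology
open scoped ContDiff ENNReal RealInnerProductSpace

namespace Pool.Agent.TH300

theorem G_one (S T : Fin 1 → ℂ) : G S T = ‖S 0 - T 0‖ := by
  obtain ⟨σ, h⟩ := G_exists S T
  have h1 : σ = 1 := Subsingleton.elim _ _
  rw [h, h1, nr]
  simp [Real.sqrt_sq]

theorem G_cons (a b : ℂ) (S T : Fin 1 → ℂ) :
    G (Fin.cons a S : Fin 2 → ℂ) (Fin.cons b T) ≤ ‖a - b‖ + G S T := by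
  rw [G_one]
  refine (G_le_nr _ _).trans ?_
  rw [nr, Fin.sum_univ_two]
  have e0 : (Fin.cons a S - Fin.cons b T : Fin 2 → ℂ) 0 = a - b := rfl
  have e1 : (Fin.cons a S - Fin.cons b T : Fin 2 → ℂ) 1 = S 0 - T 0 := rfl
  rw [e0, e1]
  apply Real.sqrt_le_iff.2
  constructor
  · positivity
  · nlinarith [norm_nonneg (a - b), norm_nonneg (S 0 - T 0),
      mul_nonneg (norm_nonneg (a - b)) (norm_nonneg (S 0 - T 0))]

/-- exhaustion -/
theorem HB_side_one {Q : ℕ} {U : Set ℂ} {σ : ℝ} {f : ℂ → Fin Q → ℂ} {Φ : ℂ → ℝ≥0∞}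
    (h : HB (side U σ) 1 f Φ) {V K : Set ℂ} (hV : IsOpen V) (hK : IsCompact K) (hKU : K ⊆ U)
    {t : ℝ} (ht : 0 ≤ t) (hVK : ∀ z ∈ V, ∀ s ∈ Icc 0 t, z + s • (1:ℂ) ∈ K) :
    ∀ᵐ z, z ∈ V → 0 < σ * z.im →
      ENNReal.ofReal (G (f (z + t • (1:ℂ))) (f z)) ≤ ∫⁻ s in Ioc 0 t, Φ (z + s • (1:ℂ)) := by
  have hc : Continuous fun z : ℂ => σ * z.im := continuous_const.mul Complex.continuous_im
  have key : ∀ᵐ z, ∀ n : ℕ, z ∈ V ∩ {z : ℂ | 1 / ((n : ℝ) + 1) < σ * z.im} →
      ENNReal.ofReal (G (f (z + t • (1:ℂ))) (f z)) ≤ ∫⁻ s in Ioc 0 t, Φ (z + s • (1:ℂ)) := by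
    rw [ae_all_iff]
    intro n
    have hn : (0:ℝ) < 1 / ((n : ℝ) + 1) := by positivity
    refine h (V ∩ {z : ℂ | 1 / ((n : ℝ) + 1) < σ * z.im}) (K ∩ {z : ℂ | 1 / ((n : ℝ) + 1) ≤ σ * z.im})
      (hV.inter (isOpen_lt continuous_const hc)) (hK.inter_right (isClosed_le continuous_const hc))
      ?_ t ht ?_
    · rintro z ⟨h1, h2⟩
      exact ⟨hKU h1, lt_of_lt_of_le hn h2⟩
    · rintro z ⟨h1, h2⟩ s hs
      refine ⟨hVK z h1 s hs, ?_⟩
      have h3 : 1 / ((n : ℝ) + 1) < σ * z.im := h2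
      show 1 / ((n : ℝ) + 1) ≤ σ * (z + s • (1:ℂ)).im
      have h4 : (z + s • (1:ℂ)).im = z.im := by simp
      rw [h4]
      exact h3.le
  filter_upwards [key] with z hz hzV hzs
  obtain ⟨n, hn⟩ := exists_nat_one_div_lt hzs
  exact hz n ⟨hzV, hn⟩

/-- the glued function -/
noncomputable def hat (φ : ℝ → ℂ) (hp : ℂ → Fin 2 → ℂ) (hm : ℂ → Fin 1 → ℂ) (z : ℂ) : Fin 2 → ℂ :=
  if 0 < z.im then hp z else Fin.cons (φ z.re) (hm z)

theorem hat_HB_one {φ : ℝ → ℂ} {M : ℝ} (hM : 0 ≤ M)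
    (hφ : ∀ x ∈ Ioo (-1:ℝ) 1, ∀ y ∈ Ioo (-1:ℝ) 1, ‖φ x - φ y‖ ≤ M * |x - y|)
    {hp : ℂ → Fin 2 → ℂ} {hm : ℂ → Fin 1 → ℂ} {Φp Φm : ℂ → ℝ≥0∞}
    (h1 : HB (side (ball 0 1) 1) 1 hp Φp) (h2 : HB (side (ball 0 1) (-1)) 1 hm Φm) :
    HB (ball 0 1) 1 (hat φ hp hm) (fun z => (side (ball 0 1) 1).indicator Φp z +
      (side (ball 0 1) (-1)).indicator (fun z => Φm z + ENNReal.ofReal M) z) := by
  intro V K hV hK hKU t ht hVK
  filter_upwards [HB_side_one h1 hV hK hKU ht hVK, HB_side_one h2 hV hK hKU ht hVK, ae_im_ne]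
    with z a1 a2 a3 hzV
  have hre : ∀ s : ℝ, (z + s • (1:ℂ)).re = z.re + s := fun s => by simp
  have him : ∀ s : ℝ, (z + s • (1:ℂ)).im = z.im := fun s => by simp
  rcases lt_or_gt_of_ne a3 with hneg | hpos
  · have hs : ∀ s ∈ Ioc 0 t, z + s • (1:ℂ) ∈ side (ball 0 1) (-1) := fun s hs =>
      ⟨hKU (hVK z hzV s ⟨hs.1.le, hs.2⟩), by rw [him]; linarith⟩
    have b1 := a2 hzV (by linarith)
    have e1 : hat φ hp hm z = Fin.cons (φ z.re) (hm z) := by
      rw [hat, if_neg (by linarith)]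
    have e2 : hat φ hp hm (z + t • (1:ℂ)) = Fin.cons (φ (z.re + t)) (hm (z + t • (1:ℂ))) := by
      rw [hat, him, hre, if_neg (by linarith)]
    have hz1 : z.re ∈ Ioo (-1:ℝ) 1 := by
      have := re_mem (hKU (hVK z hzV 0 ⟨le_rfl, ht⟩))
      simpa using this
    have hz2 : z.re + t ∈ Ioo (-1:ℝ) 1 := by
      have := re_mem (hKU (hVK z hzV t ⟨ht, le_rfl⟩))
      rwa [hre] at this
    have h3 : G (hat φ hp hm (z + t • (1:ℂ))) (hat φ hp hm z) ≤
        M * t + G (hm (z + t • (1:ℂ))) (hm z) := by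
      rw [e1, e2]
      refine (G_cons _ _ _ _).trans (add_le_add ?_ le_rfl)
      refine (hφ _ hz2 _ hz1).trans (le_of_eq ?_)
      rw [add_sub_cancel_left, abs_of_nonneg ht]
    calc ENNReal.ofReal (G (hat φ hp hm (z + t • (1:ℂ))) (hat φ hp hm z))
        ≤ ENNReal.ofReal (M * t) + ENNReal.ofReal (G (hm (z + t • (1:ℂ))) (hm z)) := by
          rw [← ENNReal.ofReal_add (by positivity) (G_nonneg _ _)]
          exact ENNReal.ofReal_le_ofReal h3
      _ ≤ (∫⁻ _ in Ioc 0 t, ENNReal.ofReal M) + ∫⁻ s in Ioc 0 t, Φm (z + s • (1:ℂ)) := by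
          refine add_le_add (le_of_eq ?_) b1
          rw [setLIntegral_const, Real.volume_Ioc, sub_zero, ENNReal.ofReal_mul hM]
      _ = ∫⁻ s in Ioc 0 t, (ENNReal.ofReal M + Φm (z + s • (1:ℂ))) := by
          rw [lintegral_add_left measurable_const]
      _ = _ := by
          refine setLIntegral_congr_fun measurableSet_Ioc fun s hs' => ?_
          have h4 := hs s hs'
          have h5 : z + s • (1:ℂ) ∉ side (ball 0 1) 1 := fun h => by
            have h6 := h.2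
            rw [him] at h6
            linarith
          rw [indicator_of_notMem h5, indicator_of_mem h4, zero_add, add_comm]
  · have hs : ∀ s ∈ Ioc 0 t, z + s • (1:ℂ) ∈ side (ball 0 1) 1 := fun s hs =>
      ⟨hKU (hVK z hzV s ⟨hs.1.le, hs.2⟩), by rw [him]; linarith⟩
    have b1 := a1 hzV (by linarith)
    have e1 : hat φ hp hm z = hp z := by
      rw [hat, if_pos hpos]
    have e2 : hat φ hp hm (z + t • (1:ℂ)) = hp (z + t • (1:ℂ)) := by
      rw [hat, him, if_pos hpos]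
    rw [e1, e2]
    refine b1.trans (le_of_eq ?_)
    refine setLIntegral_congr_fun measurableSet_Ioc fun s hs' => ?_
    have h4 := hs s hs'
    have h5 : z + s • (1:ℂ) ∉ side (ball 0 1) (-1) := fun h => by
      have h6 := h.2
      rw [him] at h6
      linarith
    rw [indicator_of_notMem h5, indicator_of_mem h4, add_zero]

theorem hat_HB_I {φ : ℝ → ℂ} {hp : ℂ → Fin 2 → ℂ} {hm : ℂ → Fin 1 → ℂ} {τ : ℝ → Fin 1 → ℂ}
    {Φp Φm : ℂ → ℝ≥0∞} (hΦm : Measurable Φm)
    (h1 : HB (ball 0 1) Complex.I (ext 1 hp fun x => Fin.cons (φ x) (τ x)) Φp)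
    (h2 : HB (ball 0 1) Complex.I (ext (-1) hm τ) Φm) :
    HB (ball 0 1) Complex.I (hat φ hp hm) (fun z => Φp z + Φm z) := by
  intro V K hV hK hKU t ht hVK
  filter_upwards [h1 V K hV hK hKU t ht hVK, h2 V K hV hK hKU t ht hVK, ae_im_ne, ae_im_ne' (-t)]
    with z a1 a2 a3 a4 hzV
  have hre : (z + t • Complex.I).re = z.re := by simp
  have him : (z + t • Complex.I).im = z.im + t := by simp
  have hm' : Measurable fun s : ℝ => Φm (z + s • Complex.I) :=
    hΦm.comp (by fun_prop)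
  rw [lintegral_add_right _ hm']
  refine le_trans ?_ (add_le_add (a1 hzV) (a2 hzV))
  rw [← ENNReal.ofReal_add (G_nonneg _ _) (G_nonneg _ _)]
  apply ENNReal.ofReal_le_ofReal
  set z' := z + t • Complex.I with hz'
  rcases lt_or_gt_of_ne a3 with hneg | hpos
  · have e1 : hat φ hp hm z = Fin.cons (φ z.re) (hm z) := by
      rw [hat, if_neg (by linarith)]
    have p1 : ext 1 hp (fun x => Fin.cons (φ x) (τ x)) z = Fin.cons (φ z.re) (τ z.re) := by
      rw [ext, if_neg (by linarith)]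
    have m1 : ext (-1) hm τ z = hm z := by
      rw [ext, if_pos (by linarith)]
    rcases lt_or_gt_of_ne (show z'.im ≠ 0 by rw [him]; intro h; apply a4; linarith) with hn2 | hp2
    · have e2 : hat φ hp hm z' = Fin.cons (φ z.re) (hm z') := by
        rw [hat, if_neg (by linarith), hre]
      have m2 : ext (-1) hm τ z' = hm z' := by
        rw [ext, if_pos (by linarith)]
      rw [e1, e2, m1, m2]
      have h3 := G_cons (φ z.re) (φ z.re) (hm z') (hm z)
      rw [sub_self, norm_zero, zero_add] at h3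
      have h4 := G_nonneg (ext 1 hp (fun x => Fin.cons (φ x) (τ x)) z')
        (ext 1 hp (fun x => Fin.cons (φ x) (τ x)) z)
      linarith
    · have e2 : hat φ hp hm z' = hp z' := by
        rw [hat, if_pos hp2]
      have p2 : ext 1 hp (fun x => Fin.cons (φ x) (τ x)) z' = hp z' := by
        rw [ext, if_pos (by linarith)]
      have m2 : ext (-1) hm τ z' = τ z.re := by
        rw [ext, if_neg (by linarith), hre]
      rw [e1, e2, m1, m2, p1, p2]
      have h3 := G_cons (φ z.re) (φ z.re) (τ z.re) (hm z)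
      rw [sub_self, norm_zero, zero_add] at h3
      have h4 := G_triangle (hp z') (Fin.cons (φ z.re) (τ z.re)) (Fin.cons (φ z.re) (hm z))
      linarith
  · have hp2 : 0 < z'.im := by rw [him]; linarith
    have e1 : hat φ hp hm z = hp z := by rw [hat, if_pos hpos]
    have e2 : hat φ hp hm z' = hp z' := by rw [hat, if_pos hp2]
    have p1 : ext 1 hp (fun x => Fin.cons (φ x) (τ x)) z = hp z := by
      rw [ext, if_pos (by linarith)]
    have p2 : ext 1 hp (fun x => Fin.cons (φ x) (τ x)) z' = hp z' := by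
      rw [ext, if_pos (by linarith)]
    rw [e1, e2, p1, p2]
    have h4 := G_nonneg (ext (-1) hm τ z') (ext (-1) hm τ z)
    linarith

end Pool.Agent.TH300
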