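import Pool.Agent.TH300.Gl3

/-! Weak derivatives of the glued function. -/

set_option autoImplicit false

open MeasureTheory Metric Set Filter Topology
open scoped ContDiff ENNReal RealInnerProductSpace

namespace Pool.Agent.TH300

/-- a measurable finite bound from a dominating function -/
theorem dom_bound {Q : ℕ} {U : Set ℂ} (hU : MeasurableSet U) {f : ℂ → Fin Q → ℂ} {α : Fin 2 → ℂ → ℝ}
    (h : Dominates U f α) (j : Fin 2) :
    ∃ Φ : ℂ → ℝ≥0∞, Measurable Φ ∧ (∀ z, Φ z ≠ ⊤) ∧ (∀ᵐ z, z ∈ U → Φ z = ‖α j z‖ₑ) ∧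
      ∫⁻ z in U, Φ z ^ (2:ℝ) < ⊤ ∧
      ∀ T, MemLp (fun z => G (f z) T) 2 (volume.restrict U) ∧
      ∃ d, MemLp d 2 (volume.restrict U) ∧ IsWeakDeriv U (dir j) (fun z => G (f z) T) d ∧
        ∀ᵐ z, z ∈ U → ‖d z‖ₑ ≤ Φ z := by
  have h1 := h.1 j
  have h2 : ∀ᵐ z, z ∈ U → α j z = h1.1.mk (α j) z := by
    have := h1.1.ae_eq_mk
    rwa [Filter.EventuallyEq, ae_restrict_iff' hU] at this
  refine ⟨fun z => ‖h1.1.mk (α j) z‖ₑ, h1.1.stronglyMeasurable_mk.measurable.enorm,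
    fun z => enorm_ne_top, ?_, ?_, fun T => ?_⟩
  · filter_upwards [h2] with z hz hzU
    rw [hz hzU]
  · have h3 : MemLp (h1.1.mk (α j)) 2 (volume.restrict U) := h1.ae_eq h1.1.ae_eq_mk
    have h4 := h3.2
    rw [eLpNorm_eq_lintegral_rpow_enorm_toReal (by norm_num) (by norm_num)] at h4
    simp only [ENNReal.toReal_ofNat] at h4
    by_contra h5
    rw [not_lt, top_le_iff] at h5
    rw [h5] at h4
    simp at h4
  · obtain ⟨hw, hd⟩ := h.2 T
    obtain ⟨d, hd1, hd2, hd3⟩ := hd j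
    refine ⟨hw, d, hd1, hd2, ?_⟩
    rw [ae_restrict_iff' hU] at hd3
    filter_upwards [hd3, h2] with z h5 h6 hzU
    rw [← h6 hzU, ← ofReal_norm, ← ofReal_norm]
    apply ENNReal.ofReal_le_ofReal
    rw [Real.norm_eq_abs, Real.norm_eq_abs]
    exact (h5 hzU).trans (le_abs_self _)

theorem dom_sob {Q : ℕ} {U : Set ℂ} {f : ℂ → Fin Q → ℂ} {e : ℂ} {Φ : ℂ → ℝ≥0∞}
    (hΦ : Measurable Φ) (h : ∀ T, MemLp (fun z => G (f z) T) 2 (volume.restrict U) ∧
      ∃ d, MemLp d 2 (volume.restrict U) ∧ IsWeakDeriv U e (fun z => G (f z) T) d ∧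
        ∀ᵐ z, z ∈ U → ‖d z‖ₑ ≤ Φ z) : SobDir U e f Φ := by
  refine ⟨hΦ, fun T => ?_⟩
  obtain ⟨hw, d, hd1, hd2, hd3⟩ := h T
  exact ⟨memLp_locInt hw, d, memLp_locInt hd1, hd2, hd3⟩

theorem fin_add {U : Set ℂ} {A B : ℂ → ℝ≥0∞} (hB : Measurable B)
    (h1 : ∫⁻ z in U, A z ^ (2:ℝ) < ⊤) (h2 : ∫⁻ z in U, B z ^ (2:ℝ) < ⊤) :
    ∫⁻ z in U, (A z + B z) ^ (2:ℝ) < ⊤ := by
  have h3 : ∀ z, (A z + B z) ^ (2:ℝ) ≤ 2 * (A z ^ (2:ℝ) + B z ^ (2:ℝ)) := by
    intro z
    have := ENNReal.rpow_add_le_mul_rpow_add_rpow (A z) (B z) (p := 2) (by norm_num)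
    refine this.trans (le_of_eq ?_)
    norm_num
  refine lt_of_le_of_lt (lintegral_mono h3) ?_
  rw [lintegral_const_mul' _ _ (by norm_num), lintegral_add_right _ (hB.pow_const _)]
  exact ENNReal.mul_lt_top (by norm_num) (ENNReal.add_lt_top.2 ⟨h1, h2⟩)

theorem fin_ind {U S : Set ℂ} (hS : MeasurableSet S) (hSU : S ⊆ U) {A : ℂ → ℝ≥0∞}
    (h1 : ∫⁻ z in S, A z ^ (2:ℝ) < ⊤) : ∫⁻ z in U, (S.indicator A z) ^ (2:ℝ) < ⊤ := by
  have e : (fun z => (S.indicator A z) ^ (2:ℝ)) = S.indicator fun z => A z ^ (2:ℝ) := by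
    ext z
    by_cases hz : z ∈ S
    · rw [indicator_of_mem hz, indicator_of_mem hz]
    · rw [indicator_of_notMem hz, indicator_of_notMem hz]
      simp
  rw [e, lintegral_indicator hS, Measure.restrict_restrict hS, inter_eq_left.2 hSU]
  exact h1

theorem lip_cont {Q : ℕ} {L : (Fin Q → ℂ) → ℝ} {c : ℝ}
    (hL : ∀ S T, |L S - L T| ≤ c * G S T) : Continuous L := by
  rw [continuous_iff_continuousAt]
  intro S
  rw [ContinuousAt, tendsto_iff_norm_sub_tendsto_zero]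
  have h1 : Tendsto (fun T => |c| * nr (S - T)) (𝓝 S) (𝓝 0) := by
    have := (nr_tendsto S).const_mul |c|
    rwa [mul_zero] at this
  refine squeeze_zero (fun T => norm_nonneg _) (fun T => ?_) h1
  rw [Real.norm_eq_abs, abs_sub_comm]
  refine (hL S T).trans ?_
  have h2 := G_nonneg S T
  have h3 := G_le_nr S T
  calc c * G S T ≤ |c| * G S T := by
        apply mul_le_mul_of_nonneg_right (le_abs_self c) h2
    _ ≤ |c| * nr (S - T) := mul_le_mul_of_nonneg_left h3 (abs_nonneg c)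

theorem memLp_affine {μ : Measure ℂ} [IsFiniteMeasure μ] {f : ℂ → ℝ} (hf : MemLp f 2 μ) (a c : ℝ) :
    MemLp (fun z => a + c * f z) 2 μ := (memLp_const a).add (hf.const_mul c)

variable {φ : ℝ → ℂ} {hp : ℂ → Fin 2 → ℂ} {hm : ℂ → Fin 1 → ℂ} {M B : ℝ}

theorem hat_hb (hM : 0 ≤ M) (hφ : ∀ x ∈ Ioo (-1:ℝ) 1, ∀ y ∈ Ioo (-1:ℝ) 1, ‖φ x - φ y‖ ≤ M * |x - y|)
    (h : IsHalfValued 1 (ball 0 1) φ hp hm) (j : Fin 2) :
    ∃ Φ : ℂ → ℝ≥0∞, Measurable Φ ∧ ∫⁻ z in ball 0 1, Φ z ^ (2:ℝ) < ⊤ ∧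
      HB (ball 0 1) (dir j) (hat φ hp hm) Φ := by
  obtain ⟨⟨α, hα⟩, ⟨β, hβ⟩, τ, tr1, tr2⟩ := h
  have hs1 : MeasurableSet (side (ball (0:ℂ) 1) 1) := (isOpen_side isOpen_ball _).measurableSet
  have hs2 : MeasurableSet (side (ball (0:ℂ) 1) (-1)) := (isOpen_side isOpen_ball _).measurableSet
  obtain ⟨Φp, p1, p2, p3, p4, p5⟩ := dom_bound hs1 hα j
  obtain ⟨Φm, m1, m2, m3, m4, m5⟩ := dom_bound hs2 hβ j
  fin_cases j
  · have hd : dir 0 = 1 := rfl
    have b1 : HB (side (ball 0 1) 1) 1 hp Φp := (dom_sob p1 p5).hb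
    have b2 : HB (side (ball 0 1) (-1)) 1 hm Φm := (dom_sob m1 m5).hb
    refine ⟨_, ?_, ?_, hat_HB_one hM hφ b1 b2⟩
    · exact (p1.indicator hs1).add ((m1.add_const _).indicator hs2)
    · refine fin_add ((m1.add_const _).indicator hs2) (fin_ind hs1 (side_subset _ _) p4)
        (fin_ind hs2 (side_subset _ _) ?_)
      refine fin_add measurable_const m4 ?_
      rw [setLIntegral_const]
      refine ENNReal.mul_lt_top (by simp) ?_
      exact (measure_mono (side_subset _ _)).trans_lt measure_ball_lt_top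
  · have hd : dir 1 = Complex.I := rfl
    have b1 := (ext_sob (Or.inl rfl) p1 p5 tr2).hb
    have b2 := (ext_sob (Or.inr rfl) m1 m5 tr1).hb
    refine ⟨_, ?_, ?_, hat_HB_I (m1.indicator hs2) b1 b2⟩
    · exact (p1.indicator hs1).add (m1.indicator hs2)
    · exact fin_add (m1.indicator hs2) (fin_ind hs1 (side_subset _ _) p4)
        (fin_ind hs2 (side_subset _ _) m4)

theorem hat_memLp (hφc : Continuous φ) (hB : ∀ x ∈ Ioo (-1:ℝ) 1, ‖φ x‖ ≤ B)
    (h : IsHalfValued 1 (ball 0 1) φ hp hm) {L : (Fin 2 → ℂ) → ℝ} {c : ℝ} (hc : 0 ≤ c)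
    (hL : ∀ S T, |L S - L T| ≤ c * G S T) :
    MemLp (fun z => L (hat φ hp hm z)) 2 (volume.restrict (ball 0 1)) := by
  obtain ⟨⟨α, hα⟩, ⟨β, hβ⟩, -⟩ := h
  have hs1 : MeasurableSet (side (ball (0:ℂ) 1) 1) := (isOpen_side isOpen_ball _).measurableSet
  have hs2 : MeasurableSet (side (ball (0:ℂ) 1) (-1)) := (isOpen_side isOpen_ball _).measurableSet
  have hfin : ∀ σ, IsFiniteMeasure (volume.restrict (side (ball (0:ℂ) 1) σ)) := fun σ =>
    ⟨by
      rw [Measure.restrict_apply_univ]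
      exact (measure_mono (side_subset _ _)).trans_lt measure_ball_lt_top⟩
  have hb : ∀ S, ‖L S‖ ≤ |L 0| + c * G S 0 := by
    intro S
    rw [Real.norm_eq_abs]
    have h1 := hL S 0
    have h2 : |L S| ≤ |L 0| + |L S - L 0| := by
      calc |L S| = |L 0 + (L S - L 0)| := by congr 1; ring
        _ ≤ _ := abs_add_le _ _
    linarith
  have P1 : MemLp (fun z => L (hp z)) 2 (volume.restrict (side (ball 0 1) 1)) := by
    have hm1 : AEMeasurable (fun z => L (hp z)) (volume.restrict (side (ball 0 1) 1)) :=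
      lip_aemeas hc hL fun T => (hα.2 T).1.1.aemeasurable
    have := hfin 1
    have h0 : MemLp (fun z => G (hp z) 0) 2 (volume.restrict (side (ball 0 1) 1)) :=
      (hα.2 (0 : Fin 2 → ℂ)).1
    have h1 := memLp_affine h0 |L 0| c
    refine h1.mono hm1.aestronglyMeasurable (Eventually.of_forall fun z => ?_)
    refine (hb _).trans (le_of_eq ?_)
    rw [Real.norm_of_nonneg]
    have := G_nonneg (hp z) 0
    positivity
  have P2 : MemLp (fun z => L (Fin.cons (φ z.re) (hm z))) 2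
      (volume.restrict (side (ball 0 1) (-1))) := by
    have hre : AEMeasurable (fun z => (hm z 0).re) (volume.restrict (side (ball 0 1) (-1))) := by
      refine lip_aemeas (L := fun S : Fin 1 → ℂ => (S 0).re) zero_le_one (fun S T => ?_)
        fun T => (hβ.2 T).1.1.aemeasurable
      rw [G_one, one_mul, ← Complex.sub_re]
      exact Complex.abs_re_le_norm _
    have him : AEMeasurable (fun z => (hm z 0).im) (volume.restrict (side (ball 0 1) (-1))) := by
      refine lip_aemeas (L := fun S : Fin 1 → ℂ => (S 0).im) zero_le_one (fun S T => ?_)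
        fun T => (hβ.2 T).1.1.aemeasurable
      rw [G_one, one_mul, ← Complex.sub_im]
      exact Complex.abs_im_le_norm _
    have hv : AEMeasurable (fun z => hm z 0) (volume.restrict (side (ball 0 1) (-1))) := by
      have := (Complex.measurable_ofReal.comp_aemeasurable hre).add
        ((Complex.measurable_ofReal.comp_aemeasurable him).mul_const Complex.I)
      refine this.congr (Eventually.of_forall fun z => ?_)
      exact Complex.re_add_im _
    have hcm : AEMeasurable (fun z => (Fin.cons (φ z.re) (hm z) : Fin 2 → ℂ))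
        (volume.restrict (side (ball 0 1) (-1))) := by
      rw [aemeasurable_pi_iff]
      intro i
      fin_cases i
      · exact (hφc.comp Complex.continuous_re).measurable.aemeasurable
      · exact hv
    have hm1 := (lip_cont hL).measurable.comp_aemeasurable hcm
    have := hfin (-1)
    have h0 : MemLp (fun z => G (hm z) 0) 2 (volume.restrict (side (ball 0 1) (-1))) :=
      (hβ.2 (0 : Fin 1 → ℂ)).1
    have h1 := memLp_affine (memLp_affine h0 |B| 1) |L 0| c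
    simp only [one_mul] at h1
    refine h1.mono hm1.aestronglyMeasurable ?_
    rw [ae_restrict_iff' hs2]
    refine Eventually.of_forall fun z hz => ?_
    refine (hb _).trans ?_
    have h2 : G (Fin.cons (φ z.re) (hm z) : Fin 2 → ℂ) 0 ≤ |B| + G (hm z) 0 := by
      have e0 : (0 : Fin 2 → ℂ) = Fin.cons 0 0 := by
        ext i; fin_cases i <;> rfl
      rw [e0]
      refine (G_cons _ _ _ _).trans (add_le_add ?_ le_rfl)
      rw [sub_zero]
      exact (hB _ (re_mem hz.1)).trans (le_abs_self _)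
    have h3 := G_nonneg (hm z) 0
    rw [Real.norm_of_nonneg (by positivity)]
    exact add_le_add le_rfl (mul_le_mul_of_nonneg_left h2 hc)
  have Q1 : MemLp ((side (ball 0 1) 1).indicator fun z => L (hp z)) 2
      (volume.restrict (ball 0 1)) := by
    rw [memLp_indicator_iff_restrict hs1, Measure.restrict_restrict hs1,
      inter_eq_left.2 (side_subset _ _)]
    exact P1
  have Q2 : MemLp ((side (ball 0 1) (-1)).indicator fun z => L (Fin.cons (φ z.re) (hm z))) 2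
      (volume.restrict (ball 0 1)) := by
    rw [memLp_indicator_iff_restrict hs2, Measure.restrict_restrict hs2,
      inter_eq_left.2 (side_subset _ _)]
    exact P2
  refine (Q1.add Q2).ae_eq ?_
  rw [EventuallyEq, ae_restrict_iff' isOpen_ball.measurableSet]
  filter_upwards [ae_im_ne] with z hz0 hz
  simp only [Pi.add_apply]
  rcases lt_or_gt_of_ne hz0 with hneg | hpos
  · have a1 : z ∉ side (ball 0 1) 1 := fun h => by have := h.2; linarith
    have a2 : z ∈ side (ball 0 1) (-1) := ⟨hz, by linarith⟩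
    rw [indicator_of_notMem a1, indicator_of_mem a2, zero_add, hat, if_neg (by linarith)]
  · have a1 : z ∈ side (ball 0 1) 1 := ⟨hz, by linarith⟩
    have a2 : z ∉ side (ball 0 1) (-1) := fun h => by have := h.2; linarith
    rw [indicator_of_mem a1, indicator_of_notMem a2, add_zero, hat, if_pos hpos]

theorem hat_weak (hM : 0 ≤ M)
    (hφ : ∀ x ∈ Ioo (-1:ℝ) 1, ∀ y ∈ Ioo (-1:ℝ) 1, ‖φ x - φ y‖ ≤ M * |x - y|)
    (hφc : Continuous φ) (hB : ∀ x ∈ Ioo (-1:ℝ) 1, ‖φ x‖ ≤ B)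
    (h : IsHalfValued 1 (ball 0 1) φ hp hm) {L : (Fin 2 → ℂ) → ℝ} {c : ℝ} (hc : 0 ≤ c)
    (hL : ∀ S T, |L S - L T| ≤ c * G S T) (j : Fin 2) :
    ∃ d, MemLp d 2 (volume.restrict (ball 0 1)) ∧
      IsWeakDeriv (ball 0 1) (dir j) (fun z => L (hat φ hp hm z)) d := by
  obtain ⟨Φ, h1, h2, h3⟩ := hat_hb hM hφ h j
  obtain ⟨d, hd, hw⟩ := lip_weak isOpen_ball h1 h2 h3 hc hL
    (memLp_locInt (hat_memLp hφc hB h hc hL))
  exact ⟨d, hd.restrict _, hw⟩

end Pool.Agent.TH300
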